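import Pool.Agent.Lib.MP_488d93_nt.Brun2

-- part Pool.Agent.Lib.MP_488d93_nt.Four
section

/-! Distance to the nearest integer, discrete Parseval identity, the window lemma. -/

set_option autoImplicit false

namespace Pool.Agent.Lib.MP_488d93_nt

open Finset

/-- Distance to the nearest integer. -/
noncomputable def nd (t : ℝ) : ℝ := |t - round t|

theorem nd_nonneg (t : ℝ) : 0 ≤ nd t := abs_nonneg _

theorem nd_le (t : ℝ) (k : ℤ) : nd t ≤ |t - k| := round_le t k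

theorem nd_add_le (s t : ℝ) : nd (s + t) ≤ nd s + nd t := by
  refine (nd_le _ (round s + round t)).trans ?_
  have : s + t - ((round s + round t : ℤ) : ℝ) = (s - round s) + (t - round t) := by
    push_cast; ring
  rw [this]
  exact abs_add_le _ _

theorem nd_neg (t : ℝ) : nd (-t) = nd t := by
  have h : ∀ t : ℝ, nd (-t) ≤ nd t := fun t => by
    refine (nd_le _ (-round t)).trans (le_of_eq ?_)
    rw [nd, ← abs_neg]; congr 1; push_cast; ring
  exact le_antisymm (h t) (by simpa using h (-t))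

theorem nd_sub_comm (s t : ℝ) : nd (s - t) = nd (t - s) := by rw [← nd_neg, neg_sub]

theorem nd_add_int (t : ℝ) (k : ℤ) : nd (t + k) = nd t := by
  unfold nd
  rw [round_add_intCast]
  congr 1; push_cast; ring

theorem nd_nat_mul (n : ℕ) (t : ℝ) : nd (n * t) ≤ n * nd t := by
  refine (nd_le _ (n * round t)).trans (le_of_eq ?_)
  rw [nd, ← abs_of_nonneg (Nat.cast_nonneg (α := ℝ) n), ← abs_mul, abs_of_nonneg
    (Nat.cast_nonneg (α := ℝ) n)]
  congr 1; push_cast; ring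

theorem norm_ee_sub_one (t : ℝ) : ‖ee t - 1‖ ≤ 7 * nd t := by
  set s := t - round t with hs
  have h2 : ee t = Complex.exp (Complex.I * (2 * Real.pi * s : ℝ)) := by
    have : t = s + (round t : ℤ) := by rw [hs]; ring
    rw [this, ee_add, ee_int, mul_one]
    unfold ee; congr 1; push_cast; ring
  rw [h2]
  refine Real.norm_exp_I_mul_ofReal_sub_one_le.trans ?_
  rw [Real.norm_eq_abs, abs_mul, abs_of_pos (by positivity : 0 < 2 * Real.pi)]
  exact mul_le_mul_of_nonneg_right (by linarith [Real.pi_lt_d2]) (abs_nonneg _)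

theorem geom_le (a b : ℕ) (t : ℝ) : ‖∑ m ∈ Ico a b, ee (m * t)‖ * (2 * nd t) ≤ 1 := by
  rcases le_or_gt b a with h | h
  · simp [Ico_eq_empty_of_le h]
  have h2 : ‖∑ m ∈ Ico a b, ee (m * t)‖ * ‖ee t - 1‖ ≤ 2 := by
    simp only [ee_nat_mul]
    rw [← norm_mul, geom_sum_Ico_mul _ h.le]
    refine (norm_sub_le _ _).trans (le_of_eq ?_)
    rw [norm_pow, norm_pow, norm_ee]; norm_num
  have h3 : 4 * nd t ≤ ‖ee t - 1‖ := four_mul_le t
  nlinarith [norm_nonneg (∑ m ∈ Ico a b, ee (m * t))]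

theorem norm_sum_ee_le {ι : Type*} (s : Finset ι) (t : ι → ℝ) : ‖∑ i ∈ s, ee (t i)‖ ≤ s.card := by
  refine (norm_sum_le _ _).trans (le_of_eq ?_)
  simp [norm_ee]

theorem orth {M : ℕ} (h : ℤ) :
    ∑ ξ ∈ range M, ee (h * (ξ / M)) = if (M : ℤ) ∣ h then (M : ℂ) else 0 := by
  rcases Nat.eq_zero_or_pos M with rfl | hM
  · simp
  have M0 : (M : ℝ) ≠ 0 := by positivity
  have e : ∀ ξ : ℕ, ee (h * (ξ / M)) = ee (h / M) ^ ξ := fun ξ => by
    rw [← ee_nat_mul]; congr 1; ring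
  simp only [e]
  split_ifs with hd
  · obtain ⟨k, rfl⟩ := hd
    have : ((M * k : ℤ) : ℝ) / M = k := by push_cast; field_simp
    rw [this, ee_int]; simp
  · have h1 : ee (h / M) ^ M = 1 := by
      rw [← ee_nat_mul, mul_div_cancel₀ _ M0, ee_int]
    have h2 : ee (h / M) - 1 ≠ 0 := by
      intro h0
      have h3 := four_mul_le (h / M)
      rw [h0, norm_zero] at h3
      have h4 : (h : ℝ) / M - round ((h : ℝ) / M) = 0 := abs_eq_zero.1 (by
        linarith [abs_nonneg ((h : ℝ) / M - round ((h : ℝ) / M))])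
      refine hd ⟨round ((h : ℝ) / M), ?_⟩
      have : (h : ℝ) = M * round ((h : ℝ) / M) := by field_simp at h4 ⊢; linarith
      exact_mod_cast this
    have := geom_sum_mul (ee (h / M)) M
    rw [h1, sub_self] at this
    exact (mul_eq_zero.1 this).resolve_right h2

theorem orth' {M : ℕ} {h : ℤ} (h1 : |h| < M) :
    ∑ ξ ∈ range M, ee (h * (ξ / M)) = if h = 0 then (M : ℂ) else 0 := by
  rw [orth]
  congr 1
  exact propext ⟨fun h2 => Int.eq_zero_of_abs_lt_dvd h2 h1, fun h2 => h2 ▸ dvd_zero _⟩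

/-- Grid points. -/
noncomputable def gp (M ξ : ℕ) : ℝ := ξ / M

/-- Exponential sums. -/
noncomputable def ft (s : Finset ℕ) (u : ℕ → ℂ) (α : ℝ) : ℂ := ∑ m ∈ s, u m * ee (m * α)

theorem parseval {M : ℕ} (s : Finset ℕ) (hs : ∀ m ∈ s, m < M) (u : ℕ → ℂ) :
    ∑ ξ ∈ range M, ‖ft s u (gp M ξ)‖ ^ 2 = M * ∑ m ∈ s, ‖u m‖ ^ 2 := by
  unfold ft gp
  apply Complex.ofReal_injective
  push_cast [-Complex.ofReal_pow]
  simp only [normSq_sum]
  rw [sum_comm, mul_sum]
  refine sum_congr rfl fun m hm => ?_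
  rw [sum_comm]
  have : ∀ m' ∈ s, ∑ ξ ∈ range M, u m * ee (m * (ξ / M)) * star (u m' * ee (m' * (ξ / M))) =
      if m' = m then M * (u m * star (u m')) else 0 := fun m' hm' => by
    have h1 := hs m hm
    have h2 := hs m' hm'
    have := orth' (M := M) (h := (m : ℤ) - m') (by rw [abs_lt]; omega)
    calc _ = u m * star (u m') * ∑ ξ ∈ range M, ee (((m : ℤ) - m' : ℤ) * (ξ / M)) := by
          rw [mul_sum]
          refine sum_congr rfl fun ξ _ => ?_
          rw [star_mul', star_ee, mul_mul_mul_comm, ← ee_add]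
          congr 2; push_cast; ring
      _ = _ := by
          rw [this]
          by_cases e : m' = m
          · simp [e, mul_comm]
          · rw [if_neg (by omega), if_neg e, mul_zero]
  rw [sum_congr rfl this, sum_ite_eq' s m, if_pos hm, Complex.star_def, Complex.mul_conj,
    Complex.normSq_eq_norm_sq]

/-- The window of length `Y` that ends at `x`. -/
def win (s : Finset ℕ) (Y x : ℕ) : Finset ℕ := s.filter fun m => m ≤ x ∧ x < m + Y

theorem sum_win {β : Type*} [AddCommMonoid β] {s : Finset ℕ} {K : ℕ} (hs : ∀ m ∈ s, m < K) (Y : ℕ)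
    (g : ℕ → ℕ → β) :
    ∑ x ∈ range (K + Y), ∑ m ∈ win s Y x, g x m = ∑ m ∈ s, ∑ j ∈ range Y, g (m + j) m := by
  unfold win
  simp only [sum_filter]
  rw [sum_comm]
  refine sum_congr rfl fun m hm => ?_
  have := hs m hm
  rw [← sum_filter]
  refine sum_nbij' (fun x => x - m) (fun j => m + j) ?_ ?_ ?_ ?_ ?_
  · intro x hx; simp only [mem_filter, mem_range] at hx ⊢; omega
  · intro x hx; simp only [mem_filter, mem_range] at hx ⊢; omega
  · intro x hx; simp only [mem_filter, mem_range] at hx ⊢; omega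
  · intro x _; omega
  · intro x hx
    simp only [mem_filter, mem_range] at hx
    congr 1; omega

theorem win_range (K Y x : ℕ) : win (range K) Y x = Ico (x + 1 - Y) (min K (x + 1)) := by
  ext m; simp only [win, mem_filter, mem_range, mem_Ico]; omega

open Classical in
theorem window {M K Y : ℕ} (hY : 0 < Y) (hM : K + Y ≤ M) (s : Finset ℕ) (hs : ∀ m ∈ s, m < K)
    (u : ℕ → ℂ) (α : ℝ) :
    ∑ ξ ∈ range M with nd (gp M ξ - α) ≤ 1 / (14 * Y), ‖ft s u (gp M ξ)‖ ^ 2 ≤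
      4 * M / Y ^ 2 * ∑ x ∈ range (K + Y), ‖ft (win s Y x) u α‖ ^ 2 := by
  have Y0 : (0 : ℝ) < Y := by exact_mod_cast hY
  let w : ℕ → ℂ := fun x => ee (-(x * α)) * ∑ m ∈ win s Y x, u m * ee (m * α)
  have h1 := parseval (M := M) (range (K + Y)) (fun m hm => by simp at hm; omega) w
  have h2 : ∀ x, ‖w x‖ = ‖∑ m ∈ win s Y x, u m * ee (m * α)‖ := fun x => by
    simp only [w, norm_mul, norm_ee, one_mul]
  have h3 : ∀ β : ℝ, ∑ x ∈ range (K + Y), w x * ee (x * β) =
      (∑ m ∈ s, u m * ee (m * β)) * ∑ j ∈ range Y, ee (j * (β - α)) := fun β => by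
    simp only [w, mul_sum, sum_mul]
    rw [sum_win hs Y fun x m => ee (-(x * α)) * (u m * ee (m * α)) * ee (x * β), sum_comm]
    refine sum_congr rfl fun j _ => sum_congr rfl fun m _ => ?_
    rw [mul_assoc (u m), ← ee_add, mul_comm (ee _) (u m * _), mul_assoc, mul_assoc, ← ee_add,
      ← ee_add]
    congr 2; push_cast; ring
  unfold ft at h1 ⊢
  simp only [h2, h3] at h1
  have h4 : ∀ β : ℝ, nd β ≤ 1 / (14 * Y) → (Y : ℝ) / 2 ≤ ‖∑ j ∈ range Y, ee (j * β)‖ := by
    intro β hβ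
    have e : ∑ j ∈ range Y, ee (j * β) = Y + ∑ j ∈ range Y, (ee (j * β) - 1) := by simp
    have b : ‖∑ j ∈ range Y, (ee (j * β) - 1)‖ ≤ Y / 2 := by
      refine (norm_sum_le _ _).trans ?_
      calc _ ≤ ∑ _j ∈ range Y, (1 / 2 : ℝ) := sum_le_sum fun j hj => by
            have j1 : (j : ℝ) ≤ Y := by exact_mod_cast (mem_range.1 hj).le
            have := nd_nat_mul j β
            have h5 : j * nd β ≤ Y * (1 / (14 * Y)) :=
              mul_le_mul j1 hβ (nd_nonneg _) Y0.le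
            have h6 : (Y : ℝ) * (1 / (14 * Y)) = 1 / 14 := by field_simp
            linarith [norm_ee_sub_one (j * β)]
        _ = _ := by simp; ring
    have := norm_sub_norm_le (Y : ℂ) (-∑ j ∈ range Y, (ee (j * β) - 1))
    rw [sub_neg_eq_add, ← e, norm_neg, Complex.norm_natCast] at this
    linarith
  rw [div_mul_eq_mul_div, mul_assoc, ← h1, le_div_iff₀ (by positivity), sum_mul, mul_sum,
    sum_filter]
  apply sum_le_sum
  intro ξ _
  split_ifs with h
  · have := pow_le_pow_left₀ (by positivity) (h4 _ h) 2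
    rw [norm_mul, mul_pow]
    have h0 : (0 : ℝ) ≤ ‖∑ m ∈ s, u m * ee (m * gp M ξ)‖ ^ 2 := sq_nonneg _
    nlinarith
  · positivity

/-- The large sieve for coefficients in a window. -/
theorem ls_win {ρ : Type*} (S : Finset ρ) (α : ρ → ℝ) {Q : ℝ} (hQ : 0 < Q)
    (hs : ∀ r ∈ S, ∀ s ∈ S, r ≠ s → 1 / Q ≤ nd (α r - α s)) {c Y : ℕ} (s : Finset ℕ)
    (hY : ∀ m ∈ s, c ≤ m ∧ m < c + Y) (u : ℕ → ℂ) :
    ∑ r ∈ S, ‖ft s u (α r)‖ ^ 2 ≤ 41 * (Y + Q) * ∑ m ∈ s, ‖u m‖ ^ 2 := by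
  unfold ft
  have sh : ∀ {β : Type} [AddCommMonoid β] (g : ℕ → β),
      ∑ n ∈ Icc 1 Y, (if c + n - 1 ∈ s then g (c + n - 1) else 0) = ∑ m ∈ s, g m := by
    intro β _ g
    rw [← sum_filter]
    refine sum_nbij' (fun n => c + n - 1) (fun m => m + 1 - c) ?_ ?_ ?_ ?_ ?_
    · intro x hx; exact (mem_filter.1 hx).2
    · intro x hx
      have := hY x hx
      simp only [mem_filter, mem_Icc]
      exact ⟨by omega, by rwa [show c + (x + 1 - c) - 1 = x by omega]⟩
    · intro x hx; simp only [mem_filter, mem_Icc] at hx; omega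
    · intro x hx; have := hY x hx; omega
    · intro x _; rfl
  have := add_ls S α hQ (fun r hr s hs' h k => (hs r hr s hs' h).trans (nd_le _ k)) Y
    fun n => if c + n - 1 ∈ s then u (c + n - 1) else 0
  rw [← sh fun m => ‖u m‖ ^ 2]
  refine le_of_eq_of_le (sum_congr rfl fun r _ => ?_) (this.trans (le_of_eq ?_))
  · rw [← sh fun m => u m * ee (m * α r)]
    congr 1
    symm
    rw [← one_mul ‖_‖, ← norm_ee ((c - 1) * α r), ← norm_mul, mul_sum]
    congr 1
    refine sum_congr rfl fun n hn => ?_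
    have := (mem_Icc.1 hn).1
    split_ifs
    · rw [mul_left_comm, ← ee_add, Nat.cast_sub (by omega)]
      congr 2; push_cast; ring
    · simp
  · congr 1
    refine sum_congr rfl fun n _ => ?_
    split_ifs <;> simp

end Pool.Agent.Lib.MP_488d93_nt
end

-- part Pool.Agent.Lib.MP_488d93_nt.NuF
section

/-! Exponential sums of sieve weights. -/

set_option autoImplicit false

namespace Pool.Agent.Lib.MP_488d93_nt

open Finset Real

/-- The sieve majorant. -/
noncomputable def nu (lam : Finset ℕ → ℝ) (P : Finset ℕ) (m : ℕ) : ℝ := ML lam P (dv m)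

/-- Real sequences as complex sequences. -/
def cx (u : ℕ → ℝ) (m : ℕ) : ℂ := u m

/-- Major arcs. -/
def Maj (T : ℕ) (X θ : ℝ) : Prop := ∃ q : ℕ, 1 ≤ q ∧ q ≤ T ∧ nd (q * θ) ≤ T / X

theorem nd_int_div {n : ℤ} {D : ℕ} (hD : 0 < D) (h : ¬ (D : ℤ) ∣ n) : 1 / (D : ℝ) ≤ nd (n / D) := by
  have D0 : (0 : ℝ) < D := by exact_mod_cast hD
  set k := round ((n : ℝ) / D)
  have e : (n : ℝ) / D - k = ((n - D * k : ℤ) : ℝ) / D := by push_cast; field_simp
  rw [nd, e, abs_div, abs_of_pos D0]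
  refine div_le_div_of_nonneg_right ?_ D0.le
  have : n - D * k ≠ 0 := fun h0 => h ⟨k, by omega⟩
  exact_mod_cast Int.one_le_abs this

theorem den_eq_one {x : ℚ} {Q : ℝ} (h1 : (x.den : ℝ) ≤ Q) (h2 : nd x < 1 / Q) : x.den = 1 := by
  by_contra h
  have h3 : ¬ (x.den : ℤ) ∣ x.num := fun h4 => h (by
    have := Nat.Coprime.eq_one_of_dvd x.reduced.symm (Int.natCast_dvd.1 h4)
    exact this)
  have h4 := nd_int_div x.pos h3
  rw [← Rat.cast_def] at h4
  have := one_div_le_one_div_of_le (by exact_mod_cast x.pos) h1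
  linarith

theorem eq_of_den_sub {x y : ℚ} (hx : 0 ≤ x ∧ x < 1) (hy : 0 ≤ y ∧ y < 1) (h : (x - y).den = 1) :
    x = y := by
  have h1 := (Rat.den_eq_one_iff _).1 h
  have h2 : (-1 : ℚ) < (x - y).num := by rw [h1]; linarith
  have h3 : ((x - y).num : ℚ) < 1 := by rw [h1]; linarith
  have h4 : (x - y).num = 0 := by
    have : (-1 : ℤ) < (x - y).num := by exact_mod_cast h2
    have : (x - y).num < 1 := by exact_mod_cast h3
    omega
  rw [h4] at h1
  simp only [Int.cast_zero] at h1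
  linarith

theorem den_eq_of_add {x y : ℚ} (h : (x + y).den = 1) : x.den = y.den := by
  have h1 := (Rat.den_eq_one_iff _).1 h
  have : x = (x + y).num - y := by rw [h1]; ring
  rw [this, Rat.intCast_sub_den]

/-- Fractions. -/
def fr (b d : ℕ) : ℚ := b / d

theorem frac_mem {b d : ℕ} (h : b < d) : 0 ≤ fr b d ∧ fr b d < 1 :=
  ⟨by unfold fr; positivity,
    (div_lt_one (by exact_mod_cast (Nat.zero_le b).trans_lt h)).2 (by exact_mod_cast h)⟩

theorem den_frac_dvd (b d : ℕ) : (fr b d).den ∣ d := by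
  have := Rat.den_dvd b d
  rw [Rat.divInt_eq_div, Int.natCast_dvd_natCast] at this
  simpa [fr] using this

theorem sum_frac_eq {x : ℚ} (hx : 0 ≤ x ∧ x < 1) {d : ℕ} (hd : 0 < d) (w : ℂ) :
    ∑ b ∈ range d with fr b d = x, w = if x.den ∣ d then w else 0 := by
  have d0 : (d : ℚ) ≠ 0 := by positivity
  split_ifs with h
  · obtain ⟨k, hk⟩ := h
    have h1 : ((x.num.toNat * k : ℕ) : ℚ) = x * d := by
      rw [hk]
      push_cast
      rw [← mul_assoc, Rat.mul_den_eq_num]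
      congr 1
      exact_mod_cast Int.toNat_of_nonneg (Rat.num_nonneg.2 hx.1)
    have : (range d).filter (fun b : ℕ => fr b d = x) = {x.num.toNat * k} := by
      ext b
      simp only [fr, mem_filter, mem_range, mem_singleton, div_eq_iff d0, ← h1, Nat.cast_inj]
      refine ⟨fun h => h.2, fun h => ⟨?_, h⟩⟩
      rw [h, ← Nat.cast_lt (α := ℚ), h1]
      exact mul_lt_of_lt_one_left (by positivity) hx.2
    rw [this, sum_singleton]
  · exact sum_eq_zero fun b hb => absurd ((mem_filter.1 hb).2 ▸ den_frac_dvd b d) h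

theorem prod_dv {S : Finset ℕ} (hS : ∀ p ∈ S, p.Prime) (m : ℕ) :
    ((∏ p ∈ S, dv m p : ℝ) : ℂ) = (1 / (∏ p ∈ S, p : ℕ) : ℝ) *
      ∑ b ∈ range (∏ p ∈ S, p), ee (m * (b / (∏ p ∈ S, p : ℕ))) := by
  have d0 : ((∏ p ∈ S, p : ℕ) : ℂ) ≠ 0 := by
    exact_mod_cast prod_ne_zero_iff.2 fun p hp => (hS p hp).ne_zero
  have := orth (M := ∏ p ∈ S, p) (m : ℤ)
  simp only [Int.cast_natCast, Int.natCast_dvd_natCast] at this
  rw [this]
  unfold dv
  rw [prod_ite_zero, prod_const_one]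
  simp only [prod_dvd_iff hS]
  generalize ∏ p ∈ S, p = d at d0
  split_ifs
  · push_cast; field_simp
  · simp

open Classical in
theorem nu_ft {ε : ℝ} {κ z : ℕ} {P : Finset ℕ} {lam : Finset ℕ → ℝ} (h : IsBH ε κ z P lam)
    (hP : ∀ p ∈ P, p.Prime) (hz : 1 ≤ z) (θ : ℝ) (a b : ℕ) :
    ‖ft (Ico a b) (cx (nu lam P)) θ‖ ≤ (z ^ κ : ℕ) ^ 3 ∨ ∃ (x : ℚ) (T : Finset ℕ), T ⊆ P ∧
      x.den = ∏ p ∈ T, p ∧ x.den ≤ z ^ κ ∧ nd (θ + x) < 1 / (2 * (z ^ κ : ℕ) ^ 2) ∧
      ‖ft (Ico a b) (cx (nu lam P)) θ‖ ≤ (z ^ κ : ℕ) ^ 3 + 2 * (∏ p ∈ P, (1 - (1 : ℝ) / p)) *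
        (exp 88 ^ T.card / x.den) * ‖∑ m ∈ Ico a b, ee (m * (θ + x))‖ := by
  set R := z ^ κ with hR
  have R0 : (0 : ℝ) < R := by positivity
  let D : ℝ → ℂ := fun t => ∑ m ∈ Ico a b, ee (m * t)
  let d : Finset ℕ → ℕ := fun S => ∏ p ∈ S, p
  let U := P.powerset.filter (lam · ≠ 0)
  have hU : ∀ S ∈ U, S ⊆ P ∧ 0 < d S ∧ d S ≤ R := fun S hS => by
    obtain ⟨h1, h2⟩ := mem_filter.1 hS
    have h3 := mem_powerset.1 h1
    exact ⟨h3, prod_pos fun p hp => (hP p (h3 hp)).pos, h.lev S h3 h2⟩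
  let nr : Finset ℕ → ℕ → Prop := fun S β => nd (θ + fr β (d S)) < 1 / (2 * R ^ 2)
  let w : Finset ℕ → ℝ := fun S => lam S * (1 / d S)
  have e1 : ft (Ico a b) (cx (nu lam P)) θ =
      ∑ S ∈ U, w S * ∑ β ∈ range (d S) with nr S β, D (θ + fr β (d S)) +
      ∑ S ∈ U, w S * ∑ β ∈ range (d S) with ¬ nr S β, D (θ + fr β (d S)) := by
    rw [← sum_add_distrib]
    simp only [← mul_add, sum_filter_add_sum_filter_not]
    unfold ft cx nu ML
    rw [sum_filter_of_ne (p := (lam · ≠ 0)) fun S _ h0 e => h0 (by simp [w, e])]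
    simp only [Complex.ofReal_sum, sum_mul]
    rw [sum_comm]
    refine sum_congr rfl fun S hS => ?_
    simp only [D, w]
    rw [sum_comm, mul_sum]
    refine sum_congr rfl fun m _ => ?_
    rw [Complex.ofReal_mul, Complex.ofReal_mul, prod_dv fun p hp => hP p (mem_powerset.1 hS hp),
      mul_assoc, mul_assoc, mul_assoc, sum_mul]
    congr 2
    refine sum_congr rfl fun β _ => ?_
    rw [← ee_add]
    congr 1
    simp only [d, fr]
    push_cast; ring
  have far : ‖∑ S ∈ U, w S * ∑ β ∈ range (d S) with ¬ nr S β, D (θ + fr β (d S))‖ ≤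
      R ^ 3 := by
    refine (norm_sum_le _ _).trans ((sum_le_card_nsmul _ _ (R ^ 2 : ℝ) fun S hS => ?_).trans ?_)
    · have d0 : (0 : ℝ) < d S := by exact_mod_cast (hU S hS).2.1
      have h1 : ‖∑ β ∈ range (d S) with ¬ nr S β, D (θ + fr β (d S))‖ ≤ d S * R ^ 2 := by
        refine (norm_sum_le _ _).trans ((sum_le_card_nsmul _ _ (R ^ 2 : ℝ) fun β hβ => ?_).trans ?_)
        · have h2 := not_lt.1 (mem_filter.1 hβ).2
          have h3 := geom_le a b (θ + fr β (d S))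
          rw [div_le_iff₀ (by positivity)] at h2
          have h4 := norm_nonneg (D (θ + fr β (d S)))
          simp only [D] at h4 ⊢
          nlinarith [mul_le_mul_of_nonneg_left h2 h4, sq_nonneg (R : ℝ)]
        · rw [nsmul_eq_mul]
          refine mul_le_mul_of_nonneg_right ?_ (by positivity)
          exact_mod_cast (card_filter_le _ _).trans (card_range _).le
      rw [norm_mul, Complex.norm_real, Real.norm_eq_abs, abs_mul, abs_of_pos (one_div_pos.2 d0)]
      calc _ ≤ 1 * (1 / d S) * (d S * (R : ℝ) ^ 2) := by gcongr; exact h.abs_le S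
        _ = _ := by field_simp
    · have : (U.card : ℝ) ≤ R := by exact_mod_cast card_level hP h.lev
      rw [nsmul_eq_mul, pow_succ' _ 2]
      exact mul_le_mul_of_nonneg_right this (by positivity)
  by_cases hn : ∃ S ∈ U, ∃ β ∈ range (d S), nr S β
  swap
  · left
    rw [e1, sum_eq_zero fun S hS => by
      rw [sum_eq_zero fun β hβ => absurd ⟨S, hS, β, (mem_filter.1 hβ).1, (mem_filter.1 hβ).2⟩ hn,
        mul_zero], zero_add]
    exact far
  right
  obtain ⟨S0, hS0, β0, hβ0, h0⟩ := hn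
  set x : ℚ := fr β0 (d S0) with hx
  have x01 := frac_mem (mem_range.1 hβ0)
  have xd : x.den ∣ d S0 := den_frac_dvd _ _
  have xR : x.den ≤ R := (Nat.le_of_dvd (hU S0 hS0).2.1 xd).trans (hU S0 hS0).2.2
  have pf : ∀ S ⊆ P, (d S).primeFactors = S := fun S hS =>
    Nat.primeFactors_prod fun p hp => hP p (hS hp)
  have hsq : Squarefree x.den := Squarefree.squarefree_of_dvd xd
    (Finset.squarefree_prod_of_pairwise_isCoprime (fun p hp q hq hpq => Nat.coprime_iff_isRelPrime.1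
      ((Nat.coprime_primes (hP p ((hU S0 hS0).1 hp)) (hP q ((hU S0 hS0).1 hq))).2 hpq))
      fun p hp => (hP p ((hU S0 hS0).1 hp)).squarefree)
  have xT : x.den = ∏ p ∈ x.den.primeFactors, p := (Nat.prod_primeFactors_of_squarefree hsq).symm
  have TP : x.den.primeFactors ⊆ P := by
    refine Subset.trans ?_ (hU S0 hS0).1
    rw [← pf S0 (hU S0 hS0).1]
    exact Nat.primeFactors_mono xd (hU S0 hS0).2.1.ne'
  refine ⟨x, x.den.primeFactors, TP, xT, xR, h0, ?_⟩
  have e2 : ∑ S ∈ U, w S * ∑ β ∈ range (d S) with nr S β, D (θ + fr β (d S)) =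
      (∑ S ∈ P.powerset with x.den.primeFactors ⊆ S, lam S * ∏ p ∈ S, (1 : ℝ) / p : ℝ) *
        D (θ + x) := by
    rw [Complex.ofReal_sum, sum_mul, sum_filter (p := (x.den.primeFactors ⊆ ·)),
      ← sum_filter_of_ne (s := P.powerset) (p := (lam · ≠ 0)) fun S _ h0 e => h0 (by simp [e])]
    refine sum_congr rfl fun S hS => ?_
    obtain ⟨h1, h2, h3⟩ := hU S hS
    have e3 : ∑ β ∈ range (d S) with nr S β, D (θ + fr β (d S)) =
        ∑ β ∈ range (d S) with fr β (d S) = x, D (θ + x) := by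
      have e4 : (range (d S)).filter (nr S) =
          (range (d S)).filter fun β : ℕ => fr β (d S) = x := by
        refine filter_congr fun β hβ => ⟨fun h4 => ?_, fun h4 => by simpa only [nr, h4] using h0⟩
        refine eq_of_den_sub (frac_mem (mem_range.1 hβ)) x01 (den_eq_one (Q := R ^ 2) ?_ ?_)
        · have := Nat.le_of_dvd (Nat.mul_pos (Rat.pos _) (Rat.pos _))
            (Rat.sub_den_dvd (fr β (d S)) x)
          have h5 := (Nat.le_of_dvd h2 (den_frac_dvd β _)).trans h3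
          exact_mod_cast this.trans ((Nat.mul_le_mul h5 xR).trans (sq R).ge)
        · have h5 := nd_add_le (θ + fr β (d S)) (-(θ + x))
          rw [nd_neg] at h5
          have e5 : ((fr β (d S) - x : ℚ) : ℝ) = θ + fr β (d S) + -(θ + x) := by
            rw [Rat.cast_sub]; ring
          have e6 : 1 / (R : ℝ) ^ 2 = 1 / (2 * R ^ 2) + 1 / (2 * R ^ 2) := by field_simp; ring
          rw [e5, e6]
          exact h5.trans_lt (add_lt_add h4 h0)
      rw [e4]
      exact sum_congr rfl fun β hβ => by rw [(mem_filter.1 hβ).2]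
    have e7 : x.den ∣ d S ↔ x.den.primeFactors ⊆ S := by
      refine ⟨fun h4 => pf S h1 ▸ Nat.primeFactors_mono h4 h2.ne', fun h4 => ?_⟩
      rw [xT]
      exact prod_dvd_prod_of_subset _ _ _ h4
    rw [e3, sum_frac_eq (x := x) x01 h2, if_congr e7 rfl rfl]
    simp only [w, d, prod_div_distrib, prod_const_one, Nat.cast_prod]
    split_ifs <;> simp
  rw [e1, add_comm]
  refine (norm_add_le _ _).trans (add_le_add far ?_)
  rw [e2, norm_mul, Complex.norm_real, Real.norm_eq_abs]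
  refine mul_le_mul_of_nonneg_right ((h.coef _ TP).trans (le_of_eq ?_)) (norm_nonneg _)
  rw [prod_div_distrib, prod_const_one, ← Nat.cast_prod, ← xT, mul_one_div]

theorem norm_geom_le (a b : ℕ) (t : ℝ) : ‖∑ m ∈ Ico a b, ee (m * t)‖ ≤ (b - a : ℕ) :=
  (norm_sum_ee_le _ _).trans (by simp)

theorem nu_minor : ∃ D : ℝ, 1 ≤ D ∧ ∀ {ε : ℝ} {κ z : ℕ} {P : Finset ℕ} {lam : Finset ℕ → ℝ},
    IsBH ε κ z P lam → (∀ p ∈ P, p.Prime) → 1 ≤ z → ∀ (θ X : ℝ) (a b s : ℕ), 1 ≤ s → 0 < X →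
    (b - a : ℕ) ≤ X → ¬ Maj (s ^ 2) X θ → ‖ft (Ico a b) (cx (nu lam P)) θ‖ ≤
      (z ^ κ : ℕ) ^ 3 + D * (∏ p ∈ P, (1 - (1 : ℝ) / p)) * X / s := by
  obtain ⟨D, D1, hD⟩ := pow_card_le (C := exp 88) (ε := 1 / 2) (one_le_exp (by norm_num)) (by norm_num)
  refine ⟨2 * D, by linarith, fun {ε κ z P lam} h hP hz θ X a b s hs X0 hX hM => ?_⟩
  have V0 : 0 ≤ ∏ p ∈ P, (1 - (1 : ℝ) / p) := prod_nonneg fun p hp => (one_sub_inv_pos (hP p hp)).le
  have s0 : (0 : ℝ) < s := by exact_mod_cast hs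
  rcases nu_ft h hP hz θ a b with h1 | ⟨x, T, h1, h2, -, -, h3⟩
  · exact h1.trans (le_add_of_nonneg_right (by positivity))
  refine h3.trans (add_le_add le_rfl ?_)
  have h4 := hD T fun p hp => (hP p (h1 hp)).pos
  rw [← h2, ← sqrt_eq_rpow] at h4
  have r0 : (0 : ℝ) < x.den := by exact_mod_cast x.pos
  have r1 := mul_self_sqrt r0.le
  have r2 := sqrt_pos.2 r0
  have key : √x.den / x.den * ‖∑ m ∈ Ico a b, ee (m * (θ + x))‖ ≤ X / s := by
    have n0 := norm_nonneg (∑ m ∈ Ico a b, ee (m * (θ + x)))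
    rcases le_or_gt x.den (s ^ 2) with h5 | h5
    · have h6 : (s ^ 2 : ℕ) / X < nd (x.den * θ) := not_le.1 fun h6 => hM ⟨_, x.pos, h5, h6⟩
      have h7 := nd_nat_mul x.den (θ + x)
      have e : (x.den : ℝ) * (θ + x) = x.den * θ + x.num := by
        rw [mul_add, Rat.cast_def]; field_simp
      rw [e, nd_add_int] at h7
      have h8 := geom_le a b (θ + x)
      have h9 : √x.den ≤ s := sqrt_le_iff.2 ⟨s0.le, by exact_mod_cast h5⟩
      rw [div_lt_iff₀ X0] at h6
      push_cast at h6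
      have h10 : ‖∑ m ∈ Ico a b, ee (m * (θ + x))‖ * s ^ 2 ≤ x.den * X := by
        have := mul_le_mul_of_nonneg_right h7 X0.le
        nlinarith [mul_le_mul_of_nonneg_left (h6.le.trans this) n0,
          mul_le_mul_of_nonneg_left h8 (mul_pos r0 X0).le, mul_pos r0 X0]
      rw [div_mul_eq_mul_div, div_le_div_iff₀ r0 s0]
      nlinarith [mul_le_mul_of_nonneg_right h9 (mul_nonneg n0 s0.le)]
    · have h9 : (s : ℝ) ≤ √x.den := le_sqrt_of_sq_le (by exact_mod_cast h5.le)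
      have h6 := (norm_geom_le a b (θ + x)).trans hX
      rw [div_mul_eq_mul_div, div_le_div_iff₀ r0 s0]
      nlinarith [mul_le_mul h6 h9 s0.le X0.le]
  calc _ ≤ 2 * (∏ p ∈ P, (1 - (1 : ℝ) / p)) * (D * √x.den / x.den) *
        ‖∑ m ∈ Ico a b, ee (m * (θ + x))‖ := by gcongr
    _ = 2 * D * (∏ p ∈ P, (1 - (1 : ℝ) / p)) *
        (√x.den / x.den * ‖∑ m ∈ Ico a b, ee (m * (θ + x))‖) := by ring
    _ ≤ _ := by rw [mul_div_assoc _ X]; gcongr

end Pool.Agent.Lib.MP_488d93_nt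
end

-- part Pool.Agent.Lib.MP_488d93_nt.Loc
section

/-! Mean square bounds at fractions with small denominators. -/

set_option autoImplicit false

namespace Pool.Agent.Lib.MP_488d93_nt

open Finset Real

/-- Indicator of the numbers free of the primes in `P`. -/
noncomputable def rho (P : Finset ℕ) (m : ℕ) : ℝ := ∏ p ∈ P, (1 - dv m p)

theorem rho_eq (P : Finset ℕ) (m : ℕ) : rho P m = if ∀ p ∈ P, ¬ p ∣ m then 1 else 0 := by
  unfold rho dv
  split_ifs with h
  · exact prod_eq_one fun p hp => by simp [h p hp]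
  · push Not at h
    obtain ⟨p, h1, h2⟩ := h
    exact prod_eq_zero h1 (by simp [h2])

theorem rho_nonneg (P : Finset ℕ) (m : ℕ) : 0 ≤ rho P m := by
  rw [rho_eq]; split_ifs <;> norm_num

variable {ε : ℝ} {κ z : ℕ} {P : Finset ℕ} {lam : Finset ℕ → ℝ}

theorem IsBH.rho_le (h : IsBH ε κ z P lam) (m : ℕ) : rho P m ≤ nu lam P m :=
  h.low _ fun p _ => dv_mem m p

theorem IsBH.nu_nonneg (h : IsBH ε κ z P lam) (m : ℕ) : 0 ≤ nu lam P m :=
  (rho_nonneg P m).trans (h.rho_le m)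

theorem IsBH.sum_nu (h : IsBH ε κ z P lam) (hP : ∀ p ∈ P, p.Prime) {a b : ℕ} (hab : a ≤ b) :
    ∑ m ∈ Ico a b, nu lam P m ≤
      2 * (∏ p ∈ P, (1 - (1 : ℝ) / p)) * (b - a : ℕ) + 4 * (z ^ κ : ℕ) ^ 2 := by
  have h3 := ML_mean hP h.abs_le h.lev (fun p n => dv n p) dv_mod
    (fun p n => _root_.abs_le.2 ⟨by linarith [(dv_mem n p).1], (dv_mem n p).2⟩) hab
  have h4 : ML lam P (fun p => (∑ n ∈ range p, dv n p) / p) = ML lam P fun p => 1 / p :=
    sum_congr rfl fun S hS => by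
      rw [prod_congr rfl fun p hp => dv_mean (hP p (mem_powerset.1 hS hp)).pos]
  have h5 := h.up (fun p => 1 / p) fun p hp => by
    have : (2 : ℝ) ≤ p := by exact_mod_cast (hP p hp).two_le
    refine ⟨by positivity, ?_, div_le_div_of_nonneg_right one_le_two (by positivity)⟩
    rw [div_le_iff₀ (by linarith)]; linarith
  rw [h4] at h3
  have ba : (0 : ℝ) ≤ b - a := sub_nonneg.2 (by exact_mod_cast hab)
  have := mul_le_mul_of_nonneg_left h5 ba
  rw [Nat.cast_sub hab]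
  have h6 := (_root_.abs_le.1 h3).2
  unfold nu
  linarith

/-- Fractions in the unit interval with denominator at most `T`. -/
def Far (T : ℕ) : Finset ℚ := (Icc 1 T).biUnion fun q => (range q).image (fr · q)

theorem mem_Far {T : ℕ} {x : ℚ} (h : x ∈ Far T) : (0 ≤ x ∧ x < 1) ∧ x.den ≤ T := by
  obtain ⟨q, h1, h2⟩ := mem_biUnion.1 h
  obtain ⟨b, h3, rfl⟩ := mem_image.1 h2
  exact ⟨frac_mem (mem_range.1 h3),
    (Nat.le_of_dvd (mem_Icc.1 h1).1 (den_frac_dvd _ _)).trans (mem_Icc.1 h1).2⟩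

theorem card_Far (T : ℕ) : ((Far T).card : ℝ) ≤ T ^ 2 := by
  have : (Far T).card ≤ T ^ 2 := (card_biUnion_le_card_mul _ _ T fun q hq =>
    card_image_le.trans (by simpa using (mem_Icc.1 hq).2)).trans (by simp [sq])
  exact_mod_cast this

theorem Maj.exists_far {T : ℕ} {X θ : ℝ} (h : Maj T X θ) : ∃ x ∈ Far T, nd (θ - x) ≤ T / X := by
  obtain ⟨q, h1, h2, h3⟩ := h
  set k := round (q * θ)
  have q0 : (0 : ℤ) < q := by exact_mod_cast h1
  have q1 : (1 : ℝ) ≤ q := by exact_mod_cast h1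
  have h4 := Int.emod_nonneg k q0.ne'
  have h5 := Int.emod_lt_of_pos k q0
  refine ⟨fr (k % q).toNat q, mem_biUnion.2 ⟨q, mem_Icc.2 ⟨h1, h2⟩,
    mem_image_of_mem _ (mem_range.2 (by omega))⟩, (nd_le _ (k / q)).trans (le_trans ?_ h3)⟩
  have e : (((k % q).toNat : ℕ) : ℝ) = k - q * (k / q : ℤ) := by
    have : (((k % q).toNat : ℕ) : ℤ) = k - q * (k / q) := by
      rw [Int.toNat_of_nonneg h4, Int.emod_def]
    exact_mod_cast this
  have e2 : θ - (fr (k % q).toNat q : ℚ) - (k / q : ℤ) = (q * θ - k) / q := by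
    rw [fr, Rat.cast_div, Rat.cast_natCast, Rat.cast_natCast, e]; field_simp; ring
  rw [e2, abs_div, abs_of_pos (by linarith : (0 : ℝ) < q)]
  exact div_le_self (abs_nonneg _) q1

theorem sum_Far_den (T : ℕ) (g : ℕ → ℝ) (hg : ∀ r, 0 ≤ g r) :
    ∑ x ∈ Far T, g x.den ≤ ∑ r ∈ Icc 1 T, r * g r := by
  rw [← sum_fiberwise_of_maps_to (g := Rat.den) (t := Icc 1 T)
    fun x hx => mem_Icc.2 ⟨x.pos, (mem_Far hx).2⟩]
  refine sum_le_sum fun r _ => ?_
  rw [sum_congr rfl fun x hx => by rw [(mem_filter.1 hx).2], sum_const, nsmul_eq_mul]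
  refine mul_le_mul_of_nonneg_right ?_ (hg r)
  have : ((Far T).filter (·.den = r)).card ≤ (range r).card := by
    refine card_le_card_of_injOn (fun x => x.num.toNat) (fun x hx => ?_) fun x hx y hy e => ?_
    · obtain ⟨h1, rfl⟩ := mem_filter.1 hx
      have h2 := Rat.num_nonneg.2 (mem_Far h1).1.1
      have h3 := Rat.num_lt_denom_iff.2 (mem_Far h1).1.2
      simp only [coe_range, Set.mem_Iio]
      omega
    · obtain ⟨h1, h2⟩ := mem_filter.1 hx
      obtain ⟨h3, h4⟩ := mem_filter.1 hy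
      have h5 := Rat.num_nonneg.2 (mem_Far h1).1.1
      have h6 := Rat.num_nonneg.2 (mem_Far h3).1.1
      exact Rat.ext (by simp only at e; omega) (h2.trans h4.symm)
  simpa using this

theorem half_sq_lt {R : ℝ} (h : 0 < R) : 1 / (2 * R ^ 2) < 1 / R ^ 2 :=
  one_div_lt_one_div_of_lt (by positivity) (by nlinarith [sq_pos_of_pos h])

theorem nu_loc (h : IsBH ε κ z P lam) (hP : ∀ p ∈ P, p.Prime) (hz : 1 ≤ z) {T : ℕ}
    (hT : T ≤ z ^ κ) (a b : ℕ) :
    ∑ x ∈ Far T, ‖ft (Ico a b) (cx (nu lam P)) x‖ ^ 2 ≤ 2 * T ^ 2 * (z ^ κ : ℕ) ^ 6 +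
      8 * (∏ p ∈ P, (1 - (1 : ℝ) / p)) ^ 2 * (b - a : ℕ) ^ 2 *
        ∏ p ∈ Nat.primesLE T, (1 + exp 176 / p) := by
  set R := z ^ κ with hR
  set V := ∏ p ∈ P, (1 - (1 : ℝ) / p)
  have R0 : (0 : ℝ) < R := by positivity
  have V0 : 0 ≤ V := prod_nonneg fun p hp => (one_sub_inv_pos (hP p hp)).le
  let g : ℕ → ℝ := fun r => if Squarefree r then exp 88 ^ r.primeFactors.card / r else 0
  have g0 : ∀ r, 0 ≤ g r := fun r => by simp only [g]; split_ifs <;> positivity
  have h1 : ∀ x ∈ Far T, ‖ft (Ico a b) (cx (nu lam P)) x‖ ≤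
      R ^ 3 + 2 * V * (b - a : ℕ) * g x.den := fun x hx => by
    rcases nu_ft h hP hz x a b with h1 | ⟨y, S, h1, h2, h3, h4, h5⟩
    · exact h1.trans (le_add_of_nonneg_right (by have := g0 x.den; positivity))
    have h6 : x.den = y.den := den_eq_of_add (den_eq_one (Q := R ^ 2) (by
      have := Nat.le_of_dvd (Nat.mul_pos (Rat.pos _) (Rat.pos _)) (Rat.add_den_dvd x y)
      exact_mod_cast this.trans ((Nat.mul_le_mul ((mem_Far hx).2.trans hT) h3).trans (sq R).ge))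
      (by rw [Rat.cast_add]; exact h4.trans (half_sq_lt R0)))
    have h7 : ∀ p ∈ S, p.Prime := fun p hp => hP p (h1 hp)
    have h8 : g x.den = exp 88 ^ S.card / y.den := by
      simp only [g]
      rw [h6, if_pos, h2, Nat.primeFactors_prod h7]
      rw [h2]
      exact Finset.squarefree_prod_of_pairwise_isCoprime (fun p hp q hq hpq =>
        Nat.coprime_iff_isRelPrime.1 ((Nat.coprime_primes (h7 p hp) (h7 q hq)).2 hpq))
        fun p hp => (h7 p hp).squarefree
    refine h5.trans (add_le_add le_rfl ?_)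
    rw [h8, mul_right_comm _ ((b - a : ℕ) : ℝ)]
    exact mul_le_mul_of_nonneg_left (norm_geom_le _ _ _) (by positivity)
  have h2 : ∑ x ∈ Far T, g x.den ^ 2 ≤ ∏ p ∈ Nat.primesLE T, (1 + exp 176 / p) := by
    refine (sum_Far_den T (g · ^ 2) fun _ => sq_nonneg _).trans ?_
    rw [prod_one_add, ← sum_filter_of_ne (p := Squarefree) fun r _ h0 => by
      by_contra h'
      exact h0 (by simp [g, h'])]
    refine sum_le_sum_inj Nat.primeFactors (fun r hr r' hr' e => ?_) (fun r hr => ?_)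
      (fun r hr => le_of_eq ?_) fun _ _ => by positivity
    · rw [← Nat.prod_primeFactors_of_squarefree (mem_filter.1 hr).2, e,
        Nat.prod_primeFactors_of_squarefree (mem_filter.1 hr').2]
    · have := mem_Icc.1 (mem_filter.1 hr).1
      exact mem_powerset.2 fun p hp => Nat.mem_primesLE.2
        ⟨(Nat.le_of_mem_primeFactors hp).trans this.2, Nat.prime_of_mem_primeFactors hp⟩
    · have h3 := (mem_filter.1 hr).2
      have r0 : (r : ℝ) ≠ 0 := by exact_mod_cast h3.ne_zero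
      have e : exp 176 = exp 88 ^ 2 := by rw [← exp_nat_mul]; norm_num
      simp only [g, if_pos h3]
      rw [prod_div_distrib, prod_const, ← Nat.cast_prod, Nat.prod_primeFactors_of_squarefree h3, e,
        ← pow_mul, mul_comm 2, pow_mul]
      field_simp
  calc _ ≤ ∑ x ∈ Far T, (2 * (R : ℝ) ^ 6 + 8 * V ^ 2 * (b - a : ℕ) ^ 2 * g x.den ^ 2) :=
        sum_le_sum fun x hx => (pow_le_pow_left₀ (norm_nonneg _) (h1 x hx) 2).trans (by
          nlinarith [sq_nonneg ((R : ℝ) ^ 3 - 2 * V * (b - a : ℕ) * g x.den)])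
    _ ≤ _ := by
        rw [sum_add_distrib, sum_const, nsmul_eq_mul, ← mul_sum]
        refine add_le_add ?_ (mul_le_mul_of_nonneg_left h2 (by positivity))
        nlinarith [card_Far T, pow_pos R0 6]

theorem rough_loc (h : IsBH ε κ z P lam) {T : ℕ} (hP : ∀ p ∈ P, p.Prime ∧ T < p) (hz : 1 ≤ z)
    (hT : T ^ 2 ≤ z ^ κ) (a b : ℕ) (u : ℕ → ℂ) (hu : ∀ m, u m ≠ 0 → ∀ p ∈ P, ¬ p ∣ m) :
    ∑ x ∈ Far T, ‖ft (Ico a b) u x‖ ^ 2 ≤
      (∑ m ∈ Ico a b, nu lam P m + T ^ 2 * (z ^ κ : ℕ) ^ 3) * ∑ m ∈ Ico a b, ‖u m‖ ^ 2 := by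
  set R := z ^ κ with hR
  have R0 : (0 : ℝ) < R := by positivity
  have s0 : 0 ≤ ∑ m ∈ Ico a b, nu lam P m := sum_nonneg fun m _ => h.nu_nonneg m
  refine bombieri (Far T) (Ico a b) (nu lam P) (fun (x : ℚ) m => ee (m * x)) u (by positivity)
    (fun m _ => h.nu_nonneg m) (fun m _ hm => ?_) fun x hx => ?_
  · have := h.rho_le m
    rwa [rho_eq, if_pos (hu m hm)] at this
  have e : ∀ y : ℚ, ∑ n ∈ Ico a b, (nu lam P n : ℂ) * (ee (n * x) * star (ee (n * y))) =
      ft (Ico a b) (cx (nu lam P)) (x - y : ℚ) := fun y => sum_congr rfl fun n _ => by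
    rw [star_ee, ← ee_add, cx]
    congr 2; push_cast; ring
  simp only [e]
  rw [← add_sum_erase _ _ hx]
  refine add_le_add ?_ ((sum_le_card_nsmul _ _ ((R : ℝ) ^ 3) fun y hy => ?_).trans ?_)
  · refine (norm_sum_le _ _).trans (sum_le_sum fun m _ => le_of_eq ?_)
    rw [norm_mul, norm_ee, mul_one, cx, Complex.norm_real, Real.norm_of_nonneg (h.nu_nonneg m)]
  · refine (nu_ft h (fun p hp => (hP p hp).1) hz _ a b).resolve_right ?_
    rintro ⟨w, S, h1, h2, h3, h4, -⟩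
    obtain ⟨h5, h6⟩ := mem_erase.1 hy
    have d1 := Rat.sub_den_dvd x y
    have d2 := Nat.le_of_dvd (Nat.mul_pos (Rat.pos _) (Rat.pos _)) d1
    have d3 : (x - y).den ≤ R :=
      d2.trans ((Nat.mul_le_mul (mem_Far hx).2 (mem_Far h6).2).trans ((sq T).ge.trans hT))
    have h7 : (x - y).den = w.den := den_eq_of_add (den_eq_one (Q := R ^ 2) (by
      have := Nat.le_of_dvd (Nat.mul_pos (Rat.pos _) (Rat.pos _)) (Rat.add_den_dvd (x - y) w)
      exact_mod_cast this.trans ((Nat.mul_le_mul d3 h3).trans (sq R).ge))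
      (by rw [Rat.cast_add]; exact h4.trans (half_sq_lt R0)))
    refine h5 (eq_of_den_sub (mem_Far hx).1 (mem_Far h6).1 ?_).symm
    rw [h7, h2]
    refine prod_eq_one fun p hp => ?_
    have h8 := hP p (h1 hp)
    have h9 : p ∣ x.den * y.den := ((dvd_prod_of_mem _ hp).trans (h7.trans h2).symm.dvd).trans d1
    rcases (Nat.Prime.dvd_mul h8.1).1 h9 with h10 | h10
    · have := (Nat.le_of_dvd x.pos h10).trans (mem_Far hx).2
      omega
    · have := (Nat.le_of_dvd y.pos h10).trans (mem_Far h6).2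
      omega
  · rw [nsmul_eq_mul]
    refine mul_le_mul_of_nonneg_right (le_trans ?_ (card_Far T)) (by positivity)
    exact_mod_cast card_erase_le

end Pool.Agent.Lib.MP_488d93_nt
end

-- part Pool.Agent.Lib.MP_488d93_nt.Twin
section

/-! The sieve bound for prime pairs. -/

set_option autoImplicit false

namespace Pool.Agent.Lib.MP_488d93_nt

open Finset Real Filter Topology

theorem ev_log_pow (k : ℕ) (C : ℝ) : ∀ᶠ z : ℕ in atTop, C * log z ^ k ≤ z := by
  have h := (isLittleO_pow_log_id_atTop (n := k)).const_mul_left C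
  have := tendsto_natCast_atTop_atTop.eventually (h.bound one_pos)
  filter_upwards [this] with z hz
  simp only [id, Real.norm_eq_abs, one_mul, Nat.abs_cast] at hz
  exact (le_abs_self _).trans hz

theorem root_facts {u : ℕ} (hu : 1 ≤ u) (k z0 : ℕ) (C : ℝ) (hC : 0 ≤ C) : ∀ᶠ N : ℕ in atTop,
    z0 ≤ Nat.nthRoot u N ∧ 2 ≤ Nat.nthRoot u N ∧ Nat.nthRoot u N ^ u ≤ N ∧
      log N ≤ 2 * u * log (Nat.nthRoot u N) ∧ C * log N ^ k ≤ Nat.nthRoot u N := by
  have u0 : u ≠ 0 := by omega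
  have ht : Tendsto (Nat.nthRoot u) atTop atTop := tendsto_atTop.2 fun b =>
    (eventually_ge_atTop (b ^ u)).mono fun N hN => (Nat.le_nthRoot_iff u0).2 hN
  filter_upwards [ht.eventually (ev_log_pow k (C * (2 * u) ^ k)), ht.eventually_ge_atTop z0,
    ht.eventually_ge_atTop 2, eventually_ge_atTop 1] with N h1 h2 h3 h4
  have h5 : log N ≤ 2 * u * log (Nat.nthRoot u N) := by
    have h6 : N ≤ Nat.nthRoot u N ^ (2 * u) := (Nat.lt_pow_nthRoot_add_one u0 N).le.trans (by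
      rw [pow_mul]; exact Nat.pow_le_pow_left (by nlinarith) u)
    have := log_le_log (by exact_mod_cast h4)
      (show (N : ℝ) ≤ (Nat.nthRoot u N : ℝ) ^ (2 * u) by exact_mod_cast h6)
    rw [log_pow] at this
    exact_mod_cast this
  refine ⟨h2, h3, Nat.pow_nthRoot_le (Or.inl u0), h5, le_trans ?_ h1⟩
  rw [mul_assoc, ← mul_pow]
  exact mul_le_mul_of_nonneg_left (pow_le_pow_left₀ (log_natCast_nonneg N) h5 k) hC

theorem sum_shift {p : ℕ} (f : ℕ → ℝ) (hf : ∀ n, f (n % p) = f n) (h : ℕ) :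
    ∑ n ∈ range p, f (n + h) = ∑ n ∈ range p, f n := by
  induction h with
  | zero => simp
  | succ h ih =>
    have h1 := sum_range_succ (fun n => f (n + h)) p
    have h2 := sum_range_succ' (fun n => f (n + h)) p
    have h3 : f (p + h) = f (0 + h) := by rw [← hf, ← hf (0 + h)]; simp
    simp only [add_assoc, add_comm 1 h] at h2
    linarith

theorem sum_dv {p : ℕ} (hp : 0 < p) (h : ℕ) : ∑ n ∈ range p, dv (n + h) p = 1 := by
  rw [sum_shift (dv · p) (dv_mod p)]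
  have := dv_mean hp
  rwa [div_left_inj' (by positivity)] at this

/-- The number of prime pairs. -/
def tw (X h : ℕ) : ℕ := ((range (X + 1)).filter fun n => n.Prime ∧ (n + h).Prime).card

theorem twin : ∃ C : ℝ, 1 ≤ C ∧ ∀ᶠ X : ℕ in atTop, ∀ h, 1 ≤ h →
    (tw X h : ℝ) ≤ C * sg h * X / log X ^ 2 := by
  obtain ⟨κ, κ1, hκ⟩ := exists_BH one_pos
  refine ⟨256 * (2 * κ + 1) ^ 2 + 6, le_add_of_nonneg_of_le (by positivity) (by norm_num), ?_⟩
  filter_upwards [root_facts (u := 2 * κ + 1) (by omega) 2 0 1 zero_le_one,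
    eventually_ge_atTop 2] with X ⟨_, z2, h2, h3, h4⟩ X2 h h1
  set z := Nat.nthRoot (2 * κ + 1) X
  let P := (Nat.primesLE z).erase 2
  have hP : ∀ p ∈ P, p.Prime ∧ p ≤ z ∧ 3 ≤ p := fun p hp => by
    obtain ⟨a, b⟩ := mem_erase.1 hp
    obtain ⟨c, d⟩ := Nat.mem_primesLE.1 b
    exact ⟨d, c, by have := d.two_le; omega⟩
  obtain ⟨lam, hl⟩ := hκ z P (by omega) fun p hp => ⟨(hP p hp).1, (hP p hp).2.1⟩
  have X1 : (2 : ℝ) ≤ X := by exact_mod_cast X2
  have z1 : (2 : ℝ) ≤ z := by exact_mod_cast z2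
  have L0 : 0 < log X := log_pos (by linarith)
  have l0 : 0 < log z := log_pos (by linarith)
  have a1 : (tw X h : ℝ) ≤ z + 1 + ∑ n ∈ Ico 0 (X + 1), ML lam P (dv (n * (n + h))) := by
    have b1 : ∀ n, 0 ≤ ML lam P (dv (n * (n + h))) := fun n => hl.nu_nonneg _
    calc (tw X h : ℝ) ≤ ∑ n ∈ range (X + 1), ((if n ∈ range (z + 1) then 1 else 0) +
          ML lam P (dv (n * (n + h)))) := by
          rw [tw, card_filter, Nat.cast_sum]
          refine sum_le_sum fun n _ => ?_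
          have := b1 n
          split_ifs with c1 c2 c2 <;> push_cast <;> try linarith
          have c3 := hl.rho_le (n * (n + h))
          rw [rho_eq, if_pos fun p hp c4 => ?_] at c3
          · exact c3.trans (le_add_of_nonneg_left le_rfl)
          · obtain ⟨d1, d2, -⟩ := hP p hp
            simp only [mem_range] at c2
            rcases (Nat.Prime.dvd_mul d1).1 c4 with c5 | c5
            · have := (Nat.prime_dvd_prime_iff_eq d1 c1.1).1 c5; omega
            · have := (Nat.prime_dvd_prime_iff_eq d1 c1.2).1 c5; omega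
      _ ≤ _ := by
          rw [sum_add_distrib, range_eq_Ico (X + 1), sum_ite_mem, sum_const, nsmul_eq_mul, mul_one]
          refine add_le_add ?_ le_rfl
          exact_mod_cast (card_le_card inter_subset_right).trans (card_range _).le
  have a2 := ML_mean (fun p hp => (hP p hp).1) hl.abs_le hl.lev (fun p n => dv (n * (n + h)) p)
    (fun p n => by
      rw [← dv_mod, ← dv_mod p (n * _)]; congr 1; simp [Nat.add_mod, Nat.mul_mod])
    (fun p n => abs_le.2 ⟨by linarith [(dv_mem (n * (n + h)) p).1], (dv_mem _ p).2⟩)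
    (Nat.zero_le (X + 1))
  set x : ℕ → ℝ := fun p => (∑ n ∈ range p, dv (n * (n + h)) p) / p with hx
  have a3 : ∀ p ∈ P, x p ≤ 2 / p ∧ 1 / p ≤ x p ∧ (¬ p ∣ h → 2 / p ≤ x p) := fun p hp => by
    have pp := (hP p hp).1
    have s1 := sum_dv pp.pos 0
    have s2 := sum_dv pp.pos h
    simp only [add_zero] at s1
    refine ⟨div_le_div_of_nonneg_right ?_ (Nat.cast_nonneg _),
      div_le_div_of_nonneg_right ?_ (Nat.cast_nonneg _),
      fun c => div_le_div_of_nonneg_right ?_ (Nat.cast_nonneg _)⟩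
    · rw [← one_add_one_eq_two, ← s1]
      nth_rewrite 2 [s1]
      rw [← s2, ← sum_add_distrib]
      refine sum_le_sum fun n _ => ?_
      simp only [dv, pp.dvd_mul]
      by_cases c1 : p ∣ n <;> by_cases c2 : p ∣ n + h <;> simp [c1, c2]
    · rw [← s1]
      refine sum_le_sum fun n _ => ?_
      simp only [dv, pp.dvd_mul]
      by_cases c1 : p ∣ n <;> by_cases c2 : p ∣ n + h <;> simp [c1, c2]
    · rw [← one_add_one_eq_two, ← s1]
      nth_rewrite 2 [s1]
      rw [← s2, ← sum_add_distrib]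
      refine sum_le_sum fun n _ => ?_
      simp only [dv, pp.dvd_mul]
      by_cases c1 : p ∣ n <;> by_cases c2 : p ∣ n + h <;> simp [c1, c2]
      exact absurd ((Nat.dvd_add_right c1).1 c2) c
  have a4 : ∀ p ∈ P, x p ≤ 2 / 3 := fun p hp => (a3 p hp).1.trans
    (div_le_div_of_nonneg_left zero_le_two three_pos (by exact_mod_cast (hP p hp).2.2))
  have a5 := hl.up x fun p hp =>
    ⟨le_trans (by positivity) (a3 p hp).2.1, a4 p hp, (a3 p hp).1⟩
  have a6 : ∏ p ∈ P, (1 - x p) ≤ (2 * VV z) ^ 2 * sg h := by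
    have b1 : ∏ p ∈ P, (1 - 1 / (p : ℝ)) = 2 * VV z := by
      rw [VV, ← mul_prod_erase _ _ (Nat.mem_primesLE.2 ⟨z2, Nat.prime_two⟩)]
      push_cast; ring
    have b2 : ∏ p ∈ P with p ∣ h, (p : ℝ) / (p - 1) ≤ sg h :=
      prod_le_prod_of_subset_of_one_le (fun p hp => Nat.mem_primeFactors.2
        ⟨(hP p (mem_filter.1 hp).1).1, (mem_filter.1 hp).2, by omega⟩)
        (fun p hp => zero_le_one.trans (one_le_ratio (hP p (mem_filter.1 hp).1).1))
        fun p hp _ => one_le_ratio (Nat.prime_of_mem_primeFactors hp)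
    refine le_trans ?_ (mul_le_mul_of_nonneg_left b2 (sq_nonneg _))
    rw [← b1, ← prod_pow, prod_filter, ← prod_mul_distrib]
    refine prod_le_prod (fun p hp => by linarith [a4 p hp]) fun p hp => ?_
    have p3 : (3 : ℝ) ≤ p := by exact_mod_cast (hP p hp).2.2
    split_ifs with c
    · have : (1 - 1 / (p : ℝ)) ^ 2 * (p / (p - 1)) = 1 - 1 / p := by
        have : (p : ℝ) - 1 ≠ 0 := by linarith
        field_simp
      linarith [(a3 p hp).2.1]
    · have := (a3 p hp).2.2 c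
      rw [div_eq_mul_one_div] at this
      nlinarith [sq_nonneg (1 / (p : ℝ))]
  have a7 : 2 * VV z ≤ 8 * (2 * κ + 1) / log X := by
    have := VV_le z
    have v0 := VV_pos z
    rw [le_div_iff₀ L0]
    push_cast at h3
    nlinarith [mul_le_mul_of_nonneg_left h3 v0.le, Nat.cast_nonneg (α := ℝ) κ]
  have a8 := pow_le_pow_left₀ (by have := VV_pos z; positivity) a7 2
  have s1 := one_le_sg h
  have a9 : (z : ℝ) + 1 + 4 * (z ^ κ : ℕ) ^ 2 ≤ 6 * sg h * X / log X ^ 2 := by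
    have b1 : (z : ℝ) ≤ (z ^ κ : ℕ) ^ 2 := by
      exact_mod_cast (Nat.le_self_pow (by omega) z).trans (Nat.le_self_pow two_ne_zero _)
    have b2 : ((z ^ κ : ℕ) : ℝ) ^ 2 * z ≤ X := by
      rw [pow_succ, mul_comm 2, pow_mul] at h2; exact_mod_cast h2
    rw [le_div_iff₀ (by positivity)]
    have b3 : ((z ^ κ : ℕ) : ℝ) ^ 2 * log X ^ 2 ≤ X :=
      (mul_le_mul_of_nonneg_left (by linarith) (sq_nonneg _)).trans b2
    nlinarith [mul_le_mul_of_nonneg_right (show (z : ℝ) + 1 + 4 * (z ^ κ : ℕ) ^ 2 ≤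
      6 * (z ^ κ : ℕ) ^ 2 by linarith) (sq_nonneg (log X))]
  have a10 : (X + 1 : ℝ) * ML lam P x ≤ 256 * (2 * κ + 1) ^ 2 * sg h * X / log X ^ 2 := by
    calc _ ≤ (X + 1 : ℝ) * (2 * ((8 * (2 * κ + 1) / log X) ^ 2 * sg h)) := by
          refine mul_le_mul_of_nonneg_left (a5.trans ?_) (by positivity)
          nlinarith [mul_le_mul_of_nonneg_right a8 (zero_le_one.trans s1)]
      _ ≤ (2 * X) * (2 * ((8 * (2 * κ + 1) / log X) ^ 2 * sg h)) := by gcongr; linarith
      _ = _ := by ring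
  have a11 := (abs_le.1 a2).2
  push_cast at a11 a9
  have e : (256 * (2 * κ + 1) ^ 2 + 6) * sg h * X / log X ^ 2 =
    256 * (2 * κ + 1) ^ 2 * sg h * X / log X ^ 2 + 6 * sg h * X / log X ^ 2 := by ring
  rw [e]
  rw [sub_zero] at a11
  linarith

end Pool.Agent.Lib.MP_488d93_nt
end

-- part Pool.Agent.Lib.MP_488d93_nt.Vino
section

/-! Few multiples of a minor arc point lie on a major arc. -/

set_option autoImplicit false

namespace Pool.Agent.Lib.MP_488d93_nt

open Finset Real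

theorem card_le_diam (s : Finset ℤ) {D : ℝ} (hD : 0 ≤ D) (h : ∀ a ∈ s, ∀ b ∈ s, (a : ℝ) - b ≤ D) :
    (s.card : ℝ) ≤ D + 1 := by
  rcases s.eq_empty_or_nonempty with rfl | hs
  · simp only [card_empty, Nat.cast_zero]; linarith
  have h1 : s ⊆ Icc (s.min' hs) (s.min' hs + ⌊D⌋) := fun a ha => mem_Icc.2 ⟨min'_le _ _ ha, by
    have := h a ha _ (min'_mem s hs)
    have : a - s.min' hs ≤ ⌊D⌋ := Int.le_floor.2 (by push_cast; exact this)
    omega⟩
  have h2 := card_le_card h1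
  have h3 : 0 ≤ ⌊D⌋ := Int.floor_nonneg.2 hD
  have h4 : (s.card : ℤ) ≤ ⌊D⌋ + 1 := by rw [Int.card_Icc] at h2; omega
  have h5 : (s.card : ℝ) ≤ ⌊D⌋ + 1 := by exact_mod_cast h4
  linarith [Int.floor_le D]

open Classical in
theorem count_lin (c : ℝ) {ψ δ : ℝ} (hψ : ψ ≠ 0) (hδ : 0 ≤ δ) (J : ℕ) :
    (((range J).filter fun j : ℕ => nd (c + j * ψ) ≤ δ).card : ℝ) ≤
      (J * |ψ| + 2) * (2 * δ / |ψ| + 1) := by
  set G := (range J).filter fun j : ℕ => nd (c + j * ψ) ≤ δ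
  have p0 := abs_pos.2 hψ
  let k : ℕ → ℤ := fun j => round (c + j * ψ)
  have h1 : ((G.image k).card : ℝ) ≤ J * |ψ| + 1 + 1 := by
    refine card_le_diam _ (by positivity) fun a ha b hb => ?_
    obtain ⟨i, hi, rfl⟩ := mem_image.1 ha
    obtain ⟨j, hj, rfl⟩ := mem_image.1 hb
    have i1 : (i : ℝ) ≤ J := by exact_mod_cast (mem_range.1 (mem_filter.1 hi).1).le
    have j1 : (j : ℝ) ≤ J := by exact_mod_cast (mem_range.1 (mem_filter.1 hj).1).le
    have a1 := abs_le.1 (abs_sub_round (c + i * ψ))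
    have a2 := abs_le.1 (abs_sub_round (c + j * ψ))
    have a3 : ((i : ℝ) - j) * ψ ≤ J * |ψ| := by
      refine (le_abs_self _).trans ?_
      rw [abs_mul]
      refine mul_le_mul_of_nonneg_right (abs_le.2 ⟨?_, ?_⟩) p0.le <;>
        linarith [Nat.cast_nonneg (α := ℝ) i, Nat.cast_nonneg (α := ℝ) j]
    simp only [k]
    linarith [a1.1, a2.2]
  rw [card_eq_sum_card_image k G, Nat.cast_sum]
  refine (sum_le_card_nsmul _ _ (2 * δ / |ψ| + 1) fun a _ => ?_).trans ?_
  · rw [← card_image_of_injective _ (Nat.cast_injective (R := ℤ))]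
    refine card_le_diam _ (by positivity) fun x hx y hy => ?_
    obtain ⟨i, hi, rfl⟩ := mem_image.1 hx
    obtain ⟨j, hj, rfl⟩ := mem_image.1 hy
    obtain ⟨i1, i2⟩ := mem_filter.1 hi
    obtain ⟨j1, j2⟩ := mem_filter.1 hj
    have a1 := abs_le.1 (mem_filter.1 i1).2
    have a2 := abs_le.1 (mem_filter.1 j1).2
    simp only [k] at i2 j2
    rw [i2] at a1
    rw [j2] at a2
    rw [le_div_iff₀ p0]
    push_cast
    refine (mul_le_mul_of_nonneg_right (le_abs_self _) p0.le).trans ?_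
    rw [← abs_mul, abs_le]
    constructor <;> linarith [a1.1, a1.2, a2.1, a2.2]
  · rw [nsmul_eq_mul]
    exact mul_le_mul_of_nonneg_right (by linarith) (by positivity)

open Classical in
theorem vino {φ δ η : ℝ} (hδ : 0 ≤ δ) (hη : 0 < η) {r0 : ℕ} (hr : 1 ≤ r0)
    (h : ∀ r : ℕ, 1 ≤ r → r ≤ r0 → η ≤ nd (r * φ)) (P : ℕ) :
    (((Icc 1 P).filter fun h : ℕ => nd (h * φ) ≤ δ).card : ℝ) ≤
      P / r0 + 1 + 4 * δ * (P + r0) + r0 * (4 * δ / η + 2) := by
  set G := (Icc 1 P).filter fun h : ℕ => nd (h * φ) ≤ δ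
  by_cases hc : ∃ a ∈ G, ∃ b ∈ G, a < b ∧ b ≤ a + r0
  swap
  · have h1 : G.card ≤ (range (P / r0 + 1)).card := by
      refine card_le_card_of_injOn (· / r0) (fun a ha => ?_) fun a ha b hb e => ?_
      · have := (mem_Icc.1 (mem_filter.1 ha).1).2
        simp only [coe_range, Set.mem_Iio]
        exact Nat.lt_succ_of_le (Nat.div_le_div_right this)
      · have a1 := Nat.div_add_mod a r0
        have a2 := Nat.div_add_mod b r0
        have a3 := Nat.mod_lt a hr
        have a4 := Nat.mod_lt b hr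
        simp only at e
        rw [e] at a1
        by_contra h2
        rcases lt_or_gt_of_ne h2 with h3 | h3
        · exact hc ⟨a, ha, b, hb, h3, by omega⟩
        · exact hc ⟨b, hb, a, ha, h3, by omega⟩
    have h2 : (G.card : ℝ) ≤ (P / r0 : ℕ) + 1 := by rw [card_range] at h1; exact_mod_cast h1
    have h3 : ((P / r0 : ℕ) : ℝ) ≤ P / r0 := Nat.cast_div_le
    have : 0 ≤ 4 * δ * (P + r0) + r0 * (4 * δ / η + 2) := by positivity
    linarith
  obtain ⟨a, ha, b, hb, h1, h2⟩ := hc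
  obtain ⟨r, rfl⟩ : ∃ r, b = a + r := ⟨b - a, by omega⟩
  have r1 : 1 ≤ r := by omega
  have r2 : (r : ℝ) ≤ r0 := by exact_mod_cast (by omega : r ≤ r0)
  set ψ := r * φ - round (r * φ) with hψ
  have p1 : η ≤ |ψ| := h r r1 (by omega)
  have p2 : |ψ| ≤ 2 * δ := by
    have := nd_add_le ((a + r : ℕ) * φ) (-(a * φ))
    rw [nd_neg, show ((a + r : ℕ) : ℝ) * φ + -(a * φ) = r * φ by push_cast; ring] at this
    linarith [(mem_filter.1 ha).2, (mem_filter.1 hb).2, show nd (r * φ) = |ψ| from rfl]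
  have p0 : 0 < |ψ| := hη.trans_le p1
  rw [card_eq_sum_card_fiberwise (f := (· % r)) (t := range r)
    fun x _ => mem_coe.2 (mem_range.2 (Nat.mod_lt x r1)), Nat.cast_sum]
  refine (sum_le_card_nsmul _ _ (4 * δ * (P / r + 1) + (4 * δ / η + 2)) fun c _ => ?_).trans ?_
  · have h3 := count_lin (c * φ) (abs_pos.1 p0) hδ (P / r + 1)
    refine le_trans (Nat.cast_le.2 (card_le_card_of_injOn (· / r) (fun x hx => ?_)
      fun x hx y hy e => ?_)) (h3.trans ?_)
    · obtain ⟨x1, x2⟩ := mem_filter.1 hx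
      obtain ⟨x3, x4⟩ := mem_filter.1 x1
      refine mem_coe.2 (mem_filter.2 ⟨mem_range.2 (Nat.lt_succ_of_le
        (Nat.div_le_div_right (mem_Icc.1 x3).2)), le_of_eq_of_le ?_ x4⟩)
      rw [← nd_add_int _ ((x / r : ℕ) * round (r * φ))]
      congr 1
      have : (x : ℝ) = r * (x / r : ℕ) + c := by rw [← x2]; exact_mod_cast (Nat.div_add_mod x r).symm
      rw [hψ, Int.cast_mul, Int.cast_natCast]
      simp only
      linear_combination (-φ) * this
    · rw [← Nat.div_add_mod x r, ← Nat.div_add_mod y r, (mem_filter.1 hx).2, (mem_filter.1 hy).2]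
      simp only at e
      rw [e]
    · have h4 : ((P / r + 1 : ℕ) : ℝ) ≤ P / r + 1 := by
        push_cast; exact add_le_add Nat.cast_div_le le_rfl
      generalize ((P / r + 1 : ℕ) : ℝ) = J at h4 ⊢
      have h5 : δ / |ψ| ≤ δ / η := div_le_div_of_nonneg_left hδ hη p1
      have e : (J * |ψ| + 2) * (2 * δ / |ψ| + 1) = 2 * δ * J + J * |ψ| + 4 * (δ / |ψ|) + 2 := by
        field_simp; ring
      have h6 : 0 ≤ (P : ℝ) / r + 1 := by positivity
      rw [e, mul_div_assoc]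
      nlinarith [mul_le_mul_of_nonneg_left h4 hδ, mul_le_mul_of_nonneg_right h4 p0.le,
        mul_le_mul_of_nonneg_left p2 h6]
  · have r3 : (0 : ℝ) < r := by exact_mod_cast r1
    have e : (r : ℝ) * (4 * δ * (P / r + 1) + (4 * δ / η + 2)) =
        4 * δ * (P + r) + r * (4 * δ / η + 2) := by field_simp
    rw [nsmul_eq_mul, card_range, e]
    have : 0 ≤ (P : ℝ) / r0 + 1 := by positivity
    have h3 : 0 ≤ 4 * δ / η + 2 := by positivity
    nlinarith [mul_le_mul_of_nonneg_right r2 h3, mul_le_mul_of_nonneg_left r2 hδ]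

open Classical in
theorem bad_count {t P : ℕ} {N X θ : ℝ} (ht : 1 ≤ t) (hN : 0 < N) (h1 : t ^ 96 ≤ P)
    (h2 : (t : ℝ) ^ 96 ≤ X) (h3 : N ≤ X * P) (hM : ¬ Maj (t ^ 120) N θ) :
    (((Icc 1 P).filter fun h : ℕ => Maj ((t ^ 12) ^ 2) X (h * θ)).card : ℝ) ≤ 16 * P / t ^ 24 := by
  have t1 : (1 : ℝ) ≤ t := by exact_mod_cast ht
  have X0 : 0 < X := lt_of_lt_of_le (by positivity) h2
  have P1 : (t : ℝ) ^ 96 ≤ P := by exact_mod_cast h1
  have a1 : ((Icc 1 P).filter fun h : ℕ => Maj ((t ^ 12) ^ 2) X (h * θ)) ⊆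
      (Icc 1 (t ^ 24)).biUnion fun q => (Icc 1 P).filter fun h : ℕ =>
        nd (h * (q * θ)) ≤ t ^ 24 / X := by
    intro h hh
    obtain ⟨b1, q, b2, b3, b4⟩ := mem_filter.1 hh
    rw [← pow_mul] at b3 b4
    refine mem_biUnion.2 ⟨q, mem_Icc.2 ⟨b2, b3⟩, mem_filter.2 ⟨b1, ?_⟩⟩
    rw [mul_left_comm]; exact_mod_cast b4
  refine (Nat.cast_le.2 ((card_le_card a1).trans card_biUnion_le)).trans ?_
  rw [Nat.cast_sum]
  refine (sum_le_card_nsmul _ _ (16 * P / t ^ 48 : ℝ) fun q hq => ?_).trans (le_of_eq ?_)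
  · have q1 := mem_Icc.1 hq
    refine (vino (η := t ^ 120 / N) (r0 := t ^ 48) (by positivity) (by positivity)
      (Nat.one_le_pow _ _ ht) (fun r r1 r2 => ?_) P).trans ?_
    · by_contra h4
      refine hM ⟨r * q, Nat.mul_pos r1 q1.1, (Nat.mul_le_mul r2 q1.2).trans ?_, ?_⟩
      · rw [← pow_add]; exact Nat.pow_le_pow_right ht (by norm_num)
      · push_cast; rw [mul_assoc]; exact (not_le.1 h4).le
    · push_cast
      set w := (t : ℝ) ^ 48 with hw
      have w1 : 1 ≤ w := one_le_pow₀ t1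
      have w2 : w * w ≤ P := by rw [hw, ← pow_add]; exact P1
      have b0 : w ≤ P / w := by rw [le_div_iff₀ (by linarith)]; exact w2
      have b1 : (t : ℝ) ^ 24 / X ≤ 1 / w := by
        rw [div_le_div_iff₀ X0 (by linarith), one_mul, hw, ← pow_add]
        exact (pow_le_pow_right₀ t1 (by norm_num)).trans h2
      have b2 : 4 * (t ^ 24 / X) * (P + w) ≤ 8 * (P / w) := by
        calc _ ≤ 4 * (1 / w) * (P + P) := by gcongr; nlinarith
          _ = _ := by ring
      have b3 : w * (4 * (t ^ 24 / X) / (t ^ 120 / N)) ≤ 4 * (P / w) := by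
        have e : w * (4 * (t ^ 24 / X) / (t ^ 120 / N)) = 4 * (N / X / w) := by
          rw [hw]; field_simp
        rw [e]
        gcongr
        rw [div_le_iff₀' X0]; exact h3
      rw [mul_div_assoc 16]
      linarith
  · simp only [Nat.card_Icc, add_tsub_cancel_right, nsmul_eq_mul]
    push_cast; field_simp

theorem sum_sg_le {H : Finset ℕ} {P : ℕ} (hH : H ⊆ Icc 1 P) {s : ℝ} (hs : 0 ≤ s)
    (h : (H.card : ℝ) ≤ s ^ 2 * P) : ∑ h ∈ H, sg h ≤ exp 6 * s * P := by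
  refine le_of_sq_le_sq ((sq_sum_le_card_mul_sum_sq).trans ?_) (by positivity)
  have h1 : ∑ h ∈ H, sg h ^ 2 ≤ exp 12 * P :=
    (sum_le_sum_of_subset_of_nonneg hH fun _ _ _ => sq_nonneg _).trans (sum_sg_sq P)
  have e : exp 12 = exp 6 ^ 2 := by rw [← exp_nat_mul]; norm_num
  calc _ ≤ s ^ 2 * P * (exp 12 * P) :=
        mul_le_mul h h1 (sum_nonneg fun _ _ => sq_nonneg _) (by positivity)
    _ = _ := by rw [e]; ring

end Pool.Agent.Lib.MP_488d93_nt
end

-- part Pool.Agent.Lib.MP_488d93_nt.Box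
section

/-! Bilinear exponential sums in a dyadic box. -/

set_option autoImplicit false

namespace Pool.Agent.Lib.MP_488d93_nt

open Finset Real

theorem filter_range_down (q : ℕ → Prop) [DecidablePred q] (hq : ∀ a b, a ≤ b → q b → q a) (X : ℕ) :
    ∃ Y ≤ X, (range X).filter q = Ico 0 Y := by
  induction X with
  | zero => exact ⟨0, le_rfl, by simp⟩
  | succ X ih =>
    by_cases h : q X
    · refine ⟨X + 1, le_rfl, ?_⟩
      rw [← range_eq_Ico]
      exact filter_true_of_mem fun a ha => hq a X (Nat.lt_succ_iff.1 (mem_range.1 ha)) h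
    · obtain ⟨Y, h1, h2⟩ := ih
      exact ⟨Y, by omega, by rw [range_add_one, filter_insert, if_neg h, h2]⟩

theorem bil_cs {ν β : ℕ → ℝ} (h : ∀ l, |β l| ≤ ν l) (B : Finset ℕ) (X M : ℕ) (θ : ℝ) :
    ‖∑ p ∈ B, ∑ l ∈ range X with p * l < M, (β l : ℂ) * ee ((p * l : ℕ) * θ)‖ ^ 2 ≤
      (∑ l ∈ range X, ν l) * ∑ p ∈ B, ∑ p' ∈ B,
        ‖ft ((range X).filter fun l => p * l < M ∧ p' * l < M) (cx ν) ((p - p') * θ)‖ := by
  have h0 : ∀ l, 0 ≤ ν l := fun l => (abs_nonneg _).trans (h l)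
  let f : ℕ → ℕ → ℂ := fun l p => if p * l < M then ee ((p * l : ℕ) * θ) else 0
  have e1 : ∑ p ∈ B, ∑ l ∈ range X with p * l < M, (β l : ℂ) * ee ((p * l : ℕ) * θ) =
      ∑ l ∈ range X, β l * ∑ p ∈ B, f l p := by
    simp only [sum_filter, mul_sum, f, mul_ite, mul_zero]
    exact sum_comm
  have e2 : ‖∑ l ∈ range X, β l * ∑ p ∈ B, f l p‖ ≤ ∑ l ∈ range X, ν l * ‖∑ p ∈ B, f l p‖ :=
    (norm_sum_le _ _).trans (sum_le_sum fun l _ => by
      rw [norm_mul, Complex.norm_real]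
      exact mul_le_mul_of_nonneg_right (h l) (norm_nonneg _))
  have e3 := sum_sq_le_sum_mul_sum_of_sq_le_mul (range X) (f := ν)
    (g := fun l => ν l * ‖∑ p ∈ B, f l p‖ ^ 2) (r := fun l => ν l * ‖∑ p ∈ B, f l p‖)
    (fun l _ => h0 l) (fun l _ => mul_nonneg (h0 l) (sq_nonneg _)) fun l _ => le_of_eq (by ring)
  rw [e1]
  refine (pow_le_pow_left₀ (norm_nonneg _) e2 2).trans (e3.trans
    (mul_le_mul_of_nonneg_left ?_ (sum_nonneg fun l _ => h0 l)))
  have e4 : ((∑ l ∈ range X, ν l * ‖∑ p ∈ B, f l p‖ ^ 2 : ℝ) : ℂ) = ∑ p ∈ B, ∑ p' ∈ B,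
      ft ((range X).filter fun l => p * l < M ∧ p' * l < M) (cx ν) ((p - p') * θ) := by
    simp only [Complex.ofReal_sum, Complex.ofReal_mul, normSq_sum, mul_sum]
    rw [sum_comm]
    refine sum_congr rfl fun p _ => ?_
    rw [sum_comm]
    refine sum_congr rfl fun p' _ => ?_
    rw [ft, sum_filter]
    refine sum_congr rfl fun l _ => ?_
    simp only [f, cx]
    by_cases h1 : p * l < M <;> by_cases h2 : p' * l < M <;> simp only [h1, h2, if_true, if_false,
      and_self, and_true, and_false, star_zero, mul_zero, zero_mul]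
    rw [star_ee, ← ee_add]
    congr 2; push_cast; ring
  refine (le_abs_self _).trans ?_
  rw [← Real.norm_eq_abs, ← Complex.norm_real, e4]
  exact (norm_sum_le _ _).trans (sum_le_sum fun p _ => norm_sum_le _ _)

theorem norm_ft_le {ν : ℕ → ℝ} (h0 : ∀ l, 0 ≤ ν l) (s : Finset ℕ) (θ : ℝ) :
    ‖ft s (cx ν) θ‖ ≤ ∑ l ∈ s, ν l :=
  (norm_sum_le _ _).trans (sum_le_sum fun l _ => le_of_eq (by
    rw [norm_mul, norm_ee, mul_one, cx, Complex.norm_real, Real.norm_of_nonneg (h0 l)]))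

theorem Maj.neg {T : ℕ} {X θ : ℝ} (h : Maj T X θ) : Maj T X (-θ) := by
  obtain ⟨q, h1, h2, h3⟩ := h
  exact ⟨q, h1, h2, by rwa [mul_neg, nd_neg]⟩

theorem pairs_le {B H : Finset ℕ} {Y : ℕ} (hB : ∀ p ∈ B, p.Prime ∧ p ≤ Y) :
    ((B ×ˢ B).filter fun x => x.1 < x.2 ∧ x.2 - x.1 ∈ H).card ≤ ∑ h ∈ H, tw Y h := by
  rw [card_eq_sum_card_fiberwise (f := fun x => x.2 - x.1) (t := H)
    fun x hx => (mem_filter.1 hx).2.2]
  refine sum_le_sum fun h _ => card_le_card_of_injOn Prod.fst (fun x hx => ?_) fun x hx y hy e => ?_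
  · obtain ⟨a1, a2⟩ := mem_filter.1 hx
    obtain ⟨a3, a4, -⟩ := mem_filter.1 a1
    obtain ⟨a5, a6⟩ := mem_product.1 a3
    refine mem_coe.2 (mem_filter.2 ⟨mem_range.2 (Nat.lt_succ_of_le (hB _ a5).2), (hB _ a5).1, ?_⟩)
    rw [show x.1 + h = x.2 by omega]; exact (hB _ a6).1
  · obtain ⟨a1, a2⟩ := mem_filter.1 hx
    obtain ⟨b1, b2⟩ := mem_filter.1 hy
    have := (mem_filter.1 a1).2.1
    have := (mem_filter.1 b1).2.1
    exact Prod.ext e (by omega)

open Classical in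
theorem box_bound {ν β : ℕ → ℝ} (hβ : ∀ l, |β l| ≤ ν l) {B : Finset ℕ} {P M X t : ℕ} {L c θ : ℝ}
    (hL : 0 < L) (hc : 1 ≤ c) (ht : 1 ≤ t) (hB : ∀ p ∈ B, p.Prime ∧ P ≤ p ∧ p < 2 * P)
    (hA : ∑ l ∈ range X, ν l ≤ c * X / L)
    (hm : ∀ Y ≤ X, ∀ φ, ¬ Maj ((t ^ 12) ^ 2) X φ → ‖ft (Ico 0 Y) (cx ν) φ‖ ≤ c * X / L / t ^ 12)
    (hcard : (B.card : ℝ) ≤ c * P / L) (hd : L * t ^ 12 ≤ P)
    (htw : ∀ h, 1 ≤ h → (tw (2 * P) h : ℝ) ≤ c * sg h * P / L ^ 2)
    (hbad : (((Icc 1 P).filter fun h : ℕ => Maj ((t ^ 12) ^ 2) X (h * θ)).card : ℝ) ≤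
      16 * P / t ^ 24) :
    ‖∑ p ∈ B, ∑ l ∈ range X with p * l < M, (β l : ℂ) * ee ((p * l : ℕ) * θ)‖ ≤
      4 * exp 3 * c ^ 2 * (X * P) / L ^ 2 / t ^ 6 := by
  have h0 : ∀ l, 0 ≤ ν l := fun l => (abs_nonneg _).trans (hβ l)
  have t0 : (0 : ℝ) < t := by exact_mod_cast ht
  set H := (Icc 1 P).filter fun h : ℕ => Maj ((t ^ 12) ^ 2) X (h * θ)
  set A := c * X / L with hAd
  have A0 : 0 ≤ A := by positivity
  have a1 : ∑ h ∈ H, (tw (2 * P) h : ℝ) ≤ 4 * exp 6 * c * ((P / L) ^ 2 / t ^ 12) := by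
    have b1 := sum_sg_le (H := H) (filter_subset _ _) (s := 4 / t ^ 12) (by positivity)
      (hbad.trans (le_of_eq (by field_simp; ring)))
    calc _ ≤ ∑ h ∈ H, c * P / L ^ 2 * sg h := sum_le_sum fun h hh =>
          (htw h (mem_Icc.1 (mem_filter.1 hh).1).1).trans (le_of_eq (by ring))
      _ ≤ c * P / L ^ 2 * (exp 6 * (4 / t ^ 12) * P) := by rw [← mul_sum]; gcongr
      _ = _ := by ring
  let U := (B ×ˢ B).filter fun x => x.1 < x.2 ∧ x.2 - x.1 ∈ H
  have a2 : (U.card : ℝ) ≤ 4 * exp 6 * c * ((P / L) ^ 2 / t ^ 12) := by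
    refine le_trans ?_ a1
    exact_mod_cast pairs_le fun p hp => ⟨(hB p hp).1, (hB p hp).2.2.le⟩
  have a3 : ∀ x ∈ B ×ˢ B, ‖ft ((range X).filter fun l => x.1 * l < M ∧ x.2 * l < M) (cx ν)
      ((x.1 - x.2) * θ)‖ ≤ A / t ^ 12 + A * ((if x ∈ B.diag then 1 else 0) +
        (if x ∈ U then 1 else 0) + if x ∈ U.image Prod.swap then 1 else 0) := by
    rintro ⟨p, p'⟩ hx
    obtain ⟨b1, b2⟩ := mem_product.1 hx
    by_cases hM : Maj ((t ^ 12) ^ 2) X ((p - p') * θ)
    · have b3 : ‖ft ((range X).filter fun l => p * l < M ∧ p' * l < M) (cx ν) ((p - p') * θ)‖ ≤ A :=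
        (norm_ft_le h0 _ _).trans
          ((sum_le_sum_of_subset_of_nonneg (filter_subset _ _) fun l _ _ => h0 l).trans hA)
      refine b3.trans (le_add_of_nonneg_of_le (by positivity) (le_mul_of_one_le_right A0 ?_))
      have c1 := hB p b1
      have c2 := hB p' b2
      rcases lt_trichotomy p p' with h | h | h
      · have : (p, p') ∈ U := mem_filter.2 ⟨hx, h, mem_filter.2 ⟨mem_Icc.2 (by
          simp only; omega), by
          have := hM.neg
          rwa [← neg_mul, neg_sub, ← Nat.cast_sub h.le] at this⟩⟩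
        rw [if_pos this]; split_ifs <;> norm_num
      · rw [if_pos (mem_diag.2 ⟨b1, h⟩)]; split_ifs <;> norm_num
      · have : (p, p') ∈ U.image Prod.swap := mem_image.2 ⟨(p', p), mem_filter.2
          ⟨mem_product.2 ⟨b2, b1⟩, h, mem_filter.2 ⟨mem_Icc.2 (by simp only; omega), by
          rwa [← Nat.cast_sub h.le] at hM⟩⟩, rfl⟩
        rw [if_pos this]; split_ifs <;> norm_num
    · obtain ⟨Y, b3, b4⟩ := filter_range_down (fun l => p * l < M ∧ p' * l < M)
        (fun a b hab h => ⟨(Nat.mul_le_mul_left _ hab).trans_lt h.1,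
          (Nat.mul_le_mul_left _ hab).trans_lt h.2⟩) X
      rw [b4]
      refine (hm Y b3 _ hM).trans (le_add_of_nonneg_right (mul_nonneg A0 ?_))
      split_ifs <;> norm_num
  have a4 : ∀ S : Finset (ℕ × ℕ), ∑ x ∈ B ×ˢ B, (if x ∈ S then (1 : ℝ) else 0) ≤ S.card := fun S => by
    rw [sum_ite_mem, sum_const, nsmul_eq_mul, mul_one]
    exact_mod_cast card_le_card inter_subset_right
  have a5 : (B.card : ℝ) ≤ c * ((P / L) ^ 2 / t ^ 12) := by
    refine hcard.trans ?_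
    rw [mul_div_assoc]
    refine mul_le_mul_of_nonneg_left ?_ (by linarith)
    rw [le_div_iff₀ (by positivity), sq]
    refine mul_le_mul_of_nonneg_left ?_ (by positivity)
    rw [le_div_iff₀' hL]; exact hd
  have a6 : (B.card : ℝ) ^ 2 * (A / t ^ 12) ≤ c ^ 2 * ((P / L) ^ 2 / t ^ 12) * A := by
    calc _ ≤ (c * P / L) ^ 2 * (A / t ^ 12) := by gcongr
      _ = _ := by ring
  set w := ((P : ℝ) / L) ^ 2 / t ^ 12 with hw
  have w0 : 0 ≤ w := by positivity
  have e6 : 1 ≤ exp 6 := one_le_exp (by norm_num)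
  refine le_of_sq_le_sq ((bil_cs hβ B X M θ).trans ?_) (by positivity)
  rw [← sum_product']
  have a7 := sum_le_sum a3
  rw [sum_add_distrib, ← mul_sum, sum_add_distrib, sum_add_distrib, sum_const, card_product,
    nsmul_eq_mul, Nat.cast_mul, ← sq] at a7
  have a8 := a4 B.diag
  have a9 := a4 U
  have a10 := a4 (U.image Prod.swap)
  have a11 : ((U.image Prod.swap).card : ℝ) ≤ U.card := by exact_mod_cast card_image_le
  rw [diag_card] at a8
  have a12 : c * w + 8 * exp 6 * c * w ≤ 15 * exp 6 * c ^ 2 * w := by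
    have : c * w ≤ exp 6 * c * w := by nlinarith [mul_nonneg (zero_le_one.trans hc) w0]
    have : exp 6 * c * w ≤ exp 6 * c ^ 2 * w := by gcongr; nlinarith
    have : 0 ≤ exp 6 * c ^ 2 * w := by positivity
    linarith
  have a13 : c ^ 2 * w ≤ exp 6 * c ^ 2 * w := by nlinarith [mul_nonneg (sq_nonneg c) w0]
  calc _ ≤ A * ((16 * exp 6 * c ^ 2 * w) * A) := by
        refine mul_le_mul hA (a7.trans ?_) (sum_nonneg fun _ _ => norm_nonneg _) A0
        nlinarith
    _ = _ := by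
        rw [hw, hAd, show exp 6 = exp 3 ^ 2 by rw [← exp_nat_mul]; norm_num]
        ring

end Pool.Agent.Lib.MP_488d93_nt
end
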