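import Mathlib

-- part Pool.Agent.Lib.MP_488d93_nt.LS
section

/-! The duality lemma of Bombieri and the additive large sieve. -/

set_option autoImplicit false

namespace Pool.Agent.Lib.MP_488d93_nt

open Finset

theorem sum_le_sum_inj {α β : Type*} {s : Finset α} {t : Finset β} {f : α → ℝ} {g : β → ℝ}
    (e : α → β) (hi : Set.InjOn e s) (hm : ∀ a ∈ s, e a ∈ t) (hle : ∀ a ∈ s, f a ≤ g (e a))
    (h0 : ∀ b ∈ t, 0 ≤ g b) : ∑ a ∈ s, f a ≤ ∑ b ∈ t, g b := by
  classical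
  refine (sum_le_sum hle).trans ?_
  rw [← sum_image hi]
  exact sum_le_sum_of_subset_of_nonneg (image_subset_iff.2 hm) fun b hb _ => h0 b hb

theorem normSq_sum {ρ : Type*} (S : Finset ρ) (f : ρ → ℂ) :
    ((‖∑ r ∈ S, f r‖ ^ 2 : ℝ) : ℂ) = ∑ r ∈ S, ∑ s ∈ S, f r * star (f s) := by
  rw [← sum_mul_sum, ← star_sum, Complex.star_def, Complex.mul_conj, Complex.normSq_eq_norm_sq]

/-- Duality with a majorant. -/
theorem bombieri {ρ σ : Type*} (S : Finset ρ) (X : Finset σ) (ν : σ → ℝ) (φ : ρ → σ → ℂ)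
    (a : σ → ℂ) {Δ : ℝ} (hΔ : 0 ≤ Δ) (hν : ∀ n ∈ X, 0 ≤ ν n) (ha : ∀ n ∈ X, a n ≠ 0 → 1 ≤ ν n)
    (hG : ∀ r ∈ S, ∑ s ∈ S, ‖∑ n ∈ X, (ν n : ℂ) * (φ r n * star (φ s n))‖ ≤ Δ) :
    ∑ r ∈ S, ‖∑ n ∈ X, a n * φ r n‖ ^ 2 ≤ Δ * ∑ n ∈ X, ‖a n‖ ^ 2 := by
  classical
  set A : ρ → ℂ := fun r => ∑ n ∈ X, a n * φ r n with hA
  set W : ℝ := ∑ r ∈ S, ‖A r‖ ^ 2 with hW
  set G : ρ → ρ → ℂ := fun r s => ∑ n ∈ X, (ν n : ℂ) * (φ r n * star (φ s n)) with hGdef
  let b : σ → ℂ := fun n => ∑ r ∈ S, star (A r) * φ r n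
  have W0 : 0 ≤ W := sum_nonneg fun _ _ => sq_nonneg _
  have Gs : ∀ r s, ‖G s r‖ = ‖G r s‖ := fun r s => by
    rw [← norm_star]
    congr 1
    simp only [hGdef, star_sum, star_mul', star_star]
    exact sum_congr rfl fun n _ => by simp [mul_comm]
  have e1 : (W : ℂ) = ∑ n ∈ X, a n * b n := by
    simp only [hW, b, mul_sum]
    rw [sum_comm]
    push_cast
    refine sum_congr rfl fun r _ => ?_
    have : ((‖A r‖ : ℂ)) ^ 2 = star (A r) * A r := by
      rw [mul_comm, Complex.star_def, Complex.mul_conj, Complex.normSq_eq_norm_sq]; push_cast; rfl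
    rw [this]
    conv_lhs => rw [hA]
    simp only [mul_sum]
    exact sum_congr rfl fun n _ => by ring
  have e2 : ((∑ n ∈ X, ν n * ‖b n‖ ^ 2 : ℝ) : ℂ) =
      ∑ r ∈ S, ∑ s ∈ S, star (A r) * A s * G r s := by
    push_cast
    have : ∀ n, ((‖b n‖ : ℂ)) ^ 2 = ∑ r ∈ S, ∑ s ∈ S,
        star (A r) * φ r n * star (star (A s) * φ s n) := fun n => by
      rw [← normSq_sum]; push_cast; rfl
    simp only [this, hGdef, mul_sum]
    rw [sum_comm]
    refine sum_congr rfl fun r _ => ?_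
    rw [sum_comm]
    refine sum_congr rfl fun s _ => sum_congr rfl fun n _ => ?_
    rw [star_mul', star_star]; ring
  have h3 : ∑ n ∈ X, ν n * ‖b n‖ ^ 2 ≤ Δ * W := by
    have h1 : ∑ n ∈ X, ν n * ‖b n‖ ^ 2 ≤ ∑ r ∈ S, ∑ s ∈ S, ‖A r‖ * ‖A s‖ * ‖G r s‖ := by
      refine (le_abs_self _).trans ?_
      rw [← Real.norm_eq_abs, ← Complex.norm_real, e2]
      refine (norm_sum_le _ _).trans (sum_le_sum fun r _ => (norm_sum_le _ _).trans
        (sum_le_sum fun s _ => le_of_eq ?_))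
      rw [norm_mul, norm_mul, norm_star]
    have h2 : ∑ r ∈ S, ∑ s ∈ S, ‖A r‖ ^ 2 * ‖G r s‖ ≤ Δ * W := by
      rw [hW, mul_sum]
      refine sum_le_sum fun r hr => ?_
      rw [← mul_sum, mul_comm]
      exact mul_le_mul_of_nonneg_right (hG r hr) (sq_nonneg _)
    have h2' : ∑ r ∈ S, ∑ s ∈ S, ‖A s‖ ^ 2 * ‖G r s‖ ≤ Δ * W := by
      rw [sum_comm]
      simpa only [Gs] using h2
    have h4 : 2 * ∑ r ∈ S, ∑ s ∈ S, ‖A r‖ * ‖A s‖ * ‖G r s‖ ≤
        ∑ r ∈ S, ∑ s ∈ S, ‖A r‖ ^ 2 * ‖G r s‖ + ∑ r ∈ S, ∑ s ∈ S, ‖A s‖ ^ 2 * ‖G r s‖ := by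
      rw [← sum_add_distrib, mul_sum]
      refine sum_le_sum fun r _ => ?_
      rw [← sum_add_distrib, mul_sum]
      refine sum_le_sum fun s _ => ?_
      nlinarith [mul_nonneg (sq_nonneg (‖A r‖ - ‖A s‖)) (norm_nonneg (G r s))]
    linarith
  have h5 : W ≤ ∑ n ∈ X, ‖a n‖ * (√(ν n) * ‖b n‖) := by
    refine (le_abs_self _).trans ?_
    rw [← Real.norm_eq_abs, ← Complex.norm_real, e1]
    refine (norm_sum_le _ _).trans (sum_le_sum fun n hn => ?_)
    rw [norm_mul]
    by_cases h : a n = 0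
    · simp [h]
    · have : 1 ≤ √(ν n) := Real.one_le_sqrt.2 (ha n hn h)
      exact mul_le_mul_of_nonneg_left (le_mul_of_one_le_left (norm_nonneg _) this) (norm_nonneg _)
  have h6 := sum_mul_sq_le_sq_mul_sq X (fun n => ‖a n‖) fun n => √(ν n) * ‖b n‖
  have h7 : ∑ n ∈ X, (√(ν n) * ‖b n‖) ^ 2 = ∑ n ∈ X, ν n * ‖b n‖ ^ 2 :=
    sum_congr rfl fun n hn => by rw [mul_pow, Real.sq_sqrt (hν n hn)]
  rw [h7] at h6
  have a0 : 0 ≤ ∑ n ∈ X, ‖a n‖ ^ 2 := sum_nonneg fun _ _ => sq_nonneg _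
  have h8 : W ^ 2 ≤ (∑ n ∈ X, ‖a n‖ ^ 2) * (Δ * W) :=
    (pow_le_pow_left₀ W0 h5 2).trans (h6.trans (mul_le_mul_of_nonneg_left h3 a0))
  rcases W0.eq_or_lt with h | h
  · rw [← h]; positivity
  · exact le_of_mul_le_mul_right (by nlinarith) h

/-- `e(x)`. -/
noncomputable def ee (x : ℝ) : ℂ := Complex.exp (2 * Real.pi * Complex.I * x)

theorem ee_add (x y : ℝ) : ee (x + y) = ee x * ee y := by
  unfold ee; rw [← Complex.exp_add]; congr 1; push_cast; ring

theorem ee_zero : ee 0 = 1 := by simp [ee]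

theorem norm_ee (x : ℝ) : ‖ee x‖ = 1 := by
  have := Complex.norm_exp_ofReal_mul_I (2 * Real.pi * x)
  unfold ee; rw [← this]; congr 2; push_cast; ring

theorem star_ee (x : ℝ) : star (ee x) = ee (-x) := by
  unfold ee
  rw [Complex.star_def, ← Complex.exp_conj]
  congr 1
  simp [map_ofNat]

theorem ee_int (k : ℤ) : ee k = 1 := by
  unfold ee
  have := Complex.exp_int_mul_two_pi_mul_I k
  rw [← this]; congr 1; push_cast; ring

theorem ee_nat_mul (n : ℕ) (x : ℝ) : ee (n * x) = ee x ^ n := by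
  unfold ee; rw [← Complex.exp_nat_mul]; congr 1; push_cast; ring

theorem ee_sum {ι : Type*} (s : Finset ι) (f : ι → ℝ) : ee (∑ i ∈ s, f i) = ∏ i ∈ s, ee (f i) := by
  classical
  induction s using Finset.induction_on with
  | empty => simp [ee_zero]
  | insert i s h ih => rw [sum_insert h, prod_insert h, ee_add, ih]

theorem four_mul_le (θ : ℝ) : 4 * |θ - round θ| ≤ ‖ee θ - 1‖ := by
  set t := θ - round θ with ht
  have h1 : |t| ≤ 1 / 2 := abs_sub_round θ
  have h2 : ee θ = Complex.exp (Complex.I * (2 * Real.pi * t : ℝ)) := by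
    have : θ = t + (round θ : ℤ) := by rw [ht]; ring
    rw [this, ee_add, ee_int, mul_one]
    unfold ee; congr 1; push_cast; ring
  rw [h2, Complex.norm_exp_I_mul_ofReal_sub_one, Real.norm_eq_abs, abs_mul, abs_two]
  have pi0 := Real.pi_pos
  have h3 : 2 * Real.pi * t / 2 = Real.pi * t := by ring
  rw [h3]
  have h4 : |Real.pi * t| = Real.pi * |t| := by rw [abs_mul, abs_of_pos pi0]
  have h5 := Real.mul_abs_le_abs_sin (x := Real.pi * t) (by rw [h4]; nlinarith)
  rw [h4] at h5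
  have h6 : 2 / Real.pi * (Real.pi * |t|) = 2 * |t| := by field_simp
  linarith

theorem norm_dir_le (M : ℕ) (θ : ℝ) {η : ℝ} (hη : 0 < η) (hM : M * η ≤ 1) :
    ‖∑ x ∈ range M, ee (x * θ)‖ ≤ 3 / 2 / (|θ - round θ| + η) := by
  have h1 : ‖∑ x ∈ range M, ee (x * θ)‖ ≤ M := by
    refine (norm_sum_le _ _).trans (le_of_eq ?_)
    simp [norm_ee]
  have h2 : ‖∑ x ∈ range M, ee (x * θ)‖ * ‖ee θ - 1‖ ≤ 2 := by
    simp only [ee_nat_mul]
    rw [← norm_mul, geom_sum_mul]
    refine (norm_sub_le _ _).trans (le_of_eq ?_)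
    rw [norm_pow, norm_ee]; norm_num
  have h3 := four_mul_le θ
  have h4 := abs_nonneg (θ - round θ)
  have h5 := norm_nonneg (∑ x ∈ range M, ee (x * θ))
  rw [le_div_iff₀ (by positivity)]
  nlinarith

theorem sum_range_inv_sq {Q η : ℝ} (hQ : 0 < Q) (hη : 0 < η) (K : ℕ) :
    ∑ k ∈ range (K + 1), 1 / (k / Q + η) ^ 2 ≤ 1 / η ^ 2 + Q / η - Q / (K / Q + η) := by
  induction K with
  | zero => simp
  | succ K ih =>
    rw [sum_range_succ]
    have h0 : (0 : ℝ) < K / Q + η := by positivity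
    set u := (K : ℝ) / Q + η with hu
    have h1 : ((K + 1 : ℕ) : ℝ) / Q + η = u + 1 / Q := by rw [hu]; push_cast; ring
    rw [h1]
    have h2 : Q / u - Q / (u + 1 / Q) = 1 / (u * (u + 1 / Q)) := by field_simp; ring
    have h3 : 1 / (u + 1 / Q) ^ 2 ≤ 1 / (u * (u + 1 / Q)) := by
      refine one_div_le_one_div_of_le (by positivity) ?_
      have : 0 < 1 / Q := by positivity
      nlinarith
    linarith

theorem spaced_nonneg {ρ : Type*} (S : Finset ρ) (t : ρ → ℝ) {Q η : ℝ} (hQ : 0 < Q) (hη : 0 < η)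
    (h0 : ∀ s ∈ S, 0 ≤ t s) (hs : ∀ r ∈ S, ∀ s ∈ S, r ≠ s → 1 / Q ≤ |t r - t s|) :
    ∑ s ∈ S, 1 / (t s + η) ^ 2 ≤ 1 / η ^ 2 + Q / η := by
  set K := S.sup fun s => ⌊t s * Q⌋₊
  have h1 := sum_range_inv_sq hQ hη K
  have h2 : 0 ≤ Q / (K / Q + η) := by positivity
  refine le_trans ?_ (h1.trans (by linarith))
  refine sum_le_sum_inj (fun s => ⌊t s * Q⌋₊) ?_ ?_ ?_ ?_
  · intro r hr s hs' h
    by_contra hne
    have h3 := hs r hr s hs' hne
    have a1 := Nat.floor_le (mul_nonneg (h0 r hr) hQ.le)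
    have a2 := Nat.floor_le (mul_nonneg (h0 s hs') hQ.le)
    have b1 := Nat.lt_floor_add_one (t r * Q)
    have b2 := Nat.lt_floor_add_one (t s * Q)
    simp only at h
    rw [h] at a1 b1
    rw [div_le_iff₀ hQ, ← abs_of_pos hQ, ← abs_mul, sub_mul] at h3
    have : |t r * Q - t s * Q| < 1 := abs_lt.2 ⟨by linarith, by linarith⟩
    linarith
  · intro s hs'
    exact mem_range.2 (Nat.lt_succ_of_le (le_sup (f := fun s => ⌊t s * Q⌋₊) hs'))
  · intro s hs'
    have a1 := Nat.floor_le (mul_nonneg (h0 s hs') hQ.le)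
    rw [← div_le_iff₀ hQ] at a1
    exact one_div_le_one_div_of_le (by positivity) (pow_le_pow_left₀ (by positivity) (by linarith) 2)
  · intro _ _; positivity

theorem spaced {ρ : Type*} (S : Finset ρ) (t : ρ → ℝ) {Q η : ℝ} (hQ : 0 < Q) (hη : 0 < η)
    (hs : ∀ r ∈ S, ∀ s ∈ S, r ≠ s → 1 / Q ≤ |t r - t s|) :
    ∑ s ∈ S, 1 / (|t s| + η) ^ 2 ≤ 2 * (1 / η ^ 2 + Q / η) := by
  rw [← sum_filter_add_sum_filter_not S fun s => 0 ≤ t s]
  have h1 := spaced_nonneg (S.filter fun s => 0 ≤ t s) t hQ hη (fun s h => (mem_filter.1 h).2)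
    fun r hr s hs' => hs r (mem_filter.1 hr).1 s (mem_filter.1 hs').1
  have h2 := spaced_nonneg (S.filter fun s => ¬ 0 ≤ t s) (fun s => -t s) hQ hη
    (fun s h => by have := (mem_filter.1 h).2; linarith)
    fun r hr s hs' hne => by
      rw [neg_sub_neg, abs_sub_comm]
      exact hs r (mem_filter.1 hr).1 s (mem_filter.1 hs').1 hne
  rw [sum_congr rfl fun s h => by rw [abs_of_nonneg (mem_filter.1 h).2],
    sum_congr rfl (s₁ := S.filter fun s => ¬ 0 ≤ t s) fun s h => by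
      rw [abs_of_neg (not_le.1 (mem_filter.1 h).2)]]
  linarith

/-- The additive large sieve. -/
theorem add_ls {ρ : Type*} (S : Finset ρ) (α : ρ → ℝ) {Q : ℝ} (hQ : 0 < Q)
    (hs : ∀ r ∈ S, ∀ s ∈ S, r ≠ s → ∀ k : ℤ, 1 / Q ≤ |α r - α s - k|) (N : ℕ) (a : ℕ → ℂ) :
    ∑ r ∈ S, ‖∑ n ∈ Icc 1 N, a n * ee (n * α r)‖ ^ 2 ≤
      41 * (N + Q) * ∑ n ∈ Icc 1 N, ‖a n‖ ^ 2 := by
  rcases Nat.eq_zero_or_pos N with rfl | hN
  · simp
  have N1 : (1 : ℝ) ≤ N := by exact_mod_cast hN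
  set η : ℝ := 1 / (3 * N) with hη
  have η0 : 0 < η := by positivity
  let a' : ℕ × ℕ → ℂ := fun x => if x.1 < x.2 ∧ x.2 ≤ x.1 + N then a (x.2 - x.1) else 0
  have shift : ∀ {M : Type} [AddCommMonoid M] (g : ℕ → M), ∀ y < N, ∑ x ∈ range (2 * N + 1),
      (if y < x ∧ x ≤ y + N then g (x - y) else 0) = ∑ n ∈ Icc 1 N, g n := by
    intro M _ g y hy
    rw [← sum_filter]
    refine sum_nbij' (fun x => x - y) (fun n => n + y) ?_ ?_ ?_ ?_ ?_
    · intro x hx; simp only [mem_filter, mem_range, mem_Icc] at hx ⊢; omega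
    · intro x hx; simp only [mem_filter, mem_range, mem_Icc] at hx ⊢; omega
    · intro x hx; simp only [mem_filter, mem_range] at hx ⊢; omega
    · intro x hx; simp only [mem_Icc] at hx ⊢; omega
    · intro x _; rfl
  have key := bombieri S (range N ×ˢ range (2 * N + 1)) (fun _ => 1)
    (fun r x => ee (((x.2 : ℝ) - x.1) * α r)) a' (Δ := 9 / 4 * (2 * (1 / η ^ 2 + Q / η)))
    (by positivity) (fun _ _ => zero_le_one) (fun _ _ _ => le_rfl) fun r hr => by
      have h1 := spaced S (fun s => α r - α s - round (α r - α s)) hQ η0 fun s hs1 s' hs2 hne => by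
        have := hs s' hs2 s hs1 hne.symm (round (α r - α s) - round (α r - α s'))
        refine this.trans (le_of_eq ?_)
        congr 1; push_cast; ring
      refine le_trans ?_ (mul_le_mul_of_nonneg_left h1 (by norm_num))
      rw [mul_sum]
      refine sum_le_sum fun s _ => ?_
      have e : ∑ x ∈ range N ×ˢ range (2 * N + 1), ((1 : ℝ) : ℂ) *
          (ee (((x.2 : ℝ) - x.1) * α r) * star (ee (((x.2 : ℝ) - x.1) * α s))) =
          star (∑ y ∈ range N, ee (y * (α r - α s))) *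
            ∑ x ∈ range (2 * N + 1), ee (x * (α r - α s)) := by
        rw [sum_product, star_sum, sum_mul_sum]
        refine sum_congr rfl fun y _ => sum_congr rfl fun x _ => ?_
        rw [star_ee, star_ee, ← ee_add, ← ee_add, Complex.ofReal_one, one_mul]
        congr 1; ring
      rw [e, norm_mul, norm_star]
      have b1 := norm_dir_le N (α r - α s) η0 (by
        rw [hη, mul_one_div, div_le_one (by positivity)]; linarith)
      have b2 := norm_dir_le (2 * N + 1) (α r - α s) η0 (by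
        rw [hη, mul_one_div, div_le_one (by positivity)]; push_cast; linarith)
      refine (mul_le_mul b1 b2 (norm_nonneg _) (by positivity)).trans (le_of_eq ?_)
      have := abs_nonneg (α r - α s - round (α r - α s))
      field_simp; ring
  have e1 : ∀ r, ∑ x ∈ range N ×ˢ range (2 * N + 1), a' x * ee (((x.2 : ℝ) - x.1) * α r) =
      N * ∑ n ∈ Icc 1 N, a n * ee (n * α r) := fun r => by
    rw [sum_product, sum_congr rfl fun y hy => ?_, sum_const, card_range, nsmul_eq_mul]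
    rw [← shift (fun n => a n * ee (n * α r)) y (mem_range.1 hy)]
    refine sum_congr rfl fun x _ => ?_
    simp only [a']
    split_ifs with h
    · rw [Nat.cast_sub h.1.le]
    · simp
  have e2 : ∑ x ∈ range N ×ˢ range (2 * N + 1), ‖a' x‖ ^ 2 = N * ∑ n ∈ Icc 1 N, ‖a n‖ ^ 2 := by
    rw [sum_product, sum_congr rfl fun y hy => ?_, sum_const, card_range, nsmul_eq_mul]
    rw [← shift (fun n => ‖a n‖ ^ 2) y (mem_range.1 hy)]
    refine sum_congr rfl fun x _ => ?_
    simp only [a']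
    split_ifs with h <;> simp
  simp only [e1, e2, norm_mul, Complex.norm_natCast, mul_pow] at key
  rw [← mul_sum] at key
  have e3 : 9 / 4 * (2 * (1 / η ^ 2 + Q / η)) = N * (81 / 2 * N + 27 / 2 * Q) := by
    rw [hη]; field_simp; ring
  rw [e3] at key
  have a0 : 0 ≤ ∑ n ∈ Icc 1 N, ‖a n‖ ^ 2 := sum_nonneg fun _ _ => sq_nonneg _
  have h2 : ∑ r ∈ S, ‖∑ n ∈ Icc 1 N, a n * ee (n * α r)‖ ^ 2 ≤
      (81 / 2 * N + 27 / 2 * Q) * ∑ n ∈ Icc 1 N, ‖a n‖ ^ 2 :=
    le_of_mul_le_mul_left (a := (N : ℝ) ^ 2) (key.trans (le_of_eq (by ring))) (by positivity)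
  exact h2.trans (mul_le_mul_of_nonneg_right (by linarith) a0)

end Pool.Agent.Lib.MP_488d93_nt
end

-- part Pool.Agent.Lib.MP_488d93_nt.Elem
section

/-! Elementary estimates (the first lemmas are copied from the files on MP_696deb_nt). -/

set_option autoImplicit false

namespace Pool.Agent.Lib.MP_488d93_nt

open Finset
open scoped ArithmeticFunction.vonMangoldt ArithmeticFunction.Moebius

theorem log_fact_eq (n : ℕ) :
    Real.log (n.factorial : ℝ) = ∑ m ∈ Ioc 0 n, Λ m * ((n / m : ℕ) : ℝ) := by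
  have h1 : Real.log (n.factorial : ℝ) = ∑ k ∈ Ioc 0 n, Real.log k := by
    induction n with
    | zero => simp
    | succ n ih =>
      rw [Nat.factorial_succ, Nat.cast_mul, Real.log_mul (by positivity) (by positivity), ih,
        sum_Ioc_succ_top (Nat.zero_le n), add_comm]
  rw [h1]
  have h2 : ∀ k ∈ Ioc 0 n, Real.log k = ∑ m ∈ Ioc 0 n, if m ∣ k then Λ m else 0 := by
    intro k hk
    rw [← ArithmeticFunction.vonMangoldt_sum, ← sum_filter]
    refine sum_congr ?_ fun _ _ => rfl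
    ext m
    simp only [mem_Ioc] at hk
    simp only [Nat.mem_divisors, mem_filter, mem_Ioc]
    constructor
    · rintro ⟨h, -⟩
      exact ⟨⟨Nat.pos_of_dvd_of_pos h hk.1, (Nat.le_of_dvd hk.1 h).trans hk.2⟩, h⟩
    · rintro ⟨-, h⟩
      exact ⟨h, hk.1.ne'⟩
  rw [sum_congr rfl h2, sum_comm]
  refine sum_congr rfl fun m _ => ?_
  rw [← sum_filter, sum_const, nsmul_eq_mul, Nat.Ioc_filter_dvd_card_eq_div, mul_comm]

theorem lam_div_upper {n : ℕ} (hn : 1 ≤ n) :
    ∑ m ∈ Ioc 0 n, Λ m / m ≤ Real.log n + (Real.log 4 + 4) := by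
  have hn' : (0 : ℝ) < n := by exact_mod_cast hn
  have h1 : Real.log (n.factorial : ℝ) ≤ n * Real.log n := by
    rw [← Real.log_pow]
    exact Real.log_le_log (by positivity) (by exact_mod_cast Nat.factorial_le_pow n)
  have h3 := Chebyshev.psi_le_const_mul_self hn'.le
  have h4 : Chebyshev.psi n = ∑ m ∈ Ioc 0 n, Λ m := by
    rw [Chebyshev.psi, Nat.floor_natCast]
  have h2 : n * ∑ m ∈ Ioc 0 n, Λ m / m ≤ Real.log (n.factorial : ℝ) + Chebyshev.psi n := by
    rw [log_fact_eq, mul_sum, h4, ← sum_add_distrib]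
    refine sum_le_sum fun m hm => ?_
    have hm0 : 0 < m := (mem_Ioc.1 hm).1
    have hm' : (0 : ℝ) < m := by exact_mod_cast hm0
    have := ArithmeticFunction.vonMangoldt_nonneg (n := m)
    have h5 : (n : ℝ) / m ≤ ((n / m : ℕ) : ℝ) + 1 := by
      rw [div_le_iff₀ hm']
      have := Nat.lt_div_mul_add (a := n) hm0
      have h6 : (n : ℝ) < ((n / m : ℕ) : ℝ) * m + m := by exact_mod_cast this
      linarith
    calc (n : ℝ) * (Λ m / m) = Λ m * ((n : ℝ) / m) := by ring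
      _ ≤ Λ m * (((n / m : ℕ) : ℝ) + 1) := by gcongr
      _ = _ := by ring
  have : (n : ℝ) * ∑ m ∈ Ioc 0 n, Λ m / m ≤ n * (Real.log n + (Real.log 4 + 4)) := by nlinarith
  exact le_of_mul_le_mul_left this hn'

/-- Chinese remainder theorem for complete sums. -/
theorem crt_sum {a b : ℕ} (h : Nat.Coprime a b) (ha : a ≠ 0) (hb : b ≠ 0) (f g : ℕ → ℝ)
    (hf : ∀ n, f (n % a) = f n) (hg : ∀ n, g (n % b) = g n) :
    ∑ n ∈ range (a * b), f n * g n = (∑ n ∈ range a, f n) * ∑ n ∈ range b, g n := by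
  rw [sum_mul_sum, ← sum_product']
  refine sum_nbij' (fun n => (n % a, n % b)) (fun x => (Nat.chineseRemainder h x.1 x.2 : ℕ))
    ?_ ?_ ?_ ?_ ?_
  · intro n _
    simp [Nat.mod_lt _ (Nat.pos_of_ne_zero ha), Nat.mod_lt _ (Nat.pos_of_ne_zero hb)]
  · intro x _
    simpa using Nat.chineseRemainder_lt_mul h x.1 x.2 ha hb
  · intro n hn
    have h1 := Nat.chineseRemainder_modEq_unique h (a := n % a) (b := n % b) (z := n)
      (Nat.mod_modEq n a).symm (Nat.mod_modEq n b).symm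
    have h2 := Nat.chineseRemainder_lt_mul h (n % a) (n % b) ha hb
    exact (Nat.ModEq.eq_of_lt_of_lt h1 (mem_range.mp hn) h2).symm
  · rintro ⟨x, y⟩ hx
    simp only [mem_product, mem_range] at hx
    have h1 := (Nat.chineseRemainder h x y).2
    ext
    · simpa [Nat.ModEq, Nat.mod_eq_of_lt hx.1] using h1.1
    · simpa [Nat.ModEq, Nat.mod_eq_of_lt hx.2] using h1.2
  · intro n _
    simp [hf, hg]

theorem periodic_sum_le {m : ℕ} (hm : m ≠ 0) (f : ℕ → ℝ) (hf : ∀ n, f (n % m) = f n)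
    (h0 : ∑ n ∈ range m, f n = 0) (h1 : ∀ n, |f n| ≤ 1) (t : ℕ) :
    |∑ n ∈ range t, f n| ≤ m := by
  have key : ∀ t, ∑ n ∈ range (t + m), f n = ∑ n ∈ range t, f n := by
    intro t
    induction t with
    | zero => simpa using h0
    | succ t ih =>
      rw [show t + 1 + m = (t + m) + 1 by ring, sum_range_succ, sum_range_succ, ih, ← hf (t + m),
        Nat.add_mod_right, hf]
  induction t using Nat.strong_induction_on with
  | _ t ih =>
    by_cases ht : t < m
    · calc _ ≤ ∑ n ∈ range t, |f n| := abs_sum_le_sum_abs _ _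
        _ ≤ ∑ n ∈ range t, (1 : ℝ) := sum_le_sum fun n _ => h1 n
        _ ≤ m := by simpa using ht.le
    · obtain ⟨s, rfl⟩ : ∃ s, t = s + m := ⟨t - m, by omega⟩
      rw [key]; exact ih s (by omega)

theorem log_le_sum_inv (R : ℕ) : Real.log R ≤ ∑ n ∈ Icc 1 R, (1 : ℝ) / n := by
  have h := log_add_one_le_harmonic R
  rw [harmonic_eq_sum_Icc] at h
  push_cast at h
  simp only [one_div]
  refine le_trans ?_ h
  rcases Nat.eq_zero_or_pos R with rfl | hR
  · simp
  · exact Real.log_le_log (by exact_mod_cast hR) (by linarith)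

theorem sum_inv_sq_le (R : ℕ) : ∑ n ∈ Icc 1 R, (1 : ℝ) / (n : ℝ) ^ 2 ≤ 2 := by
  have : ∀ R : ℕ, ∑ n ∈ Icc 1 (R + 1), (1 : ℝ) / (n : ℝ) ^ 2 ≤ 2 - 1 / (R + 1) := by
    intro R
    induction R with
    | zero => norm_num
    | succ R ih =>
      rw [sum_Icc_succ_top (by omega)]
      push_cast
      have : (1 : ℝ) / (R + 1 + 1) ^ 2 ≤ 1 / (R + 1) - 1 / (R + 1 + 1) := by
        rw [div_sub_div _ _ (by positivity) (by positivity), div_le_div_iff₀ (by positivity)
          (by positivity)]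
        nlinarith [Nat.cast_nonneg (α := ℝ) R]
      linarith
  rcases R with _ | R
  · simp
  · have h := this R
    have : (0 : ℝ) ≤ 1 / (R + 1) := by positivity
    linarith

theorem log_le_sqfree_sum (R : ℕ) :
    Real.log R ≤ 2 * ∑ l ∈ Icc 1 R, ((μ l : ℝ)) ^ 2 / l := by
  refine (log_le_sum_inv R).trans ?_
  have h : ∑ n ∈ Icc 1 R, (1 : ℝ) / n ≤
      ∑ x ∈ Icc 1 R ×ˢ Icc 1 R, (1 : ℝ) / (x.1 : ℝ) ^ 2 * (((μ x.2 : ℝ)) ^ 2 / x.2) := by
    choose a b hab hsq using Nat.sq_mul_squarefree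
    refine sum_le_sum_inj (fun n => (b n, a n)) ?_ ?_ ?_ ?_
    · intro n _ n' _ h
      simp only [Prod.mk.injEq] at h
      rw [← hab n, ← hab n', h.1, h.2]
    · intro n hn
      rw [mem_Icc] at hn
      have h1 := hab n
      have ha : 0 < a n := Nat.pos_of_ne_zero (hsq n).ne_zero
      have hb : 0 < b n := Nat.pos_of_ne_zero fun h => by rw [h] at h1; simp at h1; omega
      simp only [mem_product, mem_Icc]
      refine ⟨⟨hb, ?_⟩, ha, ?_⟩ <;> nlinarith [pow_pos hb 2]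
    · intro n _
      have : ((μ (a n) : ℝ)) ^ 2 = 1 := by
        exact_mod_cast ArithmeticFunction.moebius_sq_eq_one_of_squarefree (hsq n)
      simp only [this]
      conv_lhs => rw [← hab n]
      push_cast
      rw [div_mul_div_comm, one_mul]
    · intro x _; positivity
  refine h.trans ?_
  rw [sum_product]
  simp only
  rw [← sum_mul_sum]
  exact mul_le_mul_of_nonneg_right (sum_inv_sq_le R) (sum_nonneg fun _ _ => by positivity)

end Pool.Agent.Lib.MP_488d93_nt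
end

-- part Pool.Agent.Lib.MP_488d93_nt.Mert
section

/-! Sums over primes, means of products of local functions. -/

set_option autoImplicit false

namespace Pool.Agent.Lib.MP_488d93_nt

open Finset Real
open scoped ArithmeticFunction.vonMangoldt ArithmeticFunction.Moebius

theorem mertens {x : ℕ} (hx : 1 ≤ x) (s : Finset ℕ) (hs : ∀ p ∈ s, p.Prime ∧ p ≤ x) :
    ∑ p ∈ s, log p / p ≤ log x + 6 := by
  have h1 := lam_div_upper hx
  have h2 : log 4 ≤ 2 := by
    rw [show (4 : ℝ) = 2 ^ 2 by norm_num, log_pow]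
    have := log_two_lt_d9
    push_cast; linarith
  refine le_trans ?_ (h1.trans (by linarith))
  refine sum_le_sum_inj id (Set.injOn_id _) (fun p hp => ?_) (fun p hp => ?_) fun m _ => ?_
  · exact mem_Ioc.2 ⟨(hs p hp).1.pos, (hs p hp).2⟩
  · rw [id, ArithmeticFunction.vonMangoldt_apply_prime (hs p hp).1]
  · exact div_nonneg ArithmeticFunction.vonMangoldt_nonneg (Nat.cast_nonneg _)

theorem sum_inv_prime (s : Finset ℕ) {l u : ℝ} (hl : 0 < l) (hu : 0 ≤ u)
    (hs : ∀ p ∈ s, p.Prime ∧ l ≤ log p ∧ log p ≤ u) : ∑ p ∈ s, (1 : ℝ) / p ≤ (u + 6) / l := by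
  have h1 : 1 ≤ ⌊exp u⌋₊ := Nat.le_floor (by simpa using hu)
  have h2 := mertens h1 s fun p hp => ⟨(hs p hp).1, Nat.le_floor
    ((log_le_iff_le_exp (by exact_mod_cast (hs p hp).1.pos)).1 (hs p hp).2.2)⟩
  have h3 : log (⌊exp u⌋₊ : ℕ) ≤ u :=
    (log_le_iff_le_exp (by exact_mod_cast h1)).2 (Nat.floor_le (exp_pos u).le)
  rw [le_div_iff₀ hl, sum_mul]
  refine le_trans (sum_le_sum fun p hp => ?_) (h2.trans (by linarith))
  rw [one_div, inv_mul_eq_div]
  exact div_le_div_of_nonneg_right (hs p hp).2.1 (Nat.cast_nonneg _)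

theorem crt_prod (S : Finset ℕ) (hS : ∀ p ∈ S, p.Prime) (f : ℕ → ℕ → ℝ)
    (hf : ∀ p n, f p (n % p) = f p n) :
    ∑ n ∈ range (∏ p ∈ S, p), ∏ p ∈ S, f p n = ∏ p ∈ S, ∑ n ∈ range p, f p n := by
  induction S using Finset.induction_on with
  | empty => simp
  | insert q S hq ih =>
    have hS' : ∀ p ∈ S, p.Prime := fun p hp => hS p (mem_insert_of_mem hp)
    have q0 := hS q (mem_insert_self _ _)
    simp only [prod_insert hq]
    rw [crt_sum (Nat.Coprime.prod_right fun p hp => (Nat.coprime_primes q0 (hS' p hp)).2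
      fun e => hq (e ▸ hp)) q0.ne_zero (prod_ne_zero_iff.2 fun p hp => (hS' p hp).ne_zero) (f q)
      (fun n => ∏ p ∈ S, f p n) (hf q) fun n => prod_congr rfl fun p hp => by
        rw [← hf p, Nat.mod_mod_of_dvd _ (dvd_prod_of_mem _ hp), hf], ih hS']

theorem crt_mean (S : Finset ℕ) (hS : ∀ p ∈ S, p.Prime) (f : ℕ → ℕ → ℝ)
    (hf : ∀ p n, f p (n % p) = f p n) {B : ℝ} (hB0 : 0 < B) (hB : ∀ n, |∏ p ∈ S, f p n| ≤ B)
    {a b : ℕ} (hab : a ≤ b) :
    |∑ n ∈ Ico a b, ∏ p ∈ S, f p n - (b - a) * ∏ p ∈ S, (∑ n ∈ range p, f p n) / p| ≤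
      4 * B * (∏ p ∈ S, p : ℕ) := by
  set d := ∏ p ∈ S, p with hd
  have d0 : d ≠ 0 := prod_ne_zero_iff.2 fun p hp => (hS p hp).ne_zero
  have d1 : (0 : ℝ) < d := by positivity
  set mu := ∏ p ∈ S, (∑ n ∈ range p, f p n) / p with hmu
  have e : ∑ n ∈ range d, ∏ p ∈ S, f p n = d * mu := by
    rw [hmu, prod_div_distrib, ← crt_prod S hS f hf, ← Nat.cast_prod, mul_div_cancel₀ _ d1.ne']
  have hmB : |mu| ≤ B := by
    have : |d * mu| ≤ d * B := by
      rw [← e]
      refine (abs_sum_le_sum_abs _ _).trans ((sum_le_sum fun n _ => hB n).trans (by simp))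
    rw [abs_mul, abs_of_pos d1] at this
    exact le_of_mul_le_mul_left this d1
  have key := periodic_sum_le d0 (fun n => (∏ p ∈ S, f p n - mu) / (2 * B)) (fun n => by
    congr 2
    exact prod_congr rfl fun p hp => by
      rw [← hf p, Nat.mod_mod_of_dvd _ (dvd_prod_of_mem _ hp), hf]) (by
    rw [← sum_div, sum_sub_distrib, e]; simp) (fun n => by
    rw [abs_div, abs_of_pos (by positivity : 0 < 2 * B), div_le_one (by positivity)]
    linarith [abs_sub (∏ p ∈ S, f p n) mu, hB n])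
  have k2 : ∀ t : ℕ, |∑ n ∈ range t, ∏ p ∈ S, f p n - t * mu| ≤ 2 * B * d := fun t => by
    have := key t
    rw [← sum_div, sum_sub_distrib, abs_div, abs_of_pos (by positivity : 0 < 2 * B),
      div_le_iff₀ (by positivity)] at this
    simpa [mul_comm] using this
  rw [sum_Ico_eq_sub _ hab]
  have h1 := abs_le.1 (k2 a)
  have h2 := abs_le.1 (k2 b)
  rw [abs_le]
  constructor <;> linarith

theorem prod_le_exp_sum {ι : Type*} (s : Finset ι) (x : ι → ℝ) (h : ∀ i ∈ s, 0 ≤ x i) :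
    ∏ i ∈ s, (1 + x i) ≤ exp (∑ i ∈ s, x i) := by
  rw [exp_sum]
  exact prod_le_prod (fun i hi => by linarith [h i hi]) fun i _ => by
    linarith [add_one_le_exp (x i)]

/-- Averages of multiplicative weights from counts of multiples. -/
theorem prod_avg {ι : Type*} (s : Finset ι) (P : Finset ℕ) (E : ι → ℕ → Prop)
    [∀ i p, Decidable (E i p)] (γ ω : ℕ → ℝ) (hγ : ∀ p ∈ P, 0 ≤ γ p) (hω : ∀ p ∈ P, 0 ≤ ω p) {B : ℝ}
    (hB0 : 0 ≤ B)
    (hB : ∀ S ⊆ P, ((s.filter fun i => ∀ p ∈ S, E i p).card : ℝ) ≤ B * ∏ p ∈ S, ω p) :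
    ∑ i ∈ s, ∏ p ∈ P with E i p, (1 + γ p) ≤ B * exp (∑ p ∈ P, γ p * ω p) := by
  have e : ∀ i, ∏ p ∈ P with E i p, (1 + γ p) =
      ∑ S ∈ P.powerset, if ∀ p ∈ S, E i p then ∏ p ∈ S, γ p else 0 := fun i => by
    rw [prod_one_add, ← sum_filter]
    refine sum_congr ?_ fun _ _ => rfl
    ext S
    simp only [mem_powerset, mem_filter, subset_iff]
    exact ⟨fun h => ⟨fun p hp => (h hp).1, fun p hp => (h hp).2⟩,
      fun h p hp => ⟨h.1 hp, h.2 p hp⟩⟩
  simp only [e]
  rw [sum_comm]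
  refine le_trans ?_ (mul_le_mul_of_nonneg_left (prod_le_exp_sum P _
    fun p hp => mul_nonneg (hγ p hp) (hω p hp)) hB0)
  rw [prod_one_add, mul_sum]
  refine sum_le_sum fun S hS => ?_
  have hS' := mem_powerset.1 hS
  rw [← sum_filter, sum_const, nsmul_eq_mul, prod_mul_distrib, mul_comm (∏ p ∈ S, γ p), ← mul_assoc]
  exact mul_le_mul_of_nonneg_right (hB S hS') (prod_nonneg fun p hp => hγ p (hS' hp))

theorem prod_dvd_iff {S : Finset ℕ} (hS : ∀ p ∈ S, p.Prime) {n : ℕ} :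
    ∏ p ∈ S, p ∣ n ↔ ∀ p ∈ S, p ∣ n :=
  ⟨fun h p hp => (dvd_prod_of_mem _ hp).trans h,
    fun h => Finset.prod_primes_dvd n (fun p hp => (hS p hp).prime) h⟩

/-- The factor `h / φ(h)`. -/
noncomputable def sg (h : ℕ) : ℝ := ∏ p ∈ h.primeFactors, (p : ℝ) / (p - 1)

theorem one_le_ratio {p : ℕ} (hp : p.Prime) : (1 : ℝ) ≤ p / (p - 1) := by
  have : (2 : ℝ) ≤ p := by exact_mod_cast hp.two_le
  rw [le_div_iff₀ (by linarith)]; linarith

theorem one_le_sg (h : ℕ) : 1 ≤ sg h :=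
  le_of_eq_of_le prod_const_one.symm (prod_le_prod (fun _ _ => zero_le_one)
    fun _ hp => one_le_ratio (Nat.prime_of_mem_primeFactors hp))

theorem sum_sg_sq (H : ℕ) : ∑ h ∈ Icc 1 H, sg h ^ 2 ≤ exp 12 * H := by
  have h1 := prod_avg (Icc 1 H) (Nat.primesLE H) (fun h p => p ∣ h) (fun p => 6 / p)
    (fun p => 1 / p) (fun _ _ => by positivity) (fun _ _ => by positivity) (Nat.cast_nonneg H)
    fun S hS => by
      have hS' : ∀ p ∈ S, p.Prime := fun p hp => (Nat.mem_primesLE.1 (hS hp)).2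
      simp only [← prod_dvd_iff hS']
      rw [show Icc 1 H = Ioc 0 H from rfl, Nat.Ioc_filter_dvd_card_eq_div, prod_div_distrib,
        prod_const_one, ← Nat.cast_prod, mul_one_div]
      exact Nat.cast_div_le
  have h2 : ∑ p ∈ Nat.primesLE H, 6 / (p : ℝ) * (1 / p) ≤ 12 := by
    have := sum_inv_sq_le H
    calc _ ≤ ∑ n ∈ Icc 1 H, 6 * ((1 : ℝ) / n ^ 2) :=
          sum_le_sum_inj id (Set.injOn_id _) (fun p hp => mem_Icc.2
            ⟨(Nat.mem_primesLE.1 hp).2.pos, (Nat.mem_primesLE.1 hp).1⟩)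
            (fun p _ => le_of_eq (by simp only [id]; ring)) fun _ _ => by positivity
      _ ≤ 12 := by rw [← mul_sum]; linarith
  refine le_trans (sum_le_sum fun h hh => ?_) (h1.trans ?_)
  · have h0 := mem_Icc.1 hh
    have : (Nat.primesLE H).filter (· ∣ h) = h.primeFactors := by
      ext p
      simp only [mem_filter, Nat.mem_primesLE, Nat.mem_primeFactors]
      exact ⟨fun a => ⟨a.1.2, a.2, by omega⟩,
        fun a => ⟨⟨(Nat.le_of_dvd h0.1 a.2.1).trans h0.2, a.1⟩, a.2.1⟩⟩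
    rw [this, sg, ← prod_pow]
    refine prod_le_prod (fun _ _ => sq_nonneg _) fun p hp => ?_
    have : (2 : ℝ) ≤ p := by exact_mod_cast (Nat.prime_of_mem_primeFactors hp).two_le
    rw [div_pow, div_le_iff₀ (by nlinarith), add_mul, div_mul_eq_mul_div, ← sub_le_iff_le_add',
      le_div_iff₀ (by linarith)]
    nlinarith
  · rw [mul_comm]
    exact mul_le_mul_of_nonneg_right (exp_le_exp.2 h2) (Nat.cast_nonneg _)

/-- Squarefree numbers up to `z` without prime factors up to `Q`. -/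
def Rg (Q z : ℕ) : Finset ℕ :=
  (Icc 1 z).filter fun r => Squarefree r ∧ ∀ p ∈ r.primeFactors, Q < p

theorem log_le_rough (Q z : ℕ) :
    log z ≤ 2 * ((∏ p ∈ Nat.primesLE Q, (1 + 1 / (p : ℝ))) * ∑ r ∈ Rg Q z, 1 / (r : ℝ)) := by
  refine (log_le_sqfree_sum z).trans (mul_le_mul_of_nonneg_left ?_ (by norm_num))
  have e : ∑ l ∈ Icc 1 z, (μ l : ℝ) ^ 2 / l = ∑ l ∈ Icc 1 z with Squarefree l, 1 / (l : ℝ) := by
    rw [sum_filter]
    refine sum_congr rfl fun l _ => ?_
    split_ifs with h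
    · have : (μ l : ℝ) ^ 2 = 1 := by
        exact_mod_cast ArithmeticFunction.moebius_sq_eq_one_of_squarefree h
      rw [this]
    · simp [ArithmeticFunction.moebius_eq_zero_of_not_squarefree h]
  rw [e, prod_one_add, sum_mul_sum, ← sum_product']
  have key : ∀ l, Squarefree l → (∏ p ∈ l.primeFactors with p ≤ Q, p) *
      ∏ p ∈ l.primeFactors with ¬ p ≤ Q, p = l := fun l hl => by
    rw [prod_filter_mul_prod_filter_not, Nat.prod_primeFactors_of_squarefree hl]
  refine sum_le_sum_inj (fun l => (l.primeFactors.filter (· ≤ Q),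
    ∏ p ∈ l.primeFactors with ¬ p ≤ Q, p)) ?_ ?_ ?_ fun x _ => by positivity
  · intro l hl l' hl' h
    simp only [Prod.mk.injEq] at h
    rw [← key l (mem_filter.1 hl).2, ← key l' (mem_filter.1 hl').2, h.1, h.2]
  · intro l hl
    obtain ⟨h1, h2⟩ := mem_filter.1 hl
    have h3 := Dvd.intro_left _ (key l h2)
    have h4 := mem_Icc.1 h1
    refine mem_product.2 ⟨mem_powerset.2 fun p hp => ?_, mem_filter.2 ⟨mem_Icc.2
      ⟨Nat.pos_of_dvd_of_pos h3 h4.1, (Nat.le_of_dvd h4.1 h3).trans h4.2⟩,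
      h2.squarefree_of_dvd h3, fun p hp => ?_⟩⟩
    · obtain ⟨a, b⟩ := mem_filter.1 hp
      exact Nat.mem_primesLE.2 ⟨b, Nat.prime_of_mem_primeFactors a⟩
    · rw [Nat.primeFactors_prod fun p hp => Nat.prime_of_mem_primeFactors (mem_filter.1 hp).1] at hp
      exact not_le.1 (mem_filter.1 hp).2
  · intro l hl
    conv_lhs => rw [← key l (mem_filter.1 hl).2]
    simp only [prod_div_distrib, prod_const_one]
    push_cast
    rw [div_mul_div_comm, one_mul]

/-- The density of numbers without prime factors up to `z`. -/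
noncomputable def VV (z : ℕ) : ℝ := ∏ p ∈ Nat.primesLE z, (1 - 1 / (p : ℝ))

theorem one_sub_inv_pos {p : ℕ} (hp : p.Prime) : (0 : ℝ) < 1 - 1 / p := by
  have : (2 : ℝ) ≤ p := by exact_mod_cast hp.two_le
  rw [sub_pos, div_lt_one (by linarith)]; linarith

theorem VV_pos (z : ℕ) : 0 < VV z := prod_pos fun _ hp => one_sub_inv_pos (Nat.mem_primesLE.1 hp).2

theorem VV_le (z : ℕ) : VV z * log z ≤ 2 := by
  have h1 := log_le_rough z z
  have h2 : ∑ r ∈ Rg z z, 1 / (r : ℝ) ≤ 1 := by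
    refine (sum_le_sum_of_subset_of_nonneg (t := {1}) (fun r hr => ?_)
      fun _ _ _ => by positivity).trans (by simp)
    obtain ⟨h1, -, h2⟩ := mem_filter.1 hr
    rw [mem_singleton]
    by_contra h
    have h3 := mem_Icc.1 h1
    have h4 := Nat.minFac_prime h
    have := h2 _ (Nat.mem_primeFactors.2 ⟨h4, Nat.minFac_dvd r, by omega⟩)
    have := Nat.minFac_le h3.1
    omega
  have h3 : VV z * ∏ p ∈ Nat.primesLE z, (1 + 1 / (p : ℝ)) ≤ 1 := by
    rw [VV, ← prod_mul_distrib]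
    refine prod_le_one (fun p hp => ?_) fun p _ => ?_
    · have := one_sub_inv_pos (Nat.mem_primesLE.1 hp).2
      positivity
    · nlinarith [sq_nonneg (1 / (p : ℝ))]
  have h4 := VV_pos z
  have h5 : 0 ≤ ∏ p ∈ Nat.primesLE z, (1 + 1 / (p : ℝ)) := prod_nonneg fun _ _ => by positivity
  have h6 := mul_le_mul_of_nonneg_left h2 h5
  nlinarith

theorem pow_card_le {C ε : ℝ} (hC : 1 ≤ C) (hε : 0 < ε) : ∃ D : ℝ, 1 ≤ D ∧ ∀ S : Finset ℕ,
    (∀ p ∈ S, 1 ≤ p) → C ^ S.card ≤ D * ((∏ p ∈ S, p : ℕ) : ℝ) ^ ε := by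
  obtain ⟨n, hn⟩ := exists_nat_ge (C ^ (1 / ε))
  refine ⟨C ^ n, one_le_pow₀ hC, fun S hS => ?_⟩
  rw [← prod_const, ← prod_filter_mul_prod_filter_not S (· < n)]
  refine mul_le_mul ?_ ?_ (prod_nonneg fun _ _ => by linarith) (by positivity)
  · rw [prod_const]
    refine pow_le_pow_right₀ hC ?_
    calc _ ≤ (range n).card := card_le_card fun p hp => mem_range.2 (mem_filter.1 hp).2
      _ = n := card_range n
  · rw [Nat.cast_prod, ← finsetProd_rpow _ _ fun _ _ => Nat.cast_nonneg _]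
    refine le_trans (prod_le_prod (fun _ _ => by linarith) fun p hp => ?_)
      (prod_le_prod_of_subset_of_one_le (filter_subset _ S) (fun _ _ => by positivity)
        fun p hp _ => one_le_rpow (by exact_mod_cast hS p hp) hε.le)
    have h1 : C ^ (1 / ε) ≤ p := hn.trans (by exact_mod_cast not_lt.1 (mem_filter.1 hp).2)
    have := rpow_le_rpow (by positivity) h1 hε.le
    rwa [← rpow_mul (by linarith), one_div_mul_cancel hε.ne', rpow_one] at this

theorem small_mertens {C : ℝ} (hC : 0 < C) (e : ℕ) : ∃ D : ℝ, 1 ≤ D ∧ ∀ t : ℕ, 1 ≤ t →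
    ∏ p ∈ Nat.primesLE (t ^ e), (1 + C / (p : ℝ)) ≤ D * t := by
  obtain ⟨n, hn⟩ := exists_nat_ge (exp (C * (e + 6)))
  refine ⟨exp (C * n + 1), one_le_exp (by positivity), fun t ht => ?_⟩
  have t0 : (0 : ℝ) < t := by exact_mod_cast ht
  have t1 : 0 ≤ log t := log_natCast_nonneg t
  refine (prod_le_exp_sum _ _ fun _ _ => by positivity).trans ?_
  rw [← exp_log t0, ← exp_add, exp_le_exp, ← sum_filter_add_sum_filter_not _ (· < n)]
  have h1 : ∑ p ∈ Nat.primesLE (t ^ e) with p < n, 1 / (p : ℝ) ≤ n := by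
    calc _ ≤ ∑ p ∈ range n, (1 : ℝ) := sum_le_sum_inj id (Set.injOn_id _)
          (fun p hp => mem_range.2 (mem_filter.1 hp).2) (fun p hp => by
            rcases Nat.eq_zero_or_pos p with rfl | h
            · simp
            · exact div_le_one_of_le₀ (by exact_mod_cast h) (Nat.cast_nonneg _))
          fun _ _ => zero_le_one
      _ = n := by simp
  have h2 := sum_inv_prime ((Nat.primesLE (t ^ e)).filter fun p => ¬ p < n) (l := C * (e + 6))
    (u := e * log t) (by positivity) (by positivity) fun p hp => by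
      obtain ⟨a, b⟩ := mem_filter.1 hp
      obtain ⟨c, d⟩ := Nat.mem_primesLE.1 a
      have p0 : (0 : ℝ) < p := by exact_mod_cast d.pos
      refine ⟨d, (le_log_iff_exp_le p0).2 (hn.trans (by exact_mod_cast not_lt.1 b)), ?_⟩
      have := log_le_log p0 (show (p : ℝ) ≤ t ^ e by exact_mod_cast c)
      rwa [log_pow] at this
  have h3 : C * ((e * log t + 6) / (C * (e + 6))) ≤ 1 + log t := by
    rw [← mul_div_assoc, mul_div_mul_left _ _ hC.ne', div_le_iff₀ (by positivity)]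
    nlinarith [Nat.cast_nonneg (α := ℝ) e]
  simp only [div_eq_mul_one_div C, ← mul_sum]
  nlinarith [mul_le_mul_of_nonneg_left h1 hC.le, mul_le_mul_of_nonneg_left h2 hC.le]

end Pool.Agent.Lib.MP_488d93_nt
end

-- part Pool.Agent.Lib.MP_488d93_nt.Brun
section

/-! The Brun-Hooley sieve. -/

set_option autoImplicit false

namespace Pool.Agent.Lib.MP_488d93_nt

open Finset Real

/-- Symmetric multilinear forms. -/
noncomputable def sy (c : ℕ → ℝ) (I : Finset ℕ) (a : ℕ → ℝ) : ℝ :=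
  ∑ S ∈ I.powerset, c S.card * ∏ p ∈ S, a p

theorem sy_insert (c : ℕ → ℝ) {I : Finset ℕ} {p : ℕ} (hp : p ∉ I) (a : ℕ → ℝ) :
    sy c (insert p I) a = sy c I a + a p * sy (fun n => c (n + 1)) I a := by
  unfold sy
  rw [sum_powerset_insert hp, mul_sum]
  congr 1
  refine sum_congr rfl fun S hS => ?_
  have : p ∉ S := fun h => hp (mem_powerset.1 hS h)
  rw [card_insert_of_notMem this, prod_insert this]; ring

/-- Truncated signs. -/
def alt (k n : ℕ) : ℝ := if n ≤ k then (-1) ^ n else 0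

/-- Coefficients of the elementary symmetric polynomials. -/
def el (k n : ℕ) : ℝ := if n = k then 1 else 0

theorem sy_el_zero (I : Finset ℕ) (a : ℕ → ℝ) : sy (el 0) I a = 1 := by
  unfold sy el
  rw [sum_eq_single ∅ (fun S _ h => by simp [h]) (by simp)]; simp

theorem bonf {I : Finset ℕ} {a : ℕ → ℝ} (h : ∀ p ∈ I, 0 ≤ a p ∧ a p ≤ 1) (k : ℕ) :
    0 ≤ (-1) ^ k * (sy (alt k) I a - ∏ p ∈ I, (1 - a p)) ∧
      (-1) ^ k * (sy (alt k) I a - ∏ p ∈ I, (1 - a p)) ≤ sy (el (k + 1)) I a := by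
  induction I using Finset.induction_on generalizing k with
  | empty => simp [sy, alt, el]
  | insert p I hp ih =>
    have ih' := ih fun q hq => h q (mem_insert_of_mem hq)
    obtain ⟨a0, a1⟩ := h p (mem_insert_self _ _)
    have e : (fun n => el (k + 1) (n + 1)) = el k := by funext n; simp [el]
    rw [sy_insert _ hp, sy_insert _ hp, prod_insert hp, e]
    cases k with
    | zero =>
      have e2 : sy (fun n => alt 0 (n + 1)) I a = 0 := by simp [sy, alt]
      have b0 : 0 ≤ ∏ p ∈ I, (1 - a p) :=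
        prod_nonneg fun q hq => by linarith [(h q (mem_insert_of_mem hq)).2]
      have b1 : ∏ p ∈ I, (1 - a p) ≤ 1 :=
        prod_le_one (fun q hq => by linarith [(h q (mem_insert_of_mem hq)).2])
          fun q hq => by linarith [(h q (mem_insert_of_mem hq)).1]
      obtain ⟨c1, c2⟩ := ih' 0
      rw [e2, sy_el_zero]
      constructor <;> nlinarith
    | succ k =>
      have e2 : sy (fun n => alt (k + 1) (n + 1)) I a = -sy (alt k) I a := by
        unfold sy
        rw [← sum_neg_distrib]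
        refine sum_congr rfl fun S _ => ?_
        simp only [alt, Nat.add_le_add_iff_right]
        split_ifs <;> ring
      obtain ⟨c1, c2⟩ := ih' k
      obtain ⟨c3, c4⟩ := ih' (k + 1)
      rw [e2]
      rw [pow_succ] at *
      constructor <;> nlinarith [mul_le_mul_of_nonneg_left c2 a0, mul_nonneg a0 c1]

theorem sy_el_nonneg {I : Finset ℕ} {a : ℕ → ℝ} (h : ∀ p ∈ I, 0 ≤ a p) (k : ℕ) :
    0 ≤ sy (el k) I a :=
  sum_nonneg fun S hS => mul_nonneg (by unfold el; split_ifs <;> norm_num)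
    (prod_nonneg fun p hp => h p (mem_powerset.1 hS hp))

theorem sy_el_le {I : Finset ℕ} {a : ℕ → ℝ} (h : ∀ p ∈ I, 0 ≤ a p) (k : ℕ) :
    sy (el k) I a ≤ exp (2 * ∑ p ∈ I, a p) / 2 ^ k := by
  rw [le_div_iff₀ (by positivity), mul_sum]
  refine le_trans ?_ (prod_le_exp_sum I _ fun p hp => by linarith [h p hp])
  rw [prod_one_add, sy, sum_mul]
  refine sum_le_sum fun S hS => ?_
  have : 0 ≤ ∏ p ∈ S, a p := prod_nonneg fun p hp => h p (mem_powerset.1 hS hp)
  rw [prod_mul_distrib, prod_const]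
  unfold el
  split_ifs with e
  · rw [e]; linarith
  · simp only [zero_mul]; positivity

theorem blockprod (b : ℕ → ℕ) (φ : ℕ → Finset ℕ → ℝ) (J : Finset ℕ) :
    ∀ P : Finset ℕ, (∀ p ∈ P, b p ∈ J) →
      ∑ S ∈ P.powerset, ∏ j ∈ J, φ j (S.filter (b · = j)) =
        ∏ j ∈ J, ∑ S ∈ (P.filter (b · = j)).powerset, φ j S := by
  induction J using Finset.induction_on with
  | empty =>
    intro P hP
    have : P = ∅ := eq_empty_of_forall_notMem fun p hp => by simpa using hP p hp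
    simp [this]
  | insert j J hj ih =>
    intro P hP
    have e : ∀ S : Finset ℕ, ∀ i ∈ J, (S.filter (¬ b · = j)).filter (b · = i) =
        S.filter (b · = i) := fun S i hi => by
      rw [filter_filter]
      exact filter_congr fun p _ => ⟨fun h => h.2, fun h => ⟨fun h' => hj (h' ▸ h ▸ hi), h⟩⟩
    have := ih (P.filter (¬ b · = j)) fun p hp =>
      (mem_insert.1 (hP p (mem_filter.1 hp).1)).resolve_left (mem_filter.1 hp).2
    simp only [prod_insert hj]
    rw [← prod_congr rfl fun i hi => congrArg (fun X : Finset ℕ => ∑ S ∈ X.powerset, φ i S)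
      (e P i hi), ← this, sum_mul_sum, ← sum_product']
    refine sum_nbij' (fun S => (S.filter (b · = j), S.filter (¬ b · = j))) (fun x => x.1 ∪ x.2)
      ?_ ?_ ?_ ?_ ?_
    · intro S hS
      simp only [mem_product, mem_powerset] at hS ⊢
      exact ⟨filter_subset_filter _ hS, filter_subset_filter _ hS⟩
    · intro x hx
      simp only [mem_product, mem_powerset] at hx ⊢
      exact union_subset (hx.1.trans (filter_subset _ _)) (hx.2.trans (filter_subset _ _))
    · intro S _; exact filter_union_filter_not_eq _ _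
    · intro x hx
      simp only [mem_product, mem_powerset, subset_iff, mem_filter] at hx
      ext p <;> simp only [mem_filter, mem_union]
      · exact ⟨fun h => h.1.elim id fun h' => absurd h.2 (hx.2 h').2,
          fun h => ⟨Or.inl h, (hx.1 h).2⟩⟩
      · exact ⟨fun h => h.1.elim (fun h' => absurd (hx.1 h').2 h.2) id,
          fun h => ⟨Or.inr h, (hx.2 h).2⟩⟩
    · intro S _
      congr 1
      exact prod_congr rfl fun i hi => by rw [e S i hi]

/-- Multilinear forms. -/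
noncomputable def ML (lam : Finset ℕ → ℝ) (P : Finset ℕ) (y : ℕ → ℝ) : ℝ :=
  ∑ S ∈ P.powerset, lam S * ∏ p ∈ S, y p

/-- The block of a prime. -/
def bl (z p : ℕ) : ℕ := Nat.log 2 (Nat.log p z)

theorem bl_mem (z p : ℕ) : bl z p ∈ range (z + 1) :=
  mem_range.2 (Nat.lt_succ_of_le ((Nat.log_le_self _ _).trans (Nat.log_le_self _ _)))

theorem bl_spec {z p : ℕ} (hp : p.Prime) (hz : p ≤ z) :
    2 ^ bl z p * log p ≤ log z ∧ log z ≤ 2 ^ (bl z p + 1) * log p := by
  have z0 : z ≠ 0 := by have := hp.pos; omega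
  have h1 : Nat.log p z ≠ 0 := (Nat.log_pos hp.one_lt hz).ne'
  have h2 : p ^ 2 ^ bl z p ≤ z :=
    (Nat.pow_le_pow_right hp.pos (Nat.pow_log_le_self 2 h1)).trans (Nat.pow_log_le_self p z0)
  have h3 : z ≤ p ^ 2 ^ (bl z p + 1) := (Nat.lt_pow_succ_log_self hp.one_lt z).le.trans
    (Nat.pow_le_pow_right hp.pos (Nat.lt_pow_succ_log_self one_lt_two _))
  have p0 : (0 : ℝ) < p := by exact_mod_cast hp.pos
  have h4 := log_le_log (by positivity) (show ((p : ℝ)) ^ 2 ^ bl z p ≤ z by exact_mod_cast h2)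
  have h5 := log_le_log (by positivity)
    (show (z : ℝ) ≤ ((p : ℝ)) ^ 2 ^ (bl z p + 1) by exact_mod_cast h3)
  rw [log_pow] at h4 h5
  push_cast at h4 h5
  exact ⟨h4, h5⟩

theorem block_sum {z : ℕ} {P : Finset ℕ} (hP : ∀ p ∈ P, p.Prime ∧ p ≤ z) (j : ℕ) :
    ∑ p ∈ P with bl z p = j, (1 : ℝ) / p ≤ 11 := by
  set l := max (log z / 2 ^ (j + 1)) (2 / 3) with hl
  have l1 : 2 / 3 ≤ l := le_max_right _ _
  have l2 : log z / 2 ^ (j + 1) ≤ l := le_max_left _ _
  refine (sum_inv_prime _ (l := l) (u := 2 * l) (by linarith) (by linarith) fun p hp => ?_).trans ?_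
  · obtain ⟨h1, rfl⟩ := mem_filter.1 hp
    obtain ⟨h2, h3⟩ := hP p h1
    obtain ⟨h4, h5⟩ := bl_spec h2 h3
    refine ⟨h2, max_le ?_ ?_, ?_⟩
    · rw [div_le_iff₀' (by positivity)]; exact h5
    · have := log_le_log two_pos (show (2 : ℝ) ≤ p by exact_mod_cast h2.two_le)
      linarith [log_two_gt_d9]
    · rw [div_le_iff₀ (by positivity), pow_succ] at l2
      have : (0 : ℝ) < 2 ^ bl z p := by positivity
      nlinarith
  · rw [div_le_iff₀ (by linarith)]; linarith

/-- Coefficients that are products over the blocks. -/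
noncomputable def cf (c : ℕ → ℕ → ℝ) (z : ℕ) (S : Finset ℕ) : ℝ :=
  ∏ j ∈ range (z + 1), c j (S.filter (bl z · = j)).card

theorem ML_cf (c : ℕ → ℕ → ℝ) (z : ℕ) (P : Finset ℕ) (y : ℕ → ℝ) :
    ML (cf c z) P y = ∏ j ∈ range (z + 1), sy (c j) (P.filter (bl z · = j)) y := by
  unfold ML sy cf
  rw [← blockprod (bl z) (fun j S => c j S.card * ∏ p ∈ S, y p) _ P fun p _ => bl_mem z p]
  refine sum_congr rfl fun S _ => ?_
  rw [prod_mul_distrib, prod_fiberwise_of_maps_to fun p _ => bl_mem z p]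

theorem abs_cf_le {c : ℕ → ℕ → ℝ} (h : ∀ j n, |c j n| ≤ 1) (z : ℕ) (S : Finset ℕ) :
    |cf c z S| ≤ 1 := by
  rw [cf, abs_prod]
  exact prod_le_one (fun _ _ => abs_nonneg _) fun _ _ => h _ _

theorem cf_level {c : ℕ → ℕ → ℝ} {t z : ℕ} (h : ∀ j n, 2 * (t + j) + 1 < n → c j n = 0)
    {S : Finset ℕ} (hS : ∀ p ∈ S, p.Prime ∧ p ≤ z) (hz : 1 ≤ z) (h0 : cf c z S ≠ 0) :
    ∏ p ∈ S, p ≤ z ^ (4 * t + 6) := by
  have z0 : (0 : ℝ) < z := by exact_mod_cast hz
  have l0 : 0 ≤ log z := log_natCast_nonneg z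
  have h1 : ∀ n : ℕ, ∑ j ∈ range n, ((2 * (t + j) + 1 : ℝ)) / 2 ^ j =
      4 * t + 6 - (4 * t + 4 * n + 6) / 2 ^ n := by
    intro n
    induction n with
    | zero => simp
    | succ n ih => rw [sum_range_succ, ih]; push_cast; field_simp; ring
  have p0 : ∀ p ∈ S, (p : ℝ) ≠ 0 := fun p hp => by exact_mod_cast (hS p hp).1.ne_zero
  rw [← Nat.cast_le (α := ℝ), Nat.cast_prod, Nat.cast_pow,
    ← log_le_log_iff (prod_pos fun p hp => by exact_mod_cast (hS p hp).1.pos) (by positivity),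
    log_prod p0, log_pow, ← sum_fiberwise_of_maps_to fun p _ => bl_mem z p]
  calc _ ≤ ∑ j ∈ range (z + 1), ((2 * (t + j) + 1 : ℝ)) / 2 ^ j * log z := by
        refine sum_le_sum fun j hj => ?_
        have h2 : (S.filter (bl z · = j)).card ≤ 2 * (t + j) + 1 :=
          not_lt.1 fun h' => h0 (prod_eq_zero hj (h _ _ h'))
        refine (sum_le_card_nsmul _ _ (log z / 2 ^ j) fun p hp => ?_).trans ?_
        · obtain ⟨h3, rfl⟩ := mem_filter.1 hp
          rw [le_div_iff₀' (by positivity)]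
          exact (bl_spec (hS p h3).1 (hS p h3).2).1
        · rw [nsmul_eq_mul, div_mul_eq_mul_div, mul_div_assoc]
          exact mul_le_mul_of_nonneg_right (by exact_mod_cast h2) (by positivity)
    _ ≤ _ := by
        rw [← sum_mul, h1]
        refine mul_le_mul_of_nonneg_right ?_ l0
        push_cast
        rw [sub_le_self_iff]; positivity

theorem card_level {P : Finset ℕ} (hP : ∀ p ∈ P, p.Prime) {lam : Finset ℕ → ℝ} {R : ℕ}
    (h : ∀ S ⊆ P, lam S ≠ 0 → ∏ p ∈ S, p ≤ R) :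
    (P.powerset.filter (lam · ≠ 0)).card ≤ R := by
  calc _ ≤ (Icc 1 R).card := by
        refine card_le_card_of_injOn (fun S => ∏ p ∈ S, p) (fun S hS => ?_) fun S hS T hT e => ?_
        · obtain ⟨h1, h2⟩ := mem_filter.1 hS
          exact mem_Icc.2 ⟨prod_pos fun p hp => (hP p (mem_powerset.1 h1 hp)).pos,
            h S (mem_powerset.1 h1) h2⟩
        · have h1 := mem_powerset.1 (mem_filter.1 hS).1
          have h2 := mem_powerset.1 (mem_filter.1 hT).1
          rw [← Nat.primeFactors_prod fun p hp => hP p (h1 hp),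
            ← Nat.primeFactors_prod fun p hp => hP p (h2 hp)]
          exact congrArg _ e
    _ = R := by simp

theorem ML_mean {P : Finset ℕ} (hP : ∀ p ∈ P, p.Prime) {lam : Finset ℕ → ℝ} {R : ℕ}
    (h1 : ∀ S, |lam S| ≤ 1) (h : ∀ S ⊆ P, lam S ≠ 0 → ∏ p ∈ S, p ≤ R) (f : ℕ → ℕ → ℝ)
    (hf : ∀ p n, f p (n % p) = f p n) (hb : ∀ p n, |f p n| ≤ 1) {a b : ℕ} (hab : a ≤ b) :
    |∑ n ∈ Ico a b, ML lam P (f · n) - (b - a) * ML lam P fun p => (∑ n ∈ range p, f p n) / p| ≤
      4 * R ^ 2 := by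
  unfold ML
  rw [sum_comm, mul_sum, ← sum_sub_distrib, ← sum_filter_of_ne (p := (lam · ≠ 0))
    fun S _ h0 e => h0 (by simp [e])]
  refine (abs_sum_le_sum_abs _ _).trans ((sum_le_card_nsmul _ _ (4 * R : ℝ) fun S hS => ?_).trans ?_)
  · obtain ⟨h2, h3⟩ := mem_filter.1 hS
    have h4 := mem_powerset.1 h2
    have := crt_mean S (fun p hp => hP p (h4 hp)) f hf one_pos (fun n => by
      rw [abs_prod]; exact prod_le_one (fun _ _ => abs_nonneg _) fun _ _ => hb _ _) hab
    rw [← mul_sum, mul_left_comm, ← mul_sub, abs_mul]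
    have h5 : ((∏ p ∈ S, p : ℕ) : ℝ) ≤ R := by exact_mod_cast h S h4 h3
    refine (mul_le_of_le_one_left (abs_nonneg _) (h1 S)).trans (this.trans (by linarith))
  · have : ((P.powerset.filter (lam · ≠ 0)).card : ℝ) ≤ R := by exact_mod_cast card_level hP h
    rw [nsmul_eq_mul]
    nlinarith [Nat.cast_nonneg (α := ℝ) R]

theorem prod_sub_le {ι : Type*} [DecidableEq ι] (J : Finset ι) {a b : ι → ℝ}
    (h : ∀ j ∈ J, 0 ≤ b j ∧ b j ≤ a j) :
    ∏ j ∈ J, a j - ∏ j ∈ J, b j ≤ ∑ j ∈ J, (a j - b j) * ∏ i ∈ J.erase j, a i := by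
  induction J using Finset.induction_on with
  | empty => simp
  | insert k J hk ih =>
    have h' := fun j hj => h j (mem_insert_of_mem hj)
    have := ih h'
    obtain ⟨c1, c2⟩ := h k (mem_insert_self _ _)
    have e : ∑ j ∈ J, (a j - b j) * ∏ i ∈ (insert k J).erase j, a i =
        a k * ∑ j ∈ J, (a j - b j) * ∏ i ∈ J.erase j, a i := by
      rw [mul_sum]
      refine sum_congr rfl fun j hj => ?_
      rw [erase_insert_of_ne (ne_of_mem_of_not_mem hj hk).symm,
        prod_insert fun h => hk (mem_of_mem_erase h)]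
      ring
    have c3 : ∏ j ∈ J, b j ≤ ∏ j ∈ J, a j := prod_le_prod (fun j hj => (h' j hj).1)
      fun j hj => (h' j hj).2
    rw [prod_insert hk, prod_insert hk, sum_insert hk, erase_insert hk, e]
    nlinarith [mul_le_mul_of_nonneg_left this (c1.trans c2), mul_le_mul_of_nonneg_left c3 (sub_nonneg.2 c2)]

end Pool.Agent.Lib.MP_488d93_nt
end

-- part Pool.Agent.Lib.MP_488d93_nt.Brun2
section

/-! Existence of sieve weights with all the properties used later. -/

set_option autoImplicit false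

namespace Pool.Agent.Lib.MP_488d93_nt

open Finset Real Filter Topology

/-- Indicator of divisibility. -/
def dv (m p : ℕ) : ℝ := if p ∣ m then 1 else 0

theorem dv_mem (m p : ℕ) : 0 ≤ dv m p ∧ dv m p ≤ 1 := by unfold dv; split_ifs <;> norm_num

theorem dv_mod (p n : ℕ) : dv (n % p) p = dv n p := by
  simp only [dv, Nat.dvd_mod_iff dvd_rfl]

theorem dv_mean {p : ℕ} (hp : 0 < p) : (∑ n ∈ range p, dv n p) / p = 1 / p := by
  unfold dv
  rw [sum_eq_single 0 (fun n hn h => if_neg (Nat.not_dvd_of_pos_of_lt (Nat.pos_of_ne_zero h)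
    (mem_range.1 hn))) (by simp [hp.ne'])]
  simp

/-- Properties of the sieve weights. -/
structure IsBH (ε : ℝ) (κ z : ℕ) (P : Finset ℕ) (lam : Finset ℕ → ℝ) : Prop where
  abs_le : ∀ S, |lam S| ≤ 1
  lev : ∀ S ⊆ P, lam S ≠ 0 → ∏ p ∈ S, p ≤ z ^ κ
  low : ∀ y : ℕ → ℝ, (∀ p ∈ P, 0 ≤ y p ∧ y p ≤ 1) → ∏ p ∈ P, (1 - y p) ≤ ML lam P y
  up : ∀ x : ℕ → ℝ, (∀ p ∈ P, 0 ≤ x p ∧ x p ≤ 2 / 3 ∧ x p ≤ 2 / p) →
    ML lam P x ≤ 2 * ∏ p ∈ P, (1 - x p)
  coef : ∀ T ⊆ P, |∑ S ∈ P.powerset with T ⊆ S, lam S * ∏ p ∈ S, (1 : ℝ) / p| ≤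
    2 * (∏ p ∈ P, (1 - (1 : ℝ) / p)) * (exp 88 ^ T.card * ∏ p ∈ T, (1 : ℝ) / p)
  err : ∀ a b : ℕ, a ≤ b → ∑ m ∈ Ico a b, (ML lam P (dv m) - ∏ p ∈ P, (1 - dv m p)) ≤
    ε * (b - a) * ∏ p ∈ P, (1 - (1 : ℝ) / p) + 4 * (z + 1) * (z ^ κ : ℕ) ^ 2

theorem exp_le_one_sub {x : ℝ} (h0 : 0 ≤ x) (h1 : x ≤ 2 / 3) : exp (-(3 * x)) ≤ 1 - x := by
  have h2 := add_one_le_exp (3 * x)
  rw [exp_neg, inv_le_comm₀ (exp_pos _) (by linarith), inv_eq_one_div]
  refine le_trans ?_ h2
  rw [div_le_iff₀ (by linarith)]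
  nlinarith

theorem block_est {z : ℕ} {P : Finset ℕ} (hP : ∀ p ∈ P, p.Prime ∧ p ≤ z) {x : ℕ → ℝ}
    (hx : ∀ p ∈ P, 0 ≤ x p ∧ x p ≤ 2 / 3 ∧ x p ≤ 2 / p) (j : ℕ) :
    ∑ p ∈ P with bl z p = j, x p ≤ 22 ∧ 1 ≤ exp 66 * ∏ p ∈ P with bl z p = j, (1 - x p) := by
  have h1 : ∑ p ∈ P with bl z p = j, x p ≤ 22 := by
    have := block_sum hP j
    calc _ ≤ ∑ p ∈ P with bl z p = j, 2 * ((1 : ℝ) / p) := sum_le_sum fun p hp => by
          rw [mul_one_div]; exact (hx p (mem_filter.1 hp).1).2.2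
      _ ≤ 22 := by rw [← mul_sum]; linarith
  refine ⟨h1, ?_⟩
  have h2 : exp (-66) ≤ ∏ p ∈ P with bl z p = j, (1 - x p) := by
    calc _ ≤ exp (∑ p ∈ P with bl z p = j, -(3 * x p)) := by
          rw [exp_le_exp, sum_neg_distrib, ← mul_sum]; linarith
      _ ≤ _ := by
          rw [exp_sum]
          exact prod_le_prod (fun _ _ => (exp_pos _).le) fun p hp =>
            exp_le_one_sub (hx p (mem_filter.1 hp).1).1 (hx p (mem_filter.1 hp).1).2.1
  have := mul_le_mul_of_nonneg_left h2 (exp_pos 66).le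
  rwa [← exp_add, add_neg_cancel, exp_zero] at this

theorem abs_alt_le (k n : ℕ) : |alt k n| ≤ 1 := by unfold alt; split_ifs <;> simp

theorem exists_BH {ε : ℝ} (hε : 0 < ε) : ∃ κ : ℕ, 1 ≤ κ ∧ ∀ (z : ℕ) (P : Finset ℕ), 1 ≤ z →
    (∀ p ∈ P, p.Prime ∧ p ≤ z) → ∃ lam, IsBH (ε / κ) κ z P lam := by
  obtain ⟨t, ht1, ht2⟩ : ∃ t : ℕ, exp 110 / 4 ^ t ≤ 1 / 2 ∧
      2 * (exp 110 / 4 ^ t) ≤ ε / (4 * t + 6 : ℕ) := by
    have h1 := tendsto_pow_const_div_const_pow_of_one_lt 1 (show (1 : ℝ) < 4 by norm_num)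
    have h0 := tendsto_pow_const_div_const_pow_of_one_lt 0 (show (1 : ℝ) < 4 by norm_num)
    have h2 := ((h1.const_mul 4).add (h0.const_mul 6)).const_mul (2 * exp 110)
    simp only [mul_zero, add_zero] at h2
    obtain ⟨t, h3, h4⟩ := ((h2.eventually (gt_mem_nhds hε)).and
      (h2.eventually (gt_mem_nhds one_pos))).exists
    have e : 2 * exp 110 * (4 * ((t : ℝ) ^ 1 / 4 ^ t) + 6 * ((t : ℝ) ^ 0 / 4 ^ t)) =
        2 * (exp 110 / 4 ^ t) * (4 * t + 6) := by ring
    rw [e] at h3 h4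
    have h5 : 0 ≤ exp 110 / 4 ^ t := by positivity
    refine ⟨t, by nlinarith [Nat.cast_nonneg (α := ℝ) t], ?_⟩
    rw [le_div_iff₀ (by positivity)]
    push_cast; exact h3.le
  refine ⟨4 * t + 6, by omega, fun z P hz hP => ⟨cf (fun j => alt (2 * (t + j))) z, ?_⟩⟩
  set e0 := exp 110 / 4 ^ t with he0
  let B : ℕ → Finset ℕ := fun j => P.filter (bl z · = j)
  let ej : ℕ → ℝ := fun j => exp 110 / 2 ^ (2 * (t + j) + 1)
  have ej0 : ∀ j, 0 ≤ ej j := fun j => by positivity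
  have hsum : ∀ n, ∑ j ∈ range n, ej j ≤ e0 := fun n => by
    have : ∑ j ∈ range n, ej j ≤ e0 - e0 / 2 ^ n := by
      induction n with
      | zero => simp
      | succ n ih =>
        rw [sum_range_succ]
        have h1 : ej n ≤ e0 / 2 ^ (n + 1) := by
          rw [he0, div_div]
          refine div_le_div_of_nonneg_left (exp_pos _).le (by positivity) ?_
          rw [show (4 : ℝ) = 2 ^ 2 by norm_num, ← pow_mul, ← pow_add]
          exact pow_le_pow_right₀ one_le_two (by omega)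
        have h2 : e0 / 2 ^ n = 2 * (e0 / 2 ^ (n + 1)) := by rw [pow_succ]; field_simp
        linarith
    have h2 : 0 ≤ e0 / 2 ^ n := by positivity
    linarith
  have hprod : ∏ j ∈ range (z + 1), (1 + ej j) ≤ 2 := by
    refine (prod_le_exp_sum _ _ fun j _ => ej0 j).trans ?_
    have h1 : exp (1 / 2) ≤ 2 := by
      have := exp_one_lt_d9
      have h2 : exp (1 / 2) * exp (1 / 2) = exp 1 := by rw [← exp_add]; norm_num
      nlinarith [exp_pos (1 / 2)]
    exact (exp_le_exp.2 ((hsum _).trans ht1)).trans h1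
  have fib : ∀ g : ℕ → ℝ, ∏ p ∈ P, g p = ∏ j ∈ range (z + 1), ∏ p ∈ B j, g p := fun g =>
    (prod_fiberwise_of_maps_to (fun p _ => bl_mem z p) g).symm
  have bo : ∀ y : ℕ → ℝ, (∀ p ∈ P, 0 ≤ y p ∧ y p ≤ 1) → ∀ j, 0 ≤ ∏ p ∈ B j, (1 - y p) ∧
      ∏ p ∈ B j, (1 - y p) ≤ sy (alt (2 * (t + j))) (B j) y ∧ sy (alt (2 * (t + j))) (B j) y -
        ∏ p ∈ B j, (1 - y p) ≤ sy (el (2 * (t + j) + 1)) (B j) y := fun y hy j => by
    have := bonf (I := B j) (fun p hp => hy p (mem_filter.1 hp).1) (2 * (t + j))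
    rw [pow_mul, neg_one_sq, one_pow, one_mul] at this
    exact ⟨prod_nonneg fun p hp => by linarith [(hy p (mem_filter.1 hp).1).2],
      by linarith [this.1], this.2⟩
  have bx : ∀ x : ℕ → ℝ, (∀ p ∈ P, 0 ≤ x p ∧ x p ≤ 2 / 3 ∧ x p ≤ 2 / p) → ∀ j,
      0 ≤ sy (alt (2 * (t + j))) (B j) x ∧
      sy (alt (2 * (t + j))) (B j) x ≤ (∏ p ∈ B j, (1 - x p)) * (1 + ej j) ∧
      sy (el (2 * (t + j) + 1)) (B j) x ≤ ej j * ∏ p ∈ B j, (1 - x p) := fun x hx j => by
    obtain ⟨h1, h2, h3⟩ := bo x (fun p hp => ⟨(hx p hp).1, by linarith [(hx p hp).2.1]⟩) j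
    obtain ⟨h4, h5⟩ := block_est hP hx j
    have h6 : sy (el (2 * (t + j) + 1)) (B j) x ≤ ej j * ∏ p ∈ B j, (1 - x p) := by
      refine (sy_el_le (fun p hp => (hx p (mem_filter.1 hp).1).1) _).trans ?_
      rw [div_mul_eq_mul_div]
      refine div_le_div_of_nonneg_right ?_ (by positivity)
      have h7 : exp (2 * ∑ p ∈ B j, x p) ≤ exp 44 := exp_le_exp.2 (by linarith)
      have h8 : exp 110 = exp 44 * exp 66 := by rw [← exp_add]; norm_num
      rw [h8, mul_assoc]
      exact h7.trans (le_mul_of_one_le_right (exp_pos _).le h5)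
    exact ⟨h1.trans h2, by linarith, h6⟩
  have hx1 : ∀ p ∈ P, 0 ≤ (1 : ℝ) / p ∧ (1 : ℝ) / p ≤ 2 / 3 ∧ (1 : ℝ) / p ≤ 2 / p := fun p hp => by
    have : (2 : ℝ) ≤ p := by exact_mod_cast (hP p hp).1.two_le
    refine ⟨by positivity, ?_, div_le_div_of_nonneg_right one_le_two (by positivity)⟩
    rw [div_le_iff₀ (by linarith)]; linarith
  have V0 : ∀ S ⊆ P, 0 ≤ ∏ p ∈ S, (1 - (1 : ℝ) / p) := fun S hS =>
    prod_nonneg fun p hp => by linarith [(hx1 p (hS hp)).2.1]
  refine ⟨abs_cf_le (fun _ _ => abs_alt_le _ _) z, fun S hS => cf_level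
    (fun j n h => if_neg (by omega)) (fun p hp => hP p (hS hp)) hz, fun y hy => ?_, fun x hx => ?_,
    fun T hT => ?_, fun a b hab => ?_⟩
  · rw [ML_cf, fib]
    exact prod_le_prod (fun j _ => (bo y hy j).1) fun j _ => (bo y hy j).2.1
  · rw [ML_cf]
    refine (prod_le_prod (fun j _ => (bx x hx j).1) fun j _ => (bx x hx j).2.1).trans ?_
    rw [prod_mul_distrib, ← fib, mul_comm]
    exact mul_le_mul_of_nonneg_right hprod (prod_nonneg fun p hp => by linarith [(hx p hp).2.1])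
  · let φ : ℕ → Finset ℕ → ℝ := fun j S => if T.filter (bl z · = j) ⊆ S then
      alt (2 * (t + j)) S.card * ∏ p ∈ S, (1 : ℝ) / p else 0
    have e : ∑ S ∈ P.powerset with T ⊆ S, cf (fun j => alt (2 * (t + j))) z S *
        ∏ p ∈ S, (1 : ℝ) / p = ∏ j ∈ range (z + 1), ∑ S ∈ (B j).powerset, φ j S := by
      rw [← blockprod (bl z) φ _ P fun p _ => bl_mem z p, sum_filter]
      refine sum_congr rfl fun S _ => ?_
      split_ifs with h
      · rw [cf, ← prod_fiberwise_of_maps_to (s := S) (fun p _ => bl_mem z p), ← prod_mul_distrib]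
        exact prod_congr rfl fun j _ => (if_pos (filter_subset_filter _ h)).symm
      · obtain ⟨p, h1, h2⟩ := not_subset.1 h
        exact (prod_eq_zero (bl_mem z p) (if_neg fun h3 =>
          h2 (mem_filter.1 (h3 (mem_filter.2 ⟨h1, rfl⟩))).1)).symm
    have key : ∀ j, |∑ S ∈ (B j).powerset, φ j S| ≤ (∏ p ∈ B j, (1 - (1 : ℝ) / p)) * (1 + ej j) *
        ∏ p ∈ T with bl z p = j, (exp 88 * ((1 : ℝ) / p)) := fun j => by
      obtain ⟨h1, h2, -⟩ := bx _ hx1 j
      rcases (T.filter (bl z · = j)).eq_empty_or_nonempty with h | h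
      · simp only [φ, h, empty_subset, if_true, prod_empty, mul_one]
        exact abs_le.2 ⟨by
          refine le_trans ?_ h1
          linarith, h2⟩
      · obtain ⟨h4, h5⟩ := block_est hP hx1 j
        set U := T.filter (bl z · = j) with hU
        have h6 : |∑ S ∈ (B j).powerset, φ j S| ≤
            (∏ p ∈ U, (1 : ℝ) / p) * ∏ p ∈ B j, (1 + (1 : ℝ) / p) := by
          rw [prod_one_add, mul_sum]
          refine (abs_sum_le_sum_abs _ _).trans ?_
          rw [← sum_filter_of_ne (p := (U ⊆ ·)) fun S _ h0 => by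
            by_contra h'
            exact h0 (by simp only [φ, ← hU, if_neg h', abs_zero])]
          refine sum_le_sum_inj (· \ U) (fun S hS S' hS' h' => ?_) (fun S hS => ?_) (fun S hS => ?_)
            fun S _ => by positivity
          · rw [← sdiff_union_of_subset (mem_filter.1 hS).2,
              ← sdiff_union_of_subset (mem_filter.1 hS').2]
            exact congrArg (· ∪ U) h'
          · exact mem_powerset.2 (sdiff_subset.trans (mem_powerset.1 (mem_filter.1 hS).1))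
          · have h7 := (mem_filter.1 hS).2
            simp only [φ, ← hU, if_pos h7]
            rw [mul_comm (∏ p ∈ U, _), prod_sdiff h7, abs_mul, abs_of_nonneg (a := ∏ p ∈ S, _)
              (by positivity)]
            exact mul_le_of_le_one_left (by positivity) (abs_alt_le _ _)
        have h7 : ∏ p ∈ B j, (1 + (1 : ℝ) / p) ≤ exp 22 :=
          (prod_le_exp_sum _ _ fun _ _ => by positivity).trans (exp_le_exp.2 h4)
        have h8 : exp 88 ≤ exp 88 ^ U.card :=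
          le_self_pow₀ (one_le_exp (by norm_num)) h.card_pos.ne'
        have h9 : exp 88 = exp 22 * exp 66 := by rw [← exp_add]; norm_num
        have v0 := V0 (B j) (filter_subset _ _)
        rw [prod_mul_distrib, prod_const, ← mul_assoc, mul_comm]
        refine h6.trans (mul_le_mul_of_nonneg_left (h7.trans ?_) (by positivity))
        calc exp 22 ≤ exp 22 * (exp 66 * ∏ p ∈ B j, (1 - (1 : ℝ) / p)) :=
              le_mul_of_one_le_right (exp_pos _).le h5
          _ = (∏ p ∈ B j, (1 - (1 : ℝ) / p)) * 1 * exp 88 := by rw [h9]; ring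
          _ ≤ _ := by have := ej0 j; gcongr; linarith
    rw [e, abs_prod]
    refine (prod_le_prod (fun _ _ => abs_nonneg _) fun j _ => key j).trans ?_
    rw [prod_mul_distrib, prod_mul_distrib, ← fib, prod_fiberwise_of_maps_to fun p _ => bl_mem z p,
      prod_mul_distrib, prod_const, mul_comm 2]
    have := V0 P Subset.rfl
    gcongr
  · let c : ℕ → ℕ → ℕ → ℝ := fun j i => if i = j then el (2 * (t + j) + 1) else alt (2 * (t + i))
    have hc : ∀ j ∈ range (z + 1), ∀ y, ML (cf (c j) z) P y = sy (el (2 * (t + j) + 1)) (B j) y *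
        ∏ i ∈ (range (z + 1)).erase j, sy (alt (2 * (t + i))) (B i) y := fun j hj y => by
      rw [ML_cf, ← mul_prod_erase _ _ hj]
      simp only [c, if_true]
      congr 1
      exact prod_congr rfl fun i hi => by rw [if_neg (ne_of_mem_erase hi)]
    have h1 : ∀ m, ML (cf (fun j => alt (2 * (t + j))) z) P (dv m) - ∏ p ∈ P, (1 - dv m p) ≤
        ∑ j ∈ range (z + 1), ML (cf (c j) z) P (dv m) := fun m => by
      have h := bo (dv m) fun p _ => dv_mem m p
      rw [ML_cf, fib]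
      refine (prod_sub_le _ fun j _ => ⟨(h j).1, (h j).2.1⟩).trans (sum_le_sum fun j hj => ?_)
      rw [hc j hj]
      exact mul_le_mul_of_nonneg_right (h j).2.2 (prod_nonneg fun i _ => (h i).1.trans (h i).2.1)
    have ba : (0 : ℝ) ≤ b - a := sub_nonneg.2 (by exact_mod_cast hab)
    have h2 : ∀ j ∈ range (z + 1), ∑ m ∈ Ico a b, ML (cf (c j) z) P (dv m) ≤
        (b - a) * (ej j * (2 * ∏ p ∈ P, (1 - (1 : ℝ) / p))) + 4 * (z ^ (4 * t + 6) : ℕ) ^ 2 := by
      intro j hj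
      have h3 := ML_mean (fun p hp => (hP p hp).1) (lam := cf (c j) z) (R := z ^ (4 * t + 6))
        (abs_cf_le (fun i n => by
          simp only [c]
          split_ifs
          · unfold el; split_ifs <;> simp
          · exact abs_alt_le _ _) z) (fun S hS => cf_level (fun i n h => by
          simp only [c]
          split_ifs with h'
          · exact if_neg (by omega)
          · exact if_neg (by omega)) (fun p hp => hP p (hS hp)) hz) (fun p n => dv n p) dv_mod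
        (fun p n => abs_le.2 ⟨by linarith [(dv_mem n p).1], (dv_mem n p).2⟩) hab
      have h4 : ML (cf (c j) z) P (fun p => (∑ n ∈ range p, dv n p) / p) =
          ML (cf (c j) z) P fun p => 1 / p := sum_congr rfl fun S hS => by
        rw [prod_congr rfl fun p hp => dv_mean (hP p (mem_powerset.1 hS hp)).1.pos]
      have h5 : ML (cf (c j) z) P (fun p => 1 / p) ≤
          ej j * (2 * ∏ p ∈ P, (1 - (1 : ℝ) / p)) := by
        have h := bx _ hx1
        have v0 := fun i => V0 (B i) (filter_subset _ _)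
        rw [hc j hj]
        refine (mul_le_mul (h j).2.2 (prod_le_prod (fun i _ => (h i).1) fun i _ => (h i).2.1)
          (prod_nonneg fun i _ => (h i).1) (mul_nonneg (ej0 j) (v0 j))).trans ?_
        rw [prod_mul_distrib, mul_assoc, ← mul_assoc (∏ p ∈ B j, _),
          mul_prod_erase _ (fun i => ∏ p ∈ B i, (1 - (1 : ℝ) / p)) hj, ← fib, mul_comm 2]
        refine mul_le_mul_of_nonneg_left (mul_le_mul_of_nonneg_left (le_trans ?_ hprod)
          (V0 P Subset.rfl)) (ej0 j)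
        exact prod_le_prod_of_subset_of_one_le (erase_subset _ _)
          (fun i _ => by linarith [ej0 i]) fun i _ _ => by linarith [ej0 i]
      rw [h4] at h3
      have := mul_le_mul_of_nonneg_left h5 ba
      linarith [(abs_le.1 h3).2]
    refine (sum_le_sum fun m _ => h1 m).trans ?_
    rw [sum_comm]
    refine (sum_le_sum h2).trans ?_
    rw [sum_add_distrib, ← mul_sum, ← sum_mul, sum_const, card_range, nsmul_eq_mul]
    have h6 := hsum (z + 1)
    have h7 := mul_nonneg ba (V0 P Subset.rfl)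
    push_cast at ht2 ⊢
    nlinarith

end Pool.Agent.Lib.MP_488d93_nt
end
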