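import Pool.Agent.Lib.MP_488d93_nt.Rec

-- part Pool.Agent.Lib.MP_488d93_nt.Local
section

/-! The local conditions hold for many shifts, for most numbers. -/

set_option autoImplicit false

namespace Pool.Agent.Lib.MP_488d93_nt

open Finset Real Filter Topology

theorem modEq_prod_iff {S : Finset ℕ} (hS : ∀ p ∈ S, p.Prime) {a b : ℕ} :
    a ≡ b [MOD ∏ p ∈ S, p] ↔ ∀ p ∈ S, a ≡ b [MOD p] := by
  simp only [Nat.modEq_iff_dvd, Int.natCast_dvd, prod_dvd_iff hS]

/-- Indicator of a residue class. -/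
def ind (r W n : ℕ) : ℝ := if r ≡ n [MOD W] then 1 else 0

theorem ind_mean {r q : ℕ} (hq : 0 < q) : ∑ n ∈ range q, ind r q n = 1 := by
  unfold ind
  rw [sum_eq_single (r % q) (fun n hn h => if_neg fun h' => h (by
    rw [← Nat.mod_eq_of_lt (mem_range.1 hn)]; exact h'.symm))
    fun h => absurd (mem_range.2 (Nat.mod_lt _ hq)) h, if_pos (Nat.mod_modEq _ _).symm]

theorem mean3 {w : ℕ} {P : Finset ℕ} (hP : ∀ q ∈ P, q.Prime ∧ w < q) (r : ℕ) (h : ℕ → ℕ → ℝ)
    (hh : ∀ q n, h q (n % q) = h q n) {B : ℝ} (hB0 : 0 < B) (hB : ∀ n, |∏ q ∈ P, h q n| ≤ B)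
    {a b : ℕ} (hab : a ≤ b) :
    |∑ n ∈ Ico a b, ind r (primorial w) n * ∏ q ∈ P, h q n -
      (b - a) / primorial w * ∏ q ∈ P, (∑ n ∈ range q, h q n) / q| ≤
      4 * B * (primorial w * ∏ q ∈ P, q : ℕ) := by
  have hd : Disjoint (Nat.primesLE w) P := disjoint_left.2 fun q h1 h2 =>
    absurd (Nat.mem_primesLE.1 h1).1 (not_le.2 (hP q h2).2)
  let f : ℕ → ℕ → ℝ := fun q n => if q ≤ w then ind r q n else h q n
  have f1 : ∀ q ∈ Nat.primesLE w, f q = ind r q := fun q hq =>
    funext fun n => if_pos (Nat.mem_primesLE.1 hq).1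
  have f2 : ∀ q ∈ P, f q = h q := fun q hq => funext fun n => if_neg (not_le.2 (hP q hq).2)
  have e : ∀ n, ∏ q ∈ Nat.primesLE w ∪ P, f q n = ind r (primorial w) n * ∏ q ∈ P, h q n := by
    intro n
    rw [prod_union hd, prod_congr rfl fun q hq => congrFun (f1 q hq) n,
      prod_congr rfl fun q hq => congrFun (f2 q hq) n]
    congr 1
    simp only [ind, prod_ite_zero, prod_const_one, primorial_eq_prod_primesLE,
      modEq_prod_iff fun q hq => (Nat.mem_primesLE.1 hq).2]
  have := crt_mean (Nat.primesLE w ∪ P) (fun q hq => (mem_union.1 hq).elim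
    (fun h => (Nat.mem_primesLE.1 h).2) fun h => (hP q h).1) f (fun q n => by
      have : ind r q (n % q) = ind r q n := if_congr (by simp [Nat.ModEq]) rfl rfl
      simp only [f, hh, this]) hB0 (fun n => by
      rw [e, abs_mul]
      refine (mul_le_of_le_one_left (abs_nonneg _) ?_).trans (hB n)
      unfold ind; split_ifs <;> simp) hab
  simp only [e] at this
  rw [prod_union hd, prod_union hd, prod_congr rfl fun q hq => by
    rw [f1 q hq, ind_mean (Nat.mem_primesLE.1 hq).2.pos],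
    prod_congr rfl (s₁ := P) fun q hq => by rw [f2 q hq], prod_div_distrib, prod_const_one,
    ← Nat.cast_prod, ← primorial_eq_prod_primesLE, ← mul_assoc, mul_one_div] at this
  exact this

/-- Local factors. -/
noncomputable def lq (q m : ℕ) : ℝ := q / (q - 1) * (1 - dv m q)

/-- Normalised indicator of the numbers free of the primes in `P`. -/
noncomputable def LL (P : Finset ℕ) (m : ℕ) : ℝ := ∏ q ∈ P, lq q m

theorem lq_mem {q : ℕ} (hq : q.Prime) (m : ℕ) : 0 ≤ lq q m ∧ lq q m ≤ q / (q - 1) := by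
  have h1 := one_le_ratio hq
  have h2 := dv_mem m q
  unfold lq
  constructor <;> nlinarith

theorem lq_mod (q n a : ℕ) : lq q (n % q + a) = lq q (n + a) := by
  unfold lq
  rw [← dv_mod, ← dv_mod q (n + a)]; simp

theorem lq_mean {q : ℕ} (hq : q.Prime) (a : ℕ) : (∑ n ∈ range q, lq q (n + a)) / q = 1 := by
  have : (2 : ℝ) ≤ q := by exact_mod_cast hq.two_le
  have h1 : (q : ℝ) - 1 ≠ 0 := by linarith
  simp only [lq, ← mul_sum, sum_sub_distrib, sum_dv hq.pos, sum_const, card_range, nsmul_eq_mul]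
  field_simp

theorem lq_mean2 {q : ℕ} (hq : q.Prime) (a b : ℕ) :
    (∑ n ∈ range q, lq q (n + a) * lq q (n + b)) / q ≤
      if a ≡ b [MOD q] then (q : ℝ) / (q - 1) else 1 := by
  have q2 : (2 : ℝ) ≤ q := by exact_mod_cast hq.two_le
  split_ifs with h
  · refine le_of_le_of_eq ?_ ((congrArg ((q : ℝ) / (q - 1) * ·) (lq_mean hq a)).trans (mul_one _))
    rw [← mul_div_assoc, mul_sum]
    refine div_le_div_of_nonneg_right (sum_le_sum fun n _ => ?_) (by linarith)
    rw [mul_comm]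
    exact mul_le_mul_of_nonneg_right (lq_mem hq _).2 (lq_mem hq _).1
  · have e : ∀ n, lq q (n + a) * lq q (n + b) =
        (q / (q - 1)) ^ 2 * (1 - dv (n + a) q - dv (n + b) q) := fun n => by
      unfold lq dv
      split_ifs with h1 h2
      · exact absurd (Nat.ModEq.add_left_cancel' n (((Nat.modEq_zero_iff_dvd).2 h1).trans
          ((Nat.modEq_zero_iff_dvd).2 h2).symm)) h
      all_goals ring
    simp only [e, ← mul_sum, sum_sub_distrib, sum_dv hq.pos, sum_const, card_range, nsmul_eq_mul]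
    rw [div_le_one (by linarith), div_pow, div_mul_eq_mul_div, div_le_iff₀ (by nlinarith)]
    nlinarith

theorem pair_var {w : ℕ} {P : Finset ℕ} (hP : ∀ q ∈ P, q.Prime ∧ w < q) (r a b N : ℕ) :
    ∑ n ∈ Ico (N + 1) (2 * N + 1), ind r (primorial w) n * ((LL P (n + a) - 1) * (LL P (n + b) - 1)) ≤
      N / primorial w * (∏ q ∈ P with a ≡ b [MOD q], (q : ℝ) / (q - 1) - 1) +
        16 * (∏ q ∈ P, (q : ℝ) / (q - 1)) ^ 2 * (primorial w * ∏ q ∈ P, q : ℕ) := by
  set B := ∏ q ∈ P, (q : ℝ) / (q - 1) with hB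
  have B1 : 1 ≤ B := le_of_eq_of_le prod_const_one.symm
    (prod_le_prod (fun _ _ => zero_le_one) fun q hq => one_le_ratio (hP q hq).1)
  have B2 : B ≤ B ^ 2 := le_self_pow₀ B1 two_ne_zero
  have l1 : ∀ m, |∏ q ∈ P, lq q m| ≤ B := fun m => by
    rw [abs_of_nonneg (prod_nonneg fun q hq => (lq_mem (hP q hq).1 m).1)]
    exact prod_le_prod (fun q hq => (lq_mem (hP q hq).1 m).1) fun q hq => (lq_mem (hP q hq).1 m).2
  have hab : N + 1 ≤ 2 * N + 1 := by omega
  have B0 : 0 < B ^ 2 := by positivity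
  have h1 := mean3 hP r (fun q n => lq q (n + a) * lq q (n + b)) (fun q n => by
    simp only [lq_mod]) B0 (fun n => by
      rw [prod_mul_distrib, abs_mul, sq]
      exact mul_le_mul (l1 _) (l1 _) (abs_nonneg _) (by linarith)) hab
  have h2 := fun c => mean3 hP r (fun q n => lq q (n + c)) (fun q n => lq_mod _ _ _) B0
    (fun n => (l1 _).trans B2) hab
  have h3 := mean3 hP r (fun _ _ => 1) (fun _ _ => rfl) B0 (fun n => by simpa using B1.trans B2) hab
  have e1 : ∀ c, ∏ q ∈ P, (∑ n ∈ range q, lq q (n + c)) / q = 1 := fun c =>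
    prod_eq_one fun q hq => lq_mean (hP q hq).1 c
  have e2 : ∏ q ∈ P, (∑ n ∈ range q, (1 : ℝ)) / q = 1 := prod_eq_one fun q hq => by
    have := (hP q hq).1.ne_zero
    simp [this]
  have e3 : ((2 * N + 1 : ℕ) : ℝ) - (N + 1 : ℕ) = N := by push_cast; ring
  have h4 : ∏ q ∈ P, (∑ n ∈ range q, lq q (n + a) * lq q (n + b)) / q ≤
      ∏ q ∈ P with a ≡ b [MOD q], (q : ℝ) / (q - 1) := by
    rw [prod_filter]
    exact prod_le_prod (fun q hq => div_nonneg (sum_nonneg fun n _ => mul_nonneg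
      (lq_mem (hP q hq).1 _).1 (lq_mem (hP q hq).1 _).1) (Nat.cast_nonneg _))
      fun q hq => lq_mean2 (hP q hq).1 a b
  simp only [e1, e2, e3, prod_const_one, prod_mul_distrib] at h1 h2 h3
  have h5 := mul_le_mul_of_nonneg_left h4 (show 0 ≤ (N : ℝ) / primorial w by positivity)
  have e4 : ∀ n, ind r (primorial w) n * ((LL P (n + a) - 1) * (LL P (n + b) - 1)) =
      ind r (primorial w) n * ((∏ q ∈ P, lq q (n + a)) * ∏ q ∈ P, lq q (n + b)) -
      ind r (primorial w) n * ∏ q ∈ P, lq q (n + a) - ind r (primorial w) n * ∏ q ∈ P, lq q (n + b) +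
      ind r (primorial w) n * 1 := fun n => by unfold LL; ring
  simp only [e4, sum_add_distrib, sum_sub_distrib]
  linarith [(abs_le.1 h1).2, (abs_le.1 (h2 a)).1, (abs_le.1 (h2 b)).1, (abs_le.1 h3).2]

theorem sum_pi (N : ℕ) (g : ℕ → ℝ) : ∑ p ∈ PP N, g (Nat.primeCounting p) =
    ∑ k ∈ Ico (Nat.primeCounting (N / 2) + 1) (Nat.primeCounting (N / 2) + 1 + (PP N).card), g k := by
  have lt : ∀ p q, p < q → q.Prime → Nat.primeCounting p < Nat.primeCounting q := fun p q h hq => by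
    have := pi_sub h.le
    have : 0 < ((Nat.primesLE q).filter (p < ·)).card :=
      card_pos.2 ⟨q, mem_filter.2 ⟨Nat.mem_primesLE.2 ⟨le_rfl, hq⟩, h⟩⟩
    omega
  have inj : Set.InjOn Nat.primeCounting (PP N) := fun p hp q hq e => by
    rcases lt_trichotomy p q with h | h | h
    · exact absurd e (lt p q h (mem_PP.1 hq).1).ne
    · exact h
    · exact absurd e (lt q p h (mem_PP.1 hp).1).ne'
  have e : Nat.primeCounting N = Nat.primeCounting (N / 2) + (PP N).card := by
    rw [pi_sub (Nat.div_le_self N 2), PP]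
    congr 2
    exact filter_congr fun p _ => by omega
  rw [← sum_image inj]
  congr 1
  refine eq_of_subset_of_card_le (fun k hk => ?_) (by rw [card_image_of_injOn inj]; simp)
  obtain ⟨p, hp, rfl⟩ := mem_image.1 hk
  obtain ⟨h1, h2, h3⟩ := mem_PP.1 hp
  have := lt (N / 2) p (by omega) h1
  have := Nat.monotone_primeCounting h3
  exact mem_Ico.2 (by omega)

theorem class_count (N w r : ℕ) : |∑ p ∈ PP N, ind r (primorial w) (Nat.primeCounting p) -
    (PP N).card / primorial w| ≤ 4 * primorial w := by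
  have := mean3 (w := w) (P := ∅) (by simp) r (fun _ _ => 1) (fun _ _ => rfl) one_pos (by simp)
    (Nat.le_add_right (Nat.primeCounting (N / 2) + 1) (PP N).card)
  rw [sum_pi]
  simpa using this

theorem param {η C δ : ℝ} (hη : 0 < η) (hC : 0 < C) (hδ : 0 < δ) : ∃ w s : ℕ, ∀ P : Finset ℕ,
    (∀ q ∈ P, w < q) → primorial w * (C * exp (∑ q ∈ P,
      (((q : ℝ) / (q - 1)) ^ (s + 1) - 1) * (q : ℝ) ^ (-(1 / 6) : ℝ))) ≤ δ * (1 + η) ^ s := by
  obtain ⟨M, hM⟩ := pow_unbounded_of_one_lt 16 (show 1 < 1 + η by linarith)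
  have M1 : 1 ≤ M := Nat.pos_of_ne_zero fun h => by rw [h] at hM; norm_num at hM
  have M0 : (0 : ℝ) < M := by exact_mod_cast M1
  obtain ⟨S, hS⟩ := summable_iff_vanishing_norm.1 (summable_nat_rpow.2
    (show (-(7 / 6) : ℝ) < -1 by norm_num)) (1 / (4 * exp M * M)) (by positivity)
  obtain ⟨k, hk⟩ := pow_unbounded_of_one_lt (C * (1 + η) / δ) (one_lt_two (α := ℝ))
  obtain ⟨w, w1, w2, w3⟩ : ∃ w, 1 ≤ w ∧ k ≤ w ∧ S.sup id ≤ w :=
    ⟨1 + k + S.sup id, by omega, by omega, by omega⟩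
  refine ⟨w, M * w - 1, fun P hP => ?_⟩
  have e : M * w - 1 + 1 = M * w := Nat.sub_add_cancel (Nat.mul_pos M1 w1)
  have w0 : (1 : ℝ) ≤ w := by exact_mod_cast w1
  have h1 := (le_abs_self _).trans (hS P (disjoint_left.2 fun q h1 h2 =>
    absurd ((le_sup (f := id) h2).trans w3) (not_le.2 (hP q h1)))).le
  have h2 : ∑ q ∈ P, (((q : ℝ) / (q - 1)) ^ (M * w) - 1) * (q : ℝ) ^ (-(1 / 6) : ℝ) ≤ w / 2 := by
    calc _ ≤ ∑ q ∈ P, 2 * exp M * M * w * (q : ℝ) ^ (-(7 / 6) : ℝ) := sum_le_sum fun q hq => by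
          have q1 : (w : ℝ) + 1 ≤ q := by exact_mod_cast hP q hq
          have q0 : (0 : ℝ) < q - 1 := by linarith
          set y := (M * w : ℝ) / (q - 1) with hy
          have y0 : 0 ≤ y := by positivity
          have y1 : y ≤ M := by rw [hy, div_le_iff₀ q0]; gcongr; linarith
          have y2 : y ≤ 2 * M * w / q := by
            rw [hy, div_le_div_iff₀ q0 (by linarith)]
            nlinarith [mul_pos M0 (zero_lt_one.trans_le w0)]
          have a1 : ((q : ℝ) / (q - 1)) ^ (M * w) ≤ exp y := by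
            have : (q : ℝ) / (q - 1) = 1 / (q - 1) + 1 := by field_simp; ring
            rw [this, hy, div_eq_mul_one_div (M * w : ℝ), ← Nat.cast_mul, exp_nat_mul]
            exact pow_le_pow_left₀ (by positivity) (add_one_le_exp _) _
          have a2 : exp y - 1 ≤ y * exp M := by
            have b1 := add_one_le_exp (-y)
            have b2 : exp (-y) * exp y = 1 := by rw [← exp_add]; simp
            have b3 := exp_le_exp.2 y1
            nlinarith [exp_pos y]
          have a3 : (q : ℝ) ^ (-(7 / 6) : ℝ) = 1 / q * (q : ℝ) ^ (-(1 / 6) : ℝ) := by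
            rw [one_div (q : ℝ), ← rpow_neg_one, ← rpow_add (by linarith)]; norm_num
          rw [a3, ← mul_assoc]
          refine mul_le_mul_of_nonneg_right ?_ (by positivity)
          calc _ ≤ y * exp M := by linarith
            _ ≤ 2 * M * w / q * exp M := by gcongr
            _ = _ := by ring
      _ ≤ 2 * exp M * M * w * (1 / (4 * exp M * M)) := by rw [← mul_sum]; gcongr
      _ = _ := by field_simp; norm_num
  have h3 : exp (w / 2) ≤ 2 ^ w := by
    rw [div_eq_mul_one_div, exp_nat_mul]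
    refine pow_le_pow_left₀ (exp_pos _).le ?_ _
    have := exp_one_lt_d9
    have h2 : exp (1 / 2) * exp (1 / 2) = exp 1 := by rw [← exp_add]; norm_num
    nlinarith [exp_pos (1 / 2)]
  have h4 : (primorial w : ℝ) ≤ 4 ^ w := by exact_mod_cast primorial_le_four_pow w
  have h5 : C * (1 + η) ≤ δ * 2 ^ w := by
    rw [div_lt_iff₀' hδ] at hk
    exact hk.le.trans (by gcongr; norm_num)
  have h6 : (16 : ℝ) ^ w ≤ (1 + η) ^ (M * w - 1) * (1 + η) := by
    rw [← pow_succ, e, pow_mul]; gcongr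
  rw [e]
  refine le_of_mul_le_mul_right (a := 1 + η) ?_ (by linarith)
  calc _ ≤ 4 ^ w * (C * 2 ^ w) * (1 + η) := by gcongr; exact (exp_le_exp.2 h2).trans h3
    _ = 4 ^ w * 2 ^ w * (C * (1 + η)) := by ring
    _ ≤ 4 ^ w * 2 ^ w * (δ * 2 ^ w) := by gcongr
    _ = δ * 16 ^ w := by rw [show (16 : ℝ) = 4 * 2 * 2 by norm_num, mul_pow, mul_pow]; ring
    _ ≤ _ := by rw [mul_assoc]; gcongr

theorem local_main {δ : ℝ} (hδ : 0 < δ) : ∃ w : ℕ, ∀ P : Finset ℕ, (∀ q ∈ P, q.Prime ∧ w < q) →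
    ∀ᶠ N : ℕ in atTop, (((Ico (N + 1) (2 * N + 1)).filter fun n => ∑ p ∈ PP N,
      ind (Nat.primeCounting p) (primorial w) n * LL P (n + aa p) <
        (PP N).card / (4 * primorial w)).card : ℝ) ≤ δ * N := by
  obtain ⟨C, C1, hC⟩ := collision
  set η := δ / 96 with hη
  have η0 : 0 < η := by positivity
  obtain ⟨w, s, hw⟩ := param (C := C) η0 (by linarith) (show 0 < δ / 48 by positivity)
  refine ⟨w, fun P hP => ?_⟩
  set W : ℝ := (primorial w : ℝ) with hW
  have W0 : 0 < W := by rw [hW]; exact_mod_cast primorial_pos w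
  set Er := 16 * (∏ q ∈ P, (q : ℝ) / (q - 1)) ^ 2 * (primorial w * ∏ q ∈ P, q : ℕ) with hEr
  have Er0 : 0 ≤ Er := by positivity
  filter_upwards [hC, card_PP, ev_log_ge (∏ q ∈ P, q : ℕ), ev_log_ge 1, ev_log_pow 1 (32 * W ^ 2),
    tendsto_natCast_atTop_atTop.eventually_ge_atTop (48 * W ^ 2 * Er / δ)] with N hc ⟨K1, _⟩ L2 L1
    L3 N1
  set K : ℝ := ((PP N).card : ℝ) with hK
  have K3 : 8 * W ^ 2 ≤ K := by
    refine le_trans ?_ K1
    rw [le_div_iff₀ four_pos, le_div_iff₀ (by linarith)]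
    linarith
  have K4 : 4 * W ≤ K / W / 2 := by rw [le_div_iff₀ two_pos, le_div_iff₀ W0]; linarith
  have K0 : 0 < K := lt_of_lt_of_le (by positivity) K3
  let I : ℕ → ℕ → ℝ := fun p n => ind (Nat.primeCounting p) (primorial w) n
  have cc : ∀ n, K / W / 2 ≤ ∑ p ∈ PP N, I p n ∧ ∑ p ∈ PP N, I p n ≤ 2 * (K / W) := fun n => by
    have := abs_le.1 (class_count N w n)
    have e : ∀ p, I p n = ind n (primorial w) (Nat.primeCounting p) := fun p => by
      simp only [I, ind, Nat.ModEq.comm (a := n)]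
    simp only [e]
    have : 0 ≤ K / W := by positivity
    constructor <;> linarith [this]
  let σ : ℕ × ℕ → ℝ := fun x => ∏ q ∈ P with aa x.1 ≡ aa x.2 [MOD q], (q : ℝ) / (q - 1)
  have a1 : ∑ x ∈ PP N ×ˢ PP N, σ x ^ (s + 1) ≤ C * K ^ 2 * exp (∑ q ∈ P,
      (((q : ℝ) / (q - 1)) ^ (s + 1) - 1) * (q : ℝ) ^ (-(1 / 6) : ℝ)) := by
    refine le_of_eq_of_le (sum_congr rfl fun x _ => ?_) (prod_avg (PP N ×ˢ PP N) P
      (fun x q => aa x.1 ≡ aa x.2 [MOD q]) _ _ (fun q hq => sub_nonneg.2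
        (one_le_pow₀ (one_le_ratio (hP q hq).1))) (fun _ _ => by positivity) (by positivity)
      fun S hS => ?_)
    · simp only [σ, add_sub_cancel, prod_pow]
    · have h1 : ∀ q ∈ S, q.Prime := fun q hq => (hP q (hS hq)).1
      simp only [← modEq_prod_iff h1]
      refine (hc _ (prod_pos fun q hq => (h1 q hq).pos) (le_trans (Nat.cast_le.2
        (prod_le_prod_of_subset_of_one_le' hS fun q hq _ => (hP q hq).1.pos)) L2)).trans
        (le_of_eq ?_)
      rw [Nat.cast_prod, finsetProd_rpow _ _ fun _ _ => Nat.cast_nonneg _]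
  have a2 : ∀ x ∈ PP N ×ˢ PP N, ∑ n ∈ Ico (N + 1) (2 * N + 1), I x.1 n * (LL P (n + aa x.1) - 1) *
      (I x.2 n * (LL P (n + aa x.2) - 1)) ≤ N / W * (η * I x.2 (Nat.primeCounting x.1) +
        σ x ^ (s + 1) / (1 + η) ^ s) + Er := fun x _ => by
    have σ0 : 0 ≤ σ x := prod_nonneg fun q hq =>
      zero_le_one.trans (one_le_ratio (hP q (mem_filter.1 hq).1).1)
    by_cases h : Nat.primeCounting x.2 ≡ Nat.primeCounting x.1 [MOD primorial w]
    · have e : ∀ n, I x.1 n * (LL P (n + aa x.1) - 1) * (I x.2 n * (LL P (n + aa x.2) - 1)) =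
          I x.1 n * ((LL P (n + aa x.1) - 1) * (LL P (n + aa x.2) - 1)) := fun n => by
        simp only [I, ind]
        by_cases h1 : Nat.primeCounting x.1 ≡ n [MOD primorial w]
        · rw [if_pos h1, if_pos (h.trans h1)]; ring
        · rw [if_neg h1]; ring
      simp only [e]
      refine (pair_var hP _ _ _ N).trans (add_le_add (mul_le_mul_of_nonneg_left ?_
        (by positivity)) le_rfl)
      simp only [I, ind, if_pos h]
      change σ x - 1 ≤ _
      rcases le_total (σ x) (1 + η) with h1 | h1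
      · have : 0 ≤ σ x ^ (s + 1) / (1 + η) ^ s := by positivity
        linarith
      · have : σ x ≤ σ x ^ (s + 1) / (1 + η) ^ s := by
          rw [le_div_iff₀ (by positivity), pow_succ']; gcongr
        linarith
    · rw [sum_eq_zero fun n _ => ?_]
      · simp only [I, ind, if_neg h]; positivity
      · simp only [I, ind]
        by_cases h1 : Nat.primeCounting x.1 ≡ n [MOD primorial w]
        · rw [if_neg fun h2 : _ ≡ n [MOD _] => h (h2.trans h1.symm)]; ring
        · rw [if_neg h1]; ring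
  have a3 : ∑ n ∈ Ico (N + 1) (2 * N + 1), (∑ p ∈ PP N, I p n * (LL P (n + aa p) - 1)) ^ 2 ≤
      δ * N * (K / (4 * W)) ^ 2 := by
    simp only [sq (∑ p ∈ PP N, _), sum_mul_sum, ← sum_product' (PP N) (PP N)]
    rw [sum_comm]
    refine (sum_le_sum a2).trans ?_
    have b1 : ∑ x ∈ PP N ×ˢ PP N, I x.2 (Nat.primeCounting x.1) ≤ K * (2 * (K / W)) := by
      rw [sum_product]
      exact (sum_le_card_nsmul _ _ _ fun p _ => (cc _).2).trans (by rw [nsmul_eq_mul])
    have b2 : (∑ x ∈ PP N ×ˢ PP N, σ x ^ (s + 1)) / (1 + η) ^ s ≤ δ / 48 * K ^ 2 / W := by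
      rw [div_le_div_iff₀ (by positivity) W0]
      have := mul_le_mul_of_nonneg_left (hw P fun q hq => (hP q hq).2) (sq_nonneg K)
      nlinarith [mul_le_mul_of_nonneg_right a1 W0.le]
    have b3 : Er ≤ δ / 48 * N / W ^ 2 := by
      rw [div_le_iff₀ hδ] at N1
      rw [le_div_iff₀ (by positivity)]; linarith
    rw [sum_add_distrib, ← mul_sum, sum_add_distrib, ← mul_sum, ← sum_div, sum_const, card_product,
      nsmul_eq_mul, Nat.cast_mul, ← hK]
    calc _ ≤ N / W * (η * (K * (2 * (K / W))) + δ / 48 * K ^ 2 / W) +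
          K * K * (δ / 48 * N / W ^ 2) := by gcongr
      _ = _ := by rw [hη]; field_simp; ring
  refine le_of_mul_le_mul_right (le_trans ?_ a3) (by positivity)
  rw [← nsmul_eq_mul]
  refine (card_nsmul_le_sum _ _ _ fun n hn => ?_).trans
    (sum_le_sum_of_subset_of_nonneg (filter_subset _ _) fun _ _ _ => sq_nonneg _)
  have h1 := (mem_filter.1 hn).2
  have h2 := (cc n).1
  have e : K / W / 2 = 2 * (K / (4 * W)) := by field_simp; norm_num
  rw [← neg_sq (∑ p ∈ PP N, _)]
  refine pow_le_pow_left₀ (by positivity) ?_ 2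
  simp only [mul_sub, sum_sub_distrib, mul_one]
  linarith

end Pool.Agent.Lib.MP_488d93_nt
end

-- part Pool.Agent.Lib.MP_488d93_nt.Final
section

/-! The exceptional set has density zero. -/

set_option autoImplicit false

namespace Pool.Agent.Lib.MP_488d93_nt

open Finset Real Filter Topology

theorem sg_totient {W : ℕ} (hW : 0 < W) : sg W * W.totient = W := by
  have h := congrArg (Nat.cast (R := ℝ)) (Nat.totient_mul_prod_primeFactors W)
  have p1 : ∀ p ∈ W.primeFactors, 1 < p := fun p hp => (Nat.prime_of_mem_primeFactors hp).one_lt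
  rw [Nat.cast_mul, Nat.cast_mul, Nat.cast_prod, Nat.cast_prod,
    prod_congr rfl fun p hp => Nat.cast_pred (zero_lt_one.trans (p1 p hp))] at h
  rw [sg, prod_div_distrib, div_mul_eq_mul_div, div_eq_iff (prod_ne_zero_iff.2 fun p hp =>
    sub_ne_zero.2 (by exact_mod_cast (p1 p hp).ne')), mul_comm]
  exact h

theorem prog_primes {W T : ℕ} (hW : 0 < W) (hT : 0 < T) : ∀ᶠ N : ℕ in atTop, 0 < N / (W * T) ∧
    ∀ m, N ≤ m → m ≤ 3 * N → m.Coprime W → (N / (W * T) : ℕ) * sg W ≤
      4 * log N * ((range (N / (W * T))).filter fun j => (m + j * W).Prime).card := by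
  haveI : NeZero W := ⟨hW.ne'⟩
  have W1 : (1 : ℝ) ≤ W := by exact_mod_cast hW
  have T1 : (1 : ℝ) ≤ T := by exact_mod_cast hT
  set η : ℝ := 1 / (32 * T * W) with hη
  have η0 : 0 < η := by positivity
  let θ : ZMod W → ℕ → ℝ := fun a x =>
    ∑ p ∈ Icc 1 x with (Nat.Prime p ∧ (Nat.cast p : ZMod W) = a), log (p : ℕ)
  have h1 : ∀ᶠ x : ℕ in atTop, ∀ a : ZMod W, IsUnit a →
      |θ a x - x * (W.totient : ℝ)⁻¹| ≤ η * x := by
    refine eventually_all.2 fun a => ?_
    by_cases ha : IsUnit a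
    · have h := (Pool.Agent.Shared.PNT.pnt_theta_residueClass ha).comp tendsto_natCast_atTop_atTop
      filter_upwards [Metric.tendsto_nhds.1 h η η0, eventually_gt_atTop 0] with x h2 h3 _
      have x0 : (0 : ℝ) < x := by exact_mod_cast h3
      simp only [Function.comp, Nat.floor_natCast, Real.dist_eq] at h2
      have e : θ a x - x * (W.totient : ℝ)⁻¹ = (θ a x / x - (W.totient : ℝ)⁻¹) * x := by field_simp
      rw [e, abs_mul, abs_of_pos x0]
      exact mul_le_mul_of_nonneg_right h2.le x0.le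
    · exact Eventually.of_forall fun _ h => absurd h ha
  obtain ⟨x0, hx⟩ := eventually_atTop.1 h1
  filter_upwards [eventually_ge_atTop (x0 + 4), eventually_ge_atTop (2 * (W * T))] with N N1 N2
  have WT : 0 < W * T := Nat.mul_pos hW hT
  set J := N / (W * T) with hJ
  have J0 : 2 ≤ J := (Nat.le_div_iff_mul_le WT).2 N2
  have J1 : J * (W * T) ≤ N := Nat.div_mul_le_self _ _
  have J2 : N ≤ 2 * J * (W * T) := by
    have := Nat.lt_mul_div_succ N WT
    rw [← hJ] at this
    nlinarith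
  have J3 : J * W ≤ N := le_trans (by rw [← mul_assoc]; exact Nat.le_mul_of_pos_right _ hT) J1
  refine ⟨by omega, fun m m1 m2 hm => ?_⟩
  obtain ⟨k, rfl⟩ : ∃ k, m = k + 1 := ⟨m - 1, by omega⟩
  have hu := (ZMod.isUnit_iff_coprime _ _).2 hm
  have a1 := abs_le.1 (hx k (by omega) _ hu)
  have a2 := abs_le.1 (hx (k + J * W) (by omega) _ hu)
  have N0 : (4 : ℝ) ≤ N := by exact_mod_cast (by omega : 4 ≤ N)
  have a3 : θ (k + 1 : ℕ) (k + J * W) ≤ θ (k + 1 : ℕ) k +
      2 * log N * ((range J).filter fun j => (k + 1 + j * W).Prime).card := by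
    simp only [θ]
    rw [← sum_filter_add_sum_filter_not _ (· ≤ k)]
    refine add_le_add (sum_le_sum_of_subset_of_nonneg (fun p hp => ?_)
      fun p _ _ => log_natCast_nonneg p) ?_
    · simp only [mem_filter, mem_Icc] at hp ⊢
      exact ⟨⟨hp.1.1.1, hp.2⟩, hp.1.2⟩
    · refine (sum_le_card_nsmul _ _ (2 * log N) fun p hp => ?_).trans ?_
      · simp only [mem_filter, mem_Icc] at hp
        rw [← log_rpow (by linarith), rpow_two]
        refine log_le_log (by exact_mod_cast hp.1.1.1) ?_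
        exact_mod_cast (by nlinarith [hp.1.1.2] : p ≤ N ^ 2)
      · rw [nsmul_eq_mul, mul_comm]
        refine mul_le_mul_of_nonneg_left (Nat.cast_le.2 ((card_le_card fun p hp => ?_).trans
          (card_image_le (f := fun j => k + 1 + j * W)))) (by have := log_natCast_nonneg N; linarith)
        simp only [mem_filter, mem_Icc] at hp
        obtain ⟨⟨⟨-, b1⟩, b2, b3⟩, b4⟩ := hp
        obtain ⟨j, hj⟩ := (Nat.modEq_iff_dvd' (not_le.1 b4)).1
          ((ZMod.natCast_eq_natCast_iff _ _ _).1 b3).symm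
        have e : k + 1 + j * W = p := by rw [mul_comm j]; omega
        refine mem_image.2 ⟨j, mem_filter.2 ⟨mem_range.2 ?_, e ▸ b2⟩, e⟩
        exact Nat.lt_of_mul_lt_mul_right (a := W) (by omega)
  have a4 : W * (W.totient : ℝ)⁻¹ = sg W := by
    have : (W.totient : ℝ) ≠ 0 := by exact_mod_cast (Nat.totient_pos.2 hW).ne'
    rw [mul_inv_eq_iff_eq_mul₀ this, sg_totient hW]
  have a5 : η * (8 * N) ≤ J * sg W / 2 := by
    have b1 : (N : ℝ) ≤ 2 * J * (W * T) := by exact_mod_cast J2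
    calc _ ≤ η * (8 * (2 * J * (W * T))) := by gcongr
      _ = J * 1 / 2 := by rw [hη]; field_simp; ring
      _ ≤ _ := by gcongr; exact one_le_sg W
  have a6 : η * k + η * (k + J * W : ℕ) ≤ η * (8 * N) := by
    rw [← mul_add]
    gcongr
    exact_mod_cast (by omega : k + (k + J * W) ≤ 8 * N)
  have a7 : ((k + J * W : ℕ) : ℝ) * (W.totient : ℝ)⁻¹ = k * (W.totient : ℝ)⁻¹ + J * sg W := by
    rw [← a4]; push_cast; ring
  linarith [a1.2, a2.1]

/-- Numbers without a representation. -/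
def Exc (n : ℕ) : Prop := ¬ ∃ p, p.Prime ∧ p < n ∧ (n + p - Nat.primeCounting p).Prime

open Classical in
theorem dyadic {δ : ℝ} (hδ : 0 < δ) : ∀ᶠ N : ℕ in atTop,
    (((Ico (N + 1) (2 * N + 1)).filter Exc).card : ℝ) ≤ δ * N := by
  obtain ⟨w, hw⟩ := local_main (half_pos hδ)
  set W1 : ℝ := (primorial w : ℝ) with hW1
  have W0 : 0 < W1 := by rw [hW1]; exact_mod_cast primorial_pos w
  set γ := δ / (512 * W1) with hγ
  have γ0 : 0 < γ := by positivity
  obtain ⟨C, C1, hC⟩ := smooth γ0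
  obtain ⟨t, t2, tC⟩ : ∃ t : ℕ, 2 ≤ t ∧ C / γ ^ 2 ≤ t := by
    obtain ⟨t, ht⟩ := exists_nat_ge (C / γ ^ 2)
    exact ⟨t + 2, by omega, by push_cast; linarith⟩
  set W := (t ^ 120).factorial with hW
  let P := W.primeFactors.filter (w < ·)
  have hP : ∀ q ∈ P, q.Prime ∧ w < q := fun q hq =>
    ⟨Nat.prime_of_mem_primeFactors (mem_filter.1 hq).1, (mem_filter.1 hq).2⟩
  filter_upwards [hw P hP, hC, card_PP, ev_log_ge t, eventually_ge_atTop (2 * w + 1),
    prog_primes (W := W) (T := t ^ 121) (Nat.factorial_pos _) (by positivity)] with N h1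
    ⟨F, F0, F1, F2, F3⟩ ⟨K1, K2⟩ tL Nw ⟨J0, hJ⟩
  set J := N / (W * t ^ 121) with hJd
  set L := log N with hL
  set K : ℝ := ((PP N).card : ℝ) with hK
  set B := (Ico (N + 1) (2 * N + 1)).filter fun n => ∑ p ∈ PP N,
    ind (Nat.primeCounting p) (primorial w) n * LL P (n + aa p) < K / (4 * W1)
  set E := (Ico (N + 1) (2 * N + 1)).filter Exc \ B with hE
  have t0 : (2 : ℝ) ≤ t := by exact_mod_cast t2
  have L0 : 0 < L := by linarith
  have N0 : (0 : ℝ) < N := by exact_mod_cast (by omega : 0 < N)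
  have J1 : (0 : ℝ) < J := by exact_mod_cast J0
  have hE1 : ∀ n ∈ E, (N < n ∧ n ≤ 2 * N) ∧ Exc n ∧ K / (4 * W1) ≤ ∑ p ∈ PP N,
      ind (Nat.primeCounting p) (primorial w) n * LL P (n + aa p) := fun n hn => by
    obtain ⟨a, b⟩ := mem_sdiff.1 hn
    obtain ⟨c, d⟩ := mem_filter.1 a
    have := mem_Ico.1 c
    exact ⟨by omega, d, not_lt.1 fun h => b (mem_filter.2 ⟨c, h⟩)⟩
  have a1 := F3 t t2 tL W J (Nat.factorial_pos _) (fun q q1 q2 => Nat.dvd_factorial q1 q2) J0
    (by rw [mul_assoc]; exact Nat.div_mul_le_self _ _) E fun n hn => mem_Ioc.2 (hE1 n hn).1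
  have a2 := abs_le.1 (abs_le_of_sq_le_sq (b := γ * (N / L) ^ 2) (a1.trans (by
    rw [div_le_iff₀ (by positivity)] at tC
    rw [div_le_iff₀ (by linarith)]
    calc _ ≤ t * γ ^ 2 * (N / L) ^ 4 := by gcongr
      _ = _ := by ring)) (by positivity))
  have a3 : ∑ n ∈ E, ∑ p ∈ PP N, F (n + aa p) ≤ K * (γ * N / L) := by
    rw [sum_comm]
    refine (sum_le_card_nsmul _ _ _ fun p hp => le_trans ?_ F2).trans (by rw [nsmul_eq_mul])
    obtain ⟨p1, p2, p3⟩ := mem_PP.1 hp
    refine sum_le_sum_inj (· + aa p) (fun _ _ _ _ h => by simpa using h) (fun n hn => ?_)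
      (fun _ _ => le_rfl) fun m _ => F0 m
    obtain ⟨b1, b2, -⟩ := hE1 n hn
    have : aa p ≤ p := Nat.sub_le _ _
    refine mem_filter.2 ⟨mem_Ico.2 (by omega), fun h => b2 ⟨p, p1, by omega, ?_⟩⟩
    rwa [Nat.add_sub_assoc (pi_le p)]
  have a4 : ∀ n ∈ E, ∀ p ∈ PP N, ind (Nat.primeCounting p) (primorial w) n * LL P (n + aa p) ≤
      4 * L * (1 / J * ∑ j ∈ range J, F (n + aa p + j * W)) := fun n hn p hp => by
    obtain ⟨p1, p2, p3⟩ := mem_PP.1 hp
    have b1 := (hE1 n hn).1
    have b2 : aa p ≤ p := Nat.sub_le _ _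
    have b0 : 0 ≤ ∑ j ∈ range J, F (n + aa p + j * W) := sum_nonneg fun _ _ => F0 _
    by_cases c1 : Nat.primeCounting p ≡ n [MOD primorial w]
    swap
    · rw [ind, if_neg c1, zero_mul]; positivity
    by_cases c2 : ∃ q ∈ P, q ∣ n + aa p
    · obtain ⟨q, q1, q2⟩ := c2
      rw [LL, prod_eq_zero q1 (by simp [lq, dv, q2]), mul_zero]; positivity
    have c3 : (n + aa p).Coprime W := Nat.coprime_of_dvd fun q q1 q2 q3 => by
      by_cases q4 : w < q
      · exact c2 ⟨q, mem_filter.2 ⟨Nat.mem_primeFactors.2 ⟨q1, q3, Nat.factorial_ne_zero _⟩, q4⟩, q2⟩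
      · have d1 := (c1.of_dvd (q1.dvd_primorial_iff.2 (not_lt.1 q4))).add_right (aa p)
        rw [aa, Nat.add_sub_cancel' (pi_le p)] at d1
        have := (Nat.prime_dvd_prime_iff_eq q1 p1).1 ((d1.dvd_iff dvd_rfl).2 q2)
        omega
    have c4 := hJ (n + aa p) (by omega) (by omega) c3
    have c5 : LL P (n + aa p) ≤ sg W := (prod_le_prod (fun q hq => (lq_mem (hP q hq).1 _).1)
      fun q hq => (lq_mem (hP q hq).1 _).2).trans (prod_le_prod_of_subset_of_one_le
        (filter_subset _ _) (fun q hq => zero_le_one.trans (one_le_ratio (hP q hq).1))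
        fun q hq _ => one_le_ratio (Nat.prime_of_mem_primeFactors hq))
    have c6 : (((range J).filter fun j => (n + aa p + j * W).Prime).card : ℝ) ≤
        ∑ j ∈ range J, F (n + aa p + j * W) := by
      rw [card_filter, Nat.cast_sum]
      refine sum_le_sum fun j _ => ?_
      split_ifs with h
      · exact_mod_cast F1 _ h (by omega)
      · exact_mod_cast F0 _
    rw [ind, if_pos c1, one_mul, mul_left_comm, one_div, ← div_eq_inv_mul, le_div_iff₀' J1]
    exact (mul_le_mul_of_nonneg_left c5 J1.le).trans (c4.trans (by gcongr))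
  have a5 : E.card * (K / (4 * W1)) ≤
      4 * L * ∑ n ∈ E, ∑ p ∈ PP N, 1 / J * ∑ j ∈ range J, F (n + aa p + j * W) := by
    rw [← nsmul_eq_mul, mul_sum]
    refine (card_nsmul_le_sum _ _ _ fun n hn => (hE1 n hn).2.2).trans (sum_le_sum fun n hn => ?_)
    rw [mul_sum]
    exact sum_le_sum (a4 n hn)
  simp only [sum_sub_distrib] at a2
  have a6 : (E.card : ℝ) ≤ δ / 2 * N := by
    refine le_of_mul_le_mul_right (a := N / L / 4 / (4 * W1)) ?_ (by positivity)
    calc _ ≤ E.card * (K / (4 * W1)) := by gcongr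
      _ ≤ 4 * L * (K * (γ * N / L) + γ * (N / L) ^ 2) := a5.trans (by gcongr; linarith [a2.1])
      _ ≤ 4 * L * (2 * (N / L) * (γ * N / L) + 2 * (γ * (N / L) ^ 2)) := by
          refine mul_le_mul_of_nonneg_left (add_le_add (by gcongr) ?_) (by positivity)
          linarith [show 0 ≤ γ * (N / L) ^ 2 by positivity]
      _ = _ := by rw [hγ]; field_simp; ring
  have a7 : (((Ico (N + 1) (2 * N + 1)).filter Exc).card : ℝ) ≤ E.card + B.card := by
    exact_mod_cast card_le_card_sdiff_add_card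
  linarith

open Classical in
theorem density : Tendsto (fun x : ℕ => (((range x).filter Exc).card : ℝ) / x) atTop (𝓝 0) := by
  refine tendsto_order.2 ⟨fun a ha => Eventually.of_forall fun x => ha.trans_le (by positivity),
    fun a ha => ?_⟩
  obtain ⟨N0, h0⟩ := eventually_atTop.1 (dyadic (show 0 < a / 4 by positivity))
  have key : ∀ x : ℕ, (((range x).filter Exc).card : ℝ) ≤ a / 2 * x + (2 * N0 + 4 : ℕ) := by
    intro x
    induction x using Nat.strong_induction_on with
    | _ x ih =>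
      rcases le_or_gt x (2 * N0 + 4) with h | h
      · refine le_add_of_nonneg_of_le (by positivity) (Nat.cast_le.2 ?_)
        exact (card_filter_le _ _).trans (by simpa using h)
      have h1 := ih (x / 2 + 1) (by omega)
      have h2 := h0 (x / 2) (by omega)
      have h3 : ((range x).filter Exc).card ≤ ((range (x / 2 + 1)).filter Exc).card +
          ((Ico (x / 2 + 1) (2 * (x / 2) + 1)).filter Exc).card := by
        refine le_trans (card_le_card fun n hn => ?_) (card_union_le _ _)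
        simp only [mem_union, mem_filter, mem_range, mem_Ico] at hn ⊢
        rcases lt_or_ge n (x / 2 + 1) with h4 | h4
        · exact Or.inl ⟨h4, hn.2⟩
        · exact Or.inr ⟨⟨h4, by omega⟩, hn.2⟩
      have h4 : (((range x).filter Exc).card : ℝ) ≤ _ := Nat.cast_le.2 h3
      have h5 : (2 * (x / 2 + 1 : ℕ) + (x / 2 : ℕ) : ℝ) ≤ 2 * x := by
        exact_mod_cast (by omega : 2 * (x / 2 + 1) + x / 2 ≤ 2 * x)
      rw [Nat.cast_add] at h4
      nlinarith
  filter_upwards [tendsto_natCast_atTop_atTop.eventually_gt_atTop ((2 * N0 + 4 : ℕ) / (a / 2)),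
    eventually_gt_atTop 0] with x h1 h2
  rw [div_lt_iff₀ (by positivity)] at h1
  rw [div_lt_iff₀ (by exact_mod_cast h2)]
  linarith [key x]

end Pool.Agent.Lib.MP_488d93_nt
end
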