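import Pool.Agent.Lib.MP_488d93_nt.Box
import Pool.Agent.Shared.PNT.Main

-- part Pool.Agent.Lib.MP_488d93_nt.Ram
section

/-! The bilinear part of the rough numbers and its minor arc estimate. -/

set_option autoImplicit false

namespace Pool.Agent.Lib.MP_488d93_nt

open Finset Real Filter Topology

/-- Primes between the sieving limit and the square root. -/
def Qs (z M : ℕ) : Finset ℕ := (Nat.primesLE M.sqrt).filter (z < ·)

/-- The cofactor weights. -/
noncomputable def bet (z M l : ℕ) : ℝ :=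
  rho (Nat.primesLE z) l / (1 + ((Qs z M).filter (· ∣ l)).card)

/-- The bilinear function. -/
noncomputable def bb (z M m : ℕ) : ℝ := ∑ p ∈ Qs z M with p ∣ m, bet z M (m / p)

theorem mem_Qs {z M p : ℕ} : p ∈ Qs z M ↔ p.Prime ∧ z < p ∧ p ≤ M.sqrt := by
  simp only [Qs, mem_filter, Nat.mem_primesLE]; tauto

theorem bet_nonneg (z M l : ℕ) : 0 ≤ bet z M l := div_nonneg (rho_nonneg _ _) (by positivity)

theorem bet_le (z M l : ℕ) : bet z M l ≤ rho (Nat.primesLE z) l :=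
  div_le_self (rho_nonneg _ _) (le_add_of_nonneg_right (Nat.cast_nonneg _))

theorem bb_nonneg (z M m : ℕ) : 0 ≤ bb z M m := sum_nonneg fun _ _ => bet_nonneg _ _ _

theorem rho_div {z M m p : ℕ} (hp : p ∈ Qs z M) (h : p ∣ m) :
    rho (Nat.primesLE z) (m / p) = rho (Nat.primesLE z) m := by
  obtain ⟨l, rfl⟩ := h
  obtain ⟨h1, h2, -⟩ := mem_Qs.1 hp
  rw [Nat.mul_div_cancel_left _ h1.pos, rho_eq, rho_eq]
  refine if_congr (forall₂_congr fun q hq => not_congr ?_) rfl rfl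
  obtain ⟨h3, h4⟩ := Nat.mem_primesLE.1 hq
  rw [h4.dvd_mul, Nat.prime_dvd_prime_iff_eq h4 h1]
  exact (or_iff_right (by omega)).symm

theorem bb_le (z M m : ℕ) : bb z M m ≤ rho (Nat.primesLE z) m := by
  set S := (Qs z M).filter (· ∣ m) with hS
  have r0 := rho_nonneg (Nat.primesLE z) m
  refine (sum_le_card_nsmul _ _ (rho (Nat.primesLE z) m / S.card) fun p hp => ?_).trans ?_
  · obtain ⟨h1, h2⟩ := mem_filter.1 hp
    rw [bet, rho_div h1 h2]
    refine div_le_div_of_nonneg_left r0 (by exact_mod_cast card_pos.2 ⟨p, hp⟩) ?_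
    have : S ⊆ insert p ((Qs z M).filter (· ∣ m / p)) := fun q hq => by
      obtain ⟨h3, h4⟩ := mem_filter.1 hq
      rw [← Nat.mul_div_cancel' h2, (mem_Qs.1 h3).1.dvd_mul,
        Nat.prime_dvd_prime_iff_eq (mem_Qs.1 h3).1 (mem_Qs.1 h1).1] at h4
      exact mem_insert.2 (h4.imp id fun h5 => mem_filter.2 ⟨h3, h5⟩)
    have := (card_le_card this).trans (card_insert_le _ _)
    rw [add_comm]; exact_mod_cast this
  · rw [nsmul_eq_mul, mul_div_assoc', mul_comm, mul_div_assoc]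
    exact mul_le_of_le_one_right r0 (div_self_le_one _)

theorem bb_prime {z M m : ℕ} (h : m.Prime) (h1 : M.sqrt < m) : bb z M m = 0 :=
  sum_eq_zero fun p hp => by
    obtain ⟨h2, h3⟩ := mem_filter.1 hp
    obtain ⟨h4, -, h5⟩ := mem_Qs.1 h2
    have := (Nat.prime_dvd_prime_iff_eq h4 h).1 h3
    omega

theorem le_bb {z M m : ℕ} (h : ¬ m.Prime) (h1 : 1 < m) (h2 : m ≤ M)
    (h3 : ∀ p ∈ Ioc z M, ¬ p ^ 2 ∣ m) : rho (Nat.primesLE z) m ≤ bb z M m := by
  by_cases h4 : ∀ p ∈ Nat.primesLE z, ¬ p ∣ m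
  swap
  · rw [rho_eq, if_neg h4]; exact bb_nonneg _ _ _
  set S := (Qs z M).filter (· ∣ m) with hS
  have h5 := Nat.minFac_prime h1.ne'
  have h6 : m.minFac ∈ S := mem_filter.2 ⟨mem_Qs.2 ⟨h5, not_le.1 fun h7 =>
    h4 _ (Nat.mem_primesLE.2 ⟨h7, h5⟩) m.minFac_dvd,
    Nat.le_sqrt'.2 ((Nat.minFac_sq_le_self (by omega) h).trans h2)⟩, m.minFac_dvd⟩
  have h7 : (0 : ℝ) < S.card := by exact_mod_cast card_pos.2 ⟨_, h6⟩
  refine le_trans (le_of_eq ?_) (card_nsmul_le_sum _ _ (rho (Nat.primesLE z) m / S.card)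
    fun p hp => ?_)
  · rw [nsmul_eq_mul, mul_div_cancel₀ _ h7.ne']
  · obtain ⟨a1, a2⟩ := mem_filter.1 hp
    obtain ⟨a3, a4, a5⟩ := mem_Qs.1 a1
    rw [bet, rho_div a1 a2]
    refine div_le_div_of_nonneg_left (rho_nonneg _ _) (by positivity) ?_
    have : (Qs z M).filter (· ∣ m / p) ⊆ S.erase p := fun q hq => by
      obtain ⟨b1, b2⟩ := mem_filter.1 hq
      refine mem_erase.2 ⟨?_, mem_filter.2 ⟨b1, b2.trans (Nat.div_dvd_of_dvd a2)⟩⟩
      rintro rfl
      refine h3 q (mem_Ioc.2 ⟨a4, a5.trans (Nat.sqrt_le_self _)⟩) ?_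
      rw [sq, ← Nat.mul_div_cancel' a2]
      exact Nat.mul_dvd_mul_left _ b2
    have := card_le_card this
    rw [card_erase_of_mem (show p ∈ S from hp)] at this
    have h8 : 0 < S.card := card_pos.2 ⟨p, hp⟩
    exact_mod_cast (by omega : 1 + ((Qs z M).filter (· ∣ m / p)).card ≤ S.card)

theorem ft_bb (z M : ℕ) (θ : ℝ) : ft (range M) (cx (bb z M)) θ =
    ∑ p ∈ Qs z M, ∑ l ∈ range M with p * l < M, (bet z M l : ℂ) * ee ((p * l : ℕ) * θ) := by
  simp only [ft, cx, bb, Complex.ofReal_sum, sum_mul, sum_filter (s := Qs z M)]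
  rw [sum_comm]
  refine sum_congr rfl fun p hp => ?_
  have p0 := (mem_Qs.1 hp).1.pos
  rw [← sum_filter_of_ne (p := (p ∣ ·)) fun m _ h0 => by
    by_contra h; exact h0 (by simp [h])]
  refine sum_nbij' (· / p) (p * ·) ?_ ?_ ?_ ?_ ?_
  · intro m hm
    obtain ⟨h1, h2⟩ := mem_filter.1 hm
    rw [mem_range] at h1
    exact mem_filter.2 ⟨mem_range.2 ((Nat.div_le_self _ _).trans_lt h1),
      by rwa [Nat.mul_div_cancel' h2]⟩
  · intro l hl
    exact mem_filter.2 ⟨mem_range.2 (mem_filter.1 hl).2, dvd_mul_right _ _⟩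
  · intro m hm; exact Nat.mul_div_cancel' (mem_filter.1 hm).2
  · intro l _; exact Nat.mul_div_cancel_left _ p0
  · intro m hm
    have h2 := (mem_filter.1 hm).2
    rw [if_pos h2, Nat.mul_div_cancel' h2]

theorem pi_bounds {η : ℝ} (hη : 0 < η) : ∀ᶠ N : ℕ in atTop,
    (1 - η) * N / log N ≤ Nat.primeCounting N ∧ Nat.primeCounting N ≤ (1 + η) * N / log N := by
  have h := Pool.Agent.Shared.PNT.pnt_primeCounting.comp tendsto_natCast_atTop_atTop
  filter_upwards [h.eventually (lt_mem_nhds (show 1 - η < 1 by linarith)),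
    h.eventually (gt_mem_nhds (show 1 < 1 + η by linarith)), eventually_ge_atTop 2] with N h1 h2 h3
  have N2 : (2 : ℝ) ≤ N := by exact_mod_cast h3
  have L0 : 0 < log N := log_pos (by linarith)
  simp only [Function.comp, Nat.floor_natCast] at h1 h2
  rw [lt_div_iff₀ (by linarith)] at h1
  rw [div_lt_iff₀ (by linarith)] at h2
  rw [div_le_iff₀ L0, le_div_iff₀ L0]
  exact ⟨h1.le, h2.le⟩

theorem VV_le' {z u : ℕ} {L : ℝ} (hL : 0 < L) (h : L ≤ 2 * u * log z) : VV z ≤ 4 * u / L := by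
  rw [le_div_iff₀ hL]
  nlinarith [VV_le z, mul_le_mul_of_nonneg_left h (VV_pos z).le, Nat.cast_nonneg (α := ℝ) u,
    mul_le_mul_of_nonneg_left (VV_le z) (Nat.cast_nonneg (α := ℝ) u)]

theorem ev_log_ge (c : ℝ) : ∀ᶠ N : ℕ in atTop, c ≤ log N :=
  (tendsto_log_atTop.comp tendsto_natCast_atTop_atTop).eventually_ge_atTop c

theorem bb_minor {κ : ℕ} (hκ : 1 ≤ κ) : ∃ C : ℝ, 1 ≤ C ∧ ∀ᶠ N : ℕ in atTop, ∀ (ε : ℝ) (z : ℕ)
    (lam : Finset ℕ → ℝ), z = Nat.nthRoot (6 * κ + 2) N → IsBH ε κ z (Nat.primesLE z) lam →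
    ∀ t : ℕ, 1 ≤ t → t ≤ log N → ∀ θ, ¬ Maj (t ^ 120) N θ →
      ‖ft (range (4 * N)) (cx (bb z (4 * N))) θ‖ ≤ C * N / log N / t ^ 6 := by
  obtain ⟨D, D1, hD⟩ := nu_minor
  obtain ⟨E, E1, hE⟩ := twin
  obtain ⟨x1, hx1⟩ := eventually_atTop.1 (hE.and (pi_bounds one_pos))
  obtain ⟨u, hu⟩ : ∃ u, u = 6 * κ + 2 := ⟨_, rfl⟩
  have u1 : (1 : ℝ) ≤ u := by exact_mod_cast (by omega : 1 ≤ u)
  set c : ℝ := 12 * D * E * u ^ 2 with hc
  have cu : 12 * u ≤ c ∧ 1 + 4 * D * u ≤ c ∧ 8 * E * u ^ 2 ≤ c := by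
    have h1 : (u : ℝ) ≤ u ^ 2 := by nlinarith
    have h2 : (u : ℝ) ^ 2 ≤ E * u ^ 2 := by nlinarith
    have h3 : E * (u : ℝ) ^ 2 ≤ D * (E * u ^ 2) := by nlinarith
    have h4 : D * (u : ℝ) ≤ D * (E * u ^ 2) := by gcongr; linarith
    have : c = 12 * (D * (E * u ^ 2)) := by rw [hc]; ring
    refine ⟨by linarith, by linarith, by linarith⟩
  have c1 : 1 ≤ c := by linarith [cu.1]
  refine ⟨64 * exp 3 * c ^ 2, ?_, ?_⟩
  · nlinarith [one_le_exp (show (0 : ℝ) ≤ 3 by norm_num), one_le_pow₀ c1 (n := 2)]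
  rw [← hu]
  filter_upwards [root_facts (u := u) (by omega) 96 x1 2 zero_le_two, ev_log_ge 6] with N
    ⟨z1, z2, z3, z4, z5⟩ L6 ε z lam hz h t t1 tL θ hM
  rw [← hz] at z1 z2 z3 z4 z5
  set L := log N with hL
  have L0 : 0 < L := by linarith
  have N0 : 0 < N := (pow_pos (by omega) _).trans_le z3
  have t0 : (0 : ℝ) < t := by exact_mod_cast t1
  have hP : ∀ p ∈ Nat.primesLE z, p.Prime := fun p hp => (Nat.mem_primesLE.1 hp).2
  have hV : ∏ p ∈ Nat.primesLE z, (1 - (1 : ℝ) / p) ≤ 4 * u / L := VV_le' L0 z4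
  have pw : ∀ i j : ℕ, i + j ≤ 96 → 2 * (L ^ i * t ^ j) ≤ z := fun i j hij => by
    refine le_trans (mul_le_mul_of_nonneg_left ?_ zero_le_two) z5
    calc L ^ i * t ^ j ≤ L ^ i * L ^ j := by gcongr
      _ ≤ _ := by rw [← pow_add]; exact pow_le_pow_right₀ (by linarith) hij
  rw [ft_bb, ← sum_fiberwise_of_maps_to (g := Nat.log 2) (t := range (Nat.log 2 (4 * N) + 1))
    fun p hp => mem_range.2 (Nat.lt_succ_of_le (Nat.log_mono_right
      ((mem_Qs.1 hp).2.2.trans (Nat.sqrt_le_self _))))]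
  refine (norm_sum_le _ _).trans ((sum_le_card_nsmul _ _
    (32 * exp 3 * c ^ 2 * N / L ^ 2 / t ^ 6) fun i _ => ?_).trans ?_)
  swap
  · have h1 : (Nat.log 2 (4 * N) : ℝ) * log 2 ≤ L + 2 * log 2 := by
      have := log_le_log (by positivity) (show ((2 : ℝ)) ^ Nat.log 2 (4 * N) ≤ 2 ^ 2 * N by
        exact_mod_cast Nat.pow_log_le_self 2 (by omega))
      rw [log_pow, log_mul (by norm_num) (by positivity), log_pow] at this
      push_cast at this; linarith
    have h2 : ((Nat.log 2 (4 * N) + 1 : ℕ) : ℝ) ≤ 2 * L := by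
      push_cast
      nlinarith [log_two_gt_d9, log_two_lt_d9, Nat.cast_nonneg (α := ℝ) (Nat.log 2 (4 * N))]
    rw [card_range, nsmul_eq_mul]
    refine (mul_le_mul_of_nonneg_right h2 (by positivity)).trans (le_of_eq ?_)
    field_simp; norm_num
  set B := (Qs z (4 * N)).filter (Nat.log 2 · = i)
  rcases B.eq_empty_or_nonempty with hB | ⟨p0, hp0⟩
  · rw [hB, sum_empty, norm_zero]; positivity
  set P := 2 ^ i with hPd
  have hB : ∀ p ∈ B, p.Prime ∧ P ≤ p ∧ p < 2 * P := fun p hp => by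
    obtain ⟨h1, h2⟩ := mem_filter.1 hp
    have h3 := (mem_Qs.1 h1).1
    rw [hPd, ← h2, ← pow_succ']
    exact ⟨h3, Nat.pow_log_le_self 2 h3.ne_zero, Nat.lt_pow_succ_log_self one_lt_two p⟩
  have P0 : 0 < P := by positivity
  obtain ⟨-, q1, q2⟩ := mem_Qs.1 (mem_filter.1 hp0).1
  have zP : z ≤ 2 * P := by have := (hB p0 hp0).2.2; omega
  have Ps : P ≤ (4 * N).sqrt := (hB p0 hp0).2.1.trans q2
  set X := 4 * N / P + 1 with hX
  have sX : (4 * N).sqrt ≤ X := by
    refine le_trans ?_ (Nat.le_succ _)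
    rw [Nat.le_div_iff_mul_le P0]
    exact (Nat.mul_le_mul_left _ Ps).trans (Nat.sqrt_le _)
  have XP : 4 * N < X * P := by rw [mul_comm X]; exact Nat.lt_mul_div_succ _ P0
  have XP2 : X * P ≤ 8 * N := by
    have := Nat.div_mul_le_self (4 * N) P
    have := Ps.trans (Nat.sqrt_le_self _)
    rw [hX, add_mul]; omega
  have RX : (z ^ κ) ^ 3 * z ≤ X := by
    refine le_trans (Nat.le_sqrt'.2 ?_) sX
    rw [← pow_mul, ← pow_succ, ← pow_mul]
    refine le_trans (le_of_eq ?_) (z3.trans (by omega))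
    congr 1; omega
  have zP' : (z : ℝ) ≤ 2 * P := by exact_mod_cast zP
  have PX : (P : ℝ) ≤ X := by exact_mod_cast Ps.trans sX
  have X0 : (0 : ℝ) < X := by positivity
  have R1 : (1 : ℝ) ≤ (z ^ κ : ℕ) := by exact_mod_cast Nat.one_le_pow _ _ (by omega)
  have R3 : ((z ^ κ : ℕ) : ℝ) ^ 3 ≤ X / L / t ^ 12 := by
    rw [div_div, le_div_iff₀ (by positivity)]
    have h1 : ((z ^ κ : ℕ) : ℝ) ^ 3 * z ≤ X := by exact_mod_cast RX
    refine le_trans (mul_le_mul_of_nonneg_left ?_ (by positivity)) h1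
    have := pw 1 12 (by norm_num)
    rw [pow_one] at this
    linarith [mul_pos L0 (pow_pos t0 12)]
  have lP : L ≤ 2 * u * log (2 * P : ℕ) := z4.trans (mul_le_mul_of_nonneg_left
    (log_le_log (by positivity) (by exact_mod_cast zP)) (by positivity))
  have lP0 : 0 < log (2 * P : ℕ) := log_pos (by exact_mod_cast (by omega : 1 < 2 * P))
  obtain ⟨w1, -, w2⟩ := hx1 (2 * P) (z1.trans zP)
  have e : ∀ p ∈ B, (range (4 * N)).filter (p * · < 4 * N) = (range X).filter (p * · < 4 * N) := by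
    intro p hp
    ext l
    simp only [mem_filter, mem_range, and_congr_left_iff]
    intro h1
    have h2 := (hB p hp).2.1
    refine iff_of_true ((Nat.le_mul_of_pos_left _ (by omega)).trans_lt h1) (Nat.lt_succ_of_le ?_)
    rw [Nat.le_div_iff_mul_le P0, mul_comm]
    exact (Nat.mul_le_mul_right _ h2).trans h1.le
  rw [sum_congr rfl fun p hp => by rw [e p hp]]
  refine (box_bound (ν := nu lam (Nat.primesLE z)) (fun l => ?_) L0 c1 t1 hB ?_ (fun Y hY φ hφ => ?_)
    ?_ ?_ (fun k hk => ?_) (bad_count t1 (by exact_mod_cast N0) ?_ ?_ ?_ hM)).trans ?_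
  · rw [abs_of_nonneg (bet_nonneg _ _ _)]
    exact (bet_le _ _ _).trans (h.rho_le l)
  · have h1 := h.sum_nu hP (Nat.zero_le X)
    rw [← range_eq_Ico, Nat.sub_zero] at h1
    have h2 : ((z ^ κ : ℕ) : ℝ) ^ 2 ≤ X / L := ((pow_le_pow_right₀ R1 (by norm_num)).trans R3).trans
      (div_le_self (by positivity) (one_le_pow₀ (by exact_mod_cast t1)))
    calc _ ≤ 2 * (4 * u / L) * X + 4 * (X / L) := h1.trans (by gcongr)
      _ = (8 * u + 4) * X / L := by ring
      _ ≤ _ := by gcongr; linarith [cu.1]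
  · refine (hD h hP (by omega) φ X 0 Y (t ^ 12) (Nat.one_le_pow _ _ t1) X0
      (by exact_mod_cast hY) hφ).trans ?_
    calc _ ≤ X / L / t ^ 12 + D * (4 * u / L) * X / (t ^ 12 : ℕ) := by gcongr
      _ = (1 + 4 * D * u) * X / L / t ^ 12 := by push_cast; ring
      _ ≤ _ := by gcongr; exact cu.2.1
  · have h1 : B.card ≤ Nat.primeCounting (2 * P) := by
      rw [← Nat.primesLE_card_eq_primeCounting]
      exact card_le_card fun p hp => Nat.mem_primesLE.2 ⟨(hB p hp).2.2.le, (hB p hp).1⟩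
    refine (Nat.cast_le.2 h1).trans (w2.trans ?_)
    rw [div_le_div_iff₀ lP0 L0]
    push_cast at lP lP0 ⊢
    have : (0 : ℝ) < P := by positivity
    nlinarith [mul_le_mul_of_nonneg_left lP this.le, mul_le_mul_of_nonneg_right cu.1
      (mul_pos this lP0).le, mul_pos this lP0]
  · have := pw 1 12 (by norm_num)
    rw [pow_one] at this
    linarith
  · refine (w1 k hk).trans ?_
    rw [div_le_div_iff₀ (by positivity) (by positivity)]
    have h1 := pow_le_pow_left₀ L0.le lP 2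
    have s0 := zero_le_one.trans (one_le_sg k)
    calc _ ≤ E * sg k * (2 * P : ℕ) * (2 * u * log (2 * P : ℕ)) ^ 2 := by gcongr
      _ = 8 * E * u ^ 2 * sg k * P * log (2 * P : ℕ) ^ 2 := by push_cast; ring
      _ ≤ _ := by gcongr; exact cu.2.2
  · have := pw 0 96 le_rfl
    exact_mod_cast (show (t : ℝ) ^ 96 ≤ P by linarith)
  · have := pw 0 96 le_rfl
    linarith
  · exact_mod_cast (by omega : N ≤ X * P)
  · have : (X : ℝ) * P ≤ 8 * N := by exact_mod_cast XP2
    calc _ ≤ 4 * exp 3 * c ^ 2 * (8 * N) / L ^ 2 / t ^ 6 := by gcongr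
      _ = _ := by ring

end Pool.Agent.Lib.MP_488d93_nt
end

-- part Pool.Agent.Lib.MP_488d93_nt.FMain
section

/-! A majorant of the primes with small excess and good Fourier bounds. -/

set_option autoImplicit false

namespace Pool.Agent.Lib.MP_488d93_nt

open Finset Real Filter Topology

theorem sum_le_cover {α β : Type*} {U V : Finset α} (S : Finset β) (r : β → α → Prop)
    [∀ b a, Decidable (r b a)] (g : α → ℝ) (hg : ∀ a, 0 ≤ g a) (hU : U ⊆ V)
    (h : ∀ a ∈ U, ∃ b ∈ S, r b a) : ∑ a ∈ U, g a ≤ ∑ b ∈ S, ∑ a ∈ V with r b a, g a := by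
  simp only [sum_filter]
  rw [sum_comm]
  have h0 : ∀ a b, 0 ≤ if r b a then g a else 0 := fun a b => by split_ifs; exacts [hg a, le_rfl]
  refine (sum_le_sum fun a ha => ?_).trans
    (sum_le_sum_of_subset_of_nonneg hU fun a _ _ => sum_nonneg fun b _ => h0 a b)
  obtain ⟨b, h1, h2⟩ := h a ha
  exact le_trans (by rw [if_pos h2]) (single_le_sum (fun b _ => h0 a b) h1)

open Classical in
theorem maj_mass {M K Y T : ℕ} {N W : ℝ} (hY : 0 < Y) (hM : K + Y ≤ M)
    (hT : T / N ≤ 1 / (14 * Y)) (u : ℕ → ℂ)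
    (h : ∀ a b, a ≤ b → b - a ≤ Y → ∑ x ∈ Far T, ‖ft (Ico a b) u x‖ ^ 2 ≤ W) :
    ∑ ξ ∈ range M with Maj T N (gp M ξ), ‖ft (range K) u (gp M ξ)‖ ^ 2 ≤
      4 * M / Y ^ 2 * ((K + Y) * W) := by
  refine (sum_le_cover (Far T) (fun (x : ℚ) ξ => nd (gp M ξ - x) ≤ 1 / (14 * Y)) _
    (fun _ => sq_nonneg _) (filter_subset _ _) fun ξ hξ => ?_).trans ?_
  · obtain ⟨x, h1, h2⟩ := (mem_filter.1 hξ).2.exists_far
    exact ⟨x, h1, h2.trans hT⟩
  refine (sum_le_sum fun (x : ℚ) _ => window hY hM _ (fun m hm => mem_range.1 hm) u x).trans ?_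
  rw [← mul_sum, sum_comm]
  refine mul_le_mul_of_nonneg_left ((sum_le_card_nsmul _ _ W fun x _ => ?_).trans (by simp))
    (by positivity)
  rw [win_range]
  rcases le_total (x + 1 - Y) (min K (x + 1)) with h1 | h1
  · exact h _ _ h1 (by omega)
  · have := h 0 0 le_rfl (by simp)
    rwa [Ico_self, ← Ico_eq_empty_of_le h1] at this

theorem ft_sub (s : Finset ℕ) (f g : ℕ → ℝ) (θ : ℝ) :
    ft s (cx fun m => f m - g m) θ = ft s (cx f) θ - ft s (cx g) θ := by
  simp only [ft, cx, ← sum_sub_distrib, Complex.ofReal_sub, sub_mul]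

theorem Maj.mono {T T' : ℕ} {X X' θ : ℝ} (h : Maj T X θ) (h1 : T ≤ T') (h2 : 0 < X') (h3 : X' ≤ X) :
    Maj T' X' θ := by
  obtain ⟨q, a, b, c⟩ := h
  exact ⟨q, a, b.trans h1, c.trans (by gcongr)⟩

theorem sq_count {z M : ℕ} (hz : 1 ≤ z) :
    (((Ioc 0 M).filter fun m => ∃ p ∈ Ioc z M, p ^ 2 ∣ m).card : ℝ) ≤ M / z := by
  rcases le_or_gt M z with h | h
  · simp only [Ioc_eq_empty_of_le h, notMem_empty, false_and, exists_false, filter_false,
      card_empty, Nat.cast_zero]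
    positivity
  have h1 : ((Ioc 0 M).filter fun m => ∃ p ∈ Ioc z M, p ^ 2 ∣ m) ⊆
      (Ioc z M).biUnion fun p => (Ioc 0 M).filter (p ^ 2 ∣ ·) := fun m hm => by
    obtain ⟨a, p, b, c⟩ := mem_filter.1 hm
    exact mem_biUnion.2 ⟨p, b, mem_filter.2 ⟨a, c⟩⟩
  refine (Nat.cast_le.2 ((card_le_card h1).trans card_biUnion_le)).trans ?_
  have h2 := sum_Ioc_inv_sq_le_sub (α := ℝ) (k := z) (by omega) h.le
  calc _ ≤ ∑ p ∈ Ioc z M, M * ((p : ℝ) ^ 2)⁻¹ := by
        rw [Nat.cast_sum]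
        refine sum_le_sum fun p _ => ?_
        rw [Nat.Ioc_filter_dvd_card_eq_div, ← div_eq_mul_inv]
        exact_mod_cast Nat.cast_div_le (α := ℝ)
    _ ≤ _ := by
        rw [← mul_sum, div_eq_mul_inv]
        exact mul_le_mul_of_nonneg_left (h2.trans (sub_le_self _ (by positivity))) (by positivity)

theorem VV_split {T z : ℕ} : ∏ p ∈ Nat.primesLE z with T < p, (1 - (1 : ℝ) / p) ≤
    VV z * ∏ p ∈ Nat.primesLE T, (1 + 2 / (p : ℝ)) := by
  rw [VV, ← prod_filter_mul_prod_filter_not (Nat.primesLE z) (T < ·), mul_assoc]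
  refine le_mul_of_one_le_right (prod_nonneg fun p hp =>
    (one_sub_inv_pos (Nat.mem_primesLE.1 (mem_filter.1 hp).1).2).le) ?_
  have h1 : ∏ p ∈ Nat.primesLE z with ¬ T < p, (1 + 2 / (p : ℝ)) ≤
      ∏ p ∈ Nat.primesLE T, (1 + 2 / (p : ℝ)) :=
    prod_le_prod_of_subset_of_one_le (fun p hp => Nat.mem_primesLE.2
      ⟨not_lt.1 (mem_filter.1 hp).2, (Nat.mem_primesLE.1 (mem_filter.1 hp).1).2⟩)
      (fun _ _ => by positivity) fun p _ _ => le_add_of_nonneg_right (by positivity)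
  refine le_trans ?_ (mul_le_mul_of_nonneg_left h1 (prod_nonneg fun p hp =>
    (one_sub_inv_pos (Nat.mem_primesLE.1 (mem_filter.1 hp).1).2).le))
  rw [← prod_mul_distrib]
  refine le_of_eq_of_le prod_const_one.symm (prod_le_prod (fun _ _ => zero_le_one) fun p hp => ?_)
  have : (2 : ℝ) ≤ p := by exact_mod_cast (Nat.mem_primesLE.1 (mem_filter.1 hp).1).2.two_le
  have h2 : 1 / (p : ℝ) ≤ 1 / 2 := one_div_le_one_div_of_le two_pos this
  rw [div_eq_mul_one_div 2]
  nlinarith [show 0 ≤ 1 / (p : ℝ) by positivity]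

open Classical in
theorem F_main {ε : ℝ} (hε : 0 < ε) : ∃ C : ℝ, 1 ≤ C ∧ ∀ᶠ N : ℕ in atTop, ∃ F : ℕ → ℝ,
    (∀ m, 0 ≤ F m) ∧ (∀ m, m.Prime → N ≤ m → 1 ≤ F m) ∧
    ∑ m ∈ Ico N (4 * N) with ¬ m.Prime, F m ≤ ε * N / log N ∧ ∀ t : ℕ, 1 ≤ t → t ≤ log N →
      (∀ θ, ¬ Maj (t ^ 120) N θ → ‖ft (range (4 * N)) (cx F) θ‖ ≤ C * N / log N / t ^ 6) ∧
      ∑ ξ ∈ range (8 * N) with Maj (t ^ 240) N (gp (8 * N) ξ),
        ‖ft (range (4 * N)) (cx F) (gp (8 * N) ξ)‖ ^ 2 ≤ C * t * (8 * N * N / log N ^ 2) := by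
  obtain ⟨κ, κ1, hκ⟩ := exists_BH (show 0 < ε / 256 by positivity)
  obtain ⟨C, C1, hC⟩ := bb_minor κ1
  obtain ⟨D, D1, hD⟩ := nu_minor
  obtain ⟨D2, D21, hD2⟩ := small_mertens (exp_pos 176) 240
  obtain ⟨D3, D31, hD3⟩ := small_mertens two_pos 240
  obtain ⟨u, hu⟩ : ∃ u, u = 6 * κ + 2 := ⟨_, rfl⟩
  have u1 : (1 : ℝ) ≤ u := by exact_mod_cast (by omega : 1 ≤ u)
  set W : ℝ := 2 * (2 + 128 * u ^ 2 * D2) + 2 * ((8 * u * D3 + 5) * (8 * u + 4)) with hW
  have W0 : 0 ≤ W := by positivity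
  have G0 : 0 ≤ 16 * D * u := by positivity
  refine ⟨C + (1 + 16 * D * u) + 20 * W, by linarith, ?_⟩
  rw [← hu] at hC
  filter_upwards [root_facts (u := u) (by omega) 481 0 (14 + 24 / ε) (by positivity),
    ev_log_ge 1, hC, eventually_ge_atTop 5] with N ⟨_, z2, z3, z4, z5⟩ L1 hb N5
  set z := Nat.nthRoot u N with hz
  set L := log N with hL
  have L0 : 0 < L := by linarith
  have N0 : (0 : ℝ) < N := by positivity
  have hP : ∀ p ∈ Nat.primesLE z, p.Prime := fun p hp => (Nat.mem_primesLE.1 hp).2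
  have hV : VV z ≤ 4 * u / L := VV_le' L0 z4
  have V0 := VV_pos z
  obtain ⟨lam, h⟩ := hκ z (Nat.primesLE z) (by omega) fun p hp => (Nat.mem_primesLE.1 hp).symm
  have pw : ∀ k ≤ 481, 14 * L ^ k ≤ z := fun k hk => le_trans (mul_le_mul
    (le_add_of_nonneg_right (by positivity)) (pow_le_pow_right₀ L1 hk) (by positivity)
    (by positivity)) z5
  have zpow : ∀ k ≤ u, z ^ k ≤ N := fun k hk => (Nat.pow_le_pow_right (by omega) hk).trans z3
  have R1 : (1 : ℝ) ≤ (z ^ κ : ℕ) := by exact_mod_cast Nat.one_le_pow _ _ (by omega)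
  have z0 : (0 : ℝ) < z := by positivity
  have RN : ((z ^ κ : ℕ) : ℝ) ^ 3 * z * z ≤ N := by
    have := zpow (κ * 3 + 1 + 1) (by omega)
    rw [pow_succ, pow_succ, pow_mul] at this
    exact_mod_cast this
  refine ⟨fun m => nu lam (Nat.primesLE z) m - bb z (4 * N) m,
    fun m => sub_nonneg.2 ((bb_le _ _ _).trans (h.rho_le m)), fun m h1 h2 => ?_, ?_,
    fun t t1 tL => ⟨fun θ hθ => ?_, ?_⟩⟩
  · have h3 : (4 * N).sqrt < m := Nat.sqrt_lt'.2 (by nlinarith)
    have h4 := zpow 2 (by omega)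
    have h5 := h.rho_le m
    rw [rho_eq, if_pos fun p hp h6 => by
      have := (Nat.prime_dvd_prime_iff_eq (hP p hp) h1).1 h6
      have := (Nat.mem_primesLE.1 hp).1
      nlinarith] at h5
    simp only [bb_prime h1 h3, sub_zero]; exact h5
  · set Z := (Ioc 0 (4 * N)).filter fun m => ∃ p ∈ Ioc z (4 * N), p ^ 2 ∣ m
    have h1 := h.err 0 (4 * N) (Nat.zero_le _)
    have h2 : (Z.card : ℝ) ≤ (4 * N : ℕ) / z := sq_count (by omega)
    have h3 : ∑ m ∈ Ico N (4 * N) with ¬ m.Prime, (nu lam (Nat.primesLE z) m - bb z (4 * N) m) ≤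
        ∑ m ∈ Ico 0 (4 * N), (nu lam (Nat.primesLE z) m - rho (Nat.primesLE z) m) + Z.card := by
      calc _ ≤ ∑ m ∈ Ico N (4 * N) with ¬ m.Prime, ((nu lam (Nat.primesLE z) m -
            rho (Nat.primesLE z) m) + if m ∈ Z then 1 else 0) := sum_le_sum fun m hm => by
            obtain ⟨a1, a2⟩ := mem_filter.1 hm
            rw [mem_Ico] at a1
            split_ifs with a3
            · have : rho (Nat.primesLE z) m ≤ 1 := by rw [rho_eq]; split_ifs <;> norm_num
              linarith [bb_nonneg z (4 * N) m]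
            · have := le_bb (z := z) a2 (by omega) a1.2.le fun p hp a4 =>
                a3 (mem_filter.2 ⟨mem_Ioc.2 ⟨by omega, a1.2.le⟩, p, hp, a4⟩)
              linarith
        _ ≤ _ := by
            rw [sum_add_distrib, sum_ite_mem, sum_const, nsmul_eq_mul, mul_one]
            refine add_le_add (sum_le_sum_of_subset_of_nonneg ((filter_subset _ _).trans
              (Ico_subset_Ico_left (Nat.zero_le _))) fun m _ _ => sub_nonneg.2 (h.rho_le m)) ?_
            exact_mod_cast card_le_card inter_subset_right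
    have h4 : ε / 256 / κ * ((4 * N : ℕ) - (0 : ℕ)) * VV z ≤ ε / 2 * N / L := by
      have k0 : (1 : ℝ) ≤ κ := by exact_mod_cast κ1
      have : (u : ℝ) ≤ 8 * κ := by exact_mod_cast (by omega : u ≤ 8 * κ)
      calc _ = ε / 256 / κ * (4 * N) * VV z := by push_cast; ring
        _ ≤ ε / 256 / κ * (4 * N) * (4 * (8 * κ) / L) := by gcongr; exact hV.trans (by gcongr)
        _ = _ := by field_simp; ring
    have h5 : 4 * ((z : ℝ) + 1) * (z ^ κ : ℕ) ^ 2 ≤ 8 * N / z := by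
      rw [le_div_iff₀ z0]
      have : (1 : ℝ) ≤ z := by exact_mod_cast (by omega : 1 ≤ z)
      calc _ ≤ 4 * ((z : ℝ) + z) * (z ^ κ : ℕ) ^ 3 * z := by gcongr; norm_num
        _ ≤ _ := by linarith
    have h6 : 12 * N / (z : ℝ) ≤ ε / 2 * N / L := by
      rw [div_le_div_iff₀ z0 L0]
      have a1 : 24 / ε * L ≤ z := le_trans (mul_le_mul (by linarith)
        (le_self_pow₀ L1 (by norm_num)) L0.le (by positivity)) z5
      rw [div_mul_eq_mul_div, div_le_iff₀ hε] at a1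
      nlinarith
    have e1 : ε * N / L = ε / 2 * N / L + ε / 2 * N / L := by ring
    have e2 : 12 * N / (z : ℝ) = 8 * N / z + (4 * N : ℕ) / z := by push_cast; ring
    change _ ≤ _ * VV z + _ at h1
    unfold nu rho at h3
    unfold nu
    linarith
  · have t0 : (1 : ℝ) ≤ t := by exact_mod_cast t1
    have h1 := hb _ z lam rfl h t t1 tL θ hθ
    have h2 := hD h hP (by omega) θ (4 * N) 0 (4 * N) (t ^ 60) (Nat.one_le_pow _ _ t1)
      (by positivity) (by simp) fun h3 => hθ (h3.mono (by rw [← pow_mul]) N0 (by linarith))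
    have h3 : ((z ^ κ : ℕ) : ℝ) ^ 3 ≤ N / L / t ^ 6 := by
      rw [div_div, le_div_iff₀ (by positivity)]
      refine le_trans ?_ RN
      rw [mul_assoc]
      have := pw 6 (by norm_num)
      have := pw 1 (by norm_num)
      have : (t : ℝ) ^ 6 ≤ L ^ 6 := by gcongr
      gcongr <;> nlinarith [pow_pos L0 6]
    have h4 : D * VV z * (4 * N) / (t ^ 60 : ℕ) ≤ 16 * D * u * N / L / t ^ 6 := by
      calc _ ≤ D * (4 * u / L) * (4 * N) / t ^ 6 := by
            push_cast; gcongr; norm_num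
        _ = _ := by ring
    rw [← range_eq_Ico] at h2
    change _ ≤ _ + D * VV z * _ / _ at h2
    rw [ft_sub]
    refine (norm_sub_le _ _).trans ?_
    calc _ ≤ (N / L / t ^ 6 + 16 * D * u * N / L / t ^ 6) + C * N / L / t ^ 6 := by linarith
      _ = (C + (1 + 16 * D * u)) * N / L / t ^ 6 := by ring
      _ ≤ _ := by
          have : C + (1 + 16 * D * u) ≤ C + (1 + 16 * D * u) + 20 * W := by linarith
          gcongr
  · have t0 : (1 : ℝ) ≤ t := by exact_mod_cast t1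
    set T := t ^ 240 with hT
    have T1 : 1 ≤ T := Nat.one_le_pow _ _ t1
    have T2 : (1 : ℝ) ≤ T := by exact_mod_cast T1
    have TL : (T : ℝ) ≤ L ^ 240 := by rw [hT]; push_cast; gcongr
    have T3 : (T : ℝ) ^ 2 * L ≤ z := by
      have := pw 481 le_rfl
      calc _ ≤ (L ^ 240) ^ 2 * L := by gcongr
        _ = L ^ 481 := by ring
        _ ≤ _ := by linarith [pow_pos L0 481]
    have T4 : 14 * T ≤ z := by
      have := pw 240 (by norm_num)
      exact_mod_cast (show (14 * T : ℝ) ≤ z by linarith)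
    have T5 : T ^ 2 ≤ z ^ κ := by
      refine le_trans ?_ (Nat.le_self_pow (by omega) z)
      exact_mod_cast (le_mul_of_one_le_right (sq_nonneg (T : ℝ)) L1).trans T3
    set Y := N / (14 * T) with hY
    have Y1 : (z ^ κ) ^ 3 * z ≤ Y := by
      rw [hY, Nat.le_div_iff_mul_le (by omega)]
      exact (Nat.mul_le_mul_left _ T4).trans (by exact_mod_cast RN)
    have Y0 : 0 < Y := lt_of_lt_of_le (by positivity) Y1
    have Y2 : Y * (14 * T) ≤ N := Nat.div_mul_le_self _ _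
    have Y3 : Y ≤ N := Nat.div_le_self _ _
    have Y4 : (0 : ℝ) < Y := by exact_mod_cast Y0
    set y := (Y : ℝ) / L with hy
    have y0 : 0 ≤ y := by positivity
    have E1 : (T : ℝ) ^ 2 * (z ^ κ : ℕ) ^ 3 ≤ y := by
      rw [hy, le_div_iff₀ L0]
      have : ((z ^ κ : ℕ) : ℝ) ^ 3 * z ≤ Y := by exact_mod_cast Y1
      calc _ = (z ^ κ : ℕ) ^ 3 * ((T : ℝ) ^ 2 * L) := by ring
        _ ≤ _ := le_trans (by gcongr) this
    have E2 : ((z ^ κ : ℕ) : ℝ) ^ 2 ≤ y := (pow_le_pow_right₀ R1 (by norm_num)).trans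
      ((le_mul_of_one_le_left (by positivity) (one_le_pow₀ T2)).trans E1)
    have E3 : (T : ℝ) ^ 2 * (z ^ κ : ℕ) ^ 6 ≤ y ^ 2 := by
      refine le_trans ?_ (pow_le_pow_left₀ (by positivity) E1 2)
      rw [mul_pow, ← pow_mul, ← pow_mul]
      gcongr; norm_num
    obtain ⟨lam', h'⟩ := hκ z ((Nat.primesLE z).filter (T < ·)) (by omega)
      fun p hp => (Nat.mem_primesLE.1 (mem_filter.1 hp).1).symm
    refine (maj_mass (W := W * t * y ^ 2) Y0 (by omega) ?_ _ fun a b hab hY => ?_).trans ?_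
    · rw [div_le_div_iff₀ N0 (by positivity)]
      have : (Y : ℝ) * (14 * T) ≤ N := by exact_mod_cast Y2
      linarith
    · have ba : ((b - a : ℕ) : ℝ) ≤ Y := by exact_mod_cast hY
      have vy : VV z * (b - a : ℕ) ≤ 4 * u * y := by
        calc _ ≤ 4 * u / L * Y := by gcongr
          _ = _ := by rw [hy]; ring
      have a1 := nu_loc h hP (by omega) ((Nat.le_self_pow two_ne_zero T).trans T5) a b
      have a2 := rough_loc h' (fun p hp => ⟨hP p (mem_filter.1 hp).1, (mem_filter.1 hp).2⟩)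
        (by omega) T5 a b (cx (bb z (4 * N))) fun m hm p hp h1 => hm (by
          have := bb_le z (4 * N) m
          rw [rho_eq, if_neg fun h2 => h2 p (mem_filter.1 hp).1 h1] at this
          rw [cx, le_antisymm this (bb_nonneg _ _ _), Complex.ofReal_zero])
      have a3 := h'.sum_nu (fun p hp => hP p (mem_filter.1 hp).1) hab
      have a4 := h.sum_nu hP hab
      change _ ≤ _ + 8 * VV z ^ 2 * _ * _ at a1
      change _ ≤ 2 * VV z * _ + _ at a4
      have a5 : ∑ m ∈ Ico a b, ‖cx (bb z (4 * N)) m‖ ^ 2 ≤ (8 * u + 4) * y := by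
        refine (sum_le_sum fun m _ => ?_).trans (a4.trans (by linarith))
        have b1 := bb_le z (4 * N) m
        have b2 := bb_nonneg z (4 * N) m
        have b3 : rho (Nat.primesLE z) m ≤ 1 := by rw [rho_eq]; split_ifs <;> norm_num
        rw [cx, Complex.norm_real, Real.norm_of_nonneg b2]
        nlinarith [h.rho_le m]
      have a6 : 2 * (∏ p ∈ Nat.primesLE z with T < p, (1 - (1 : ℝ) / p)) * (b - a : ℕ) ≤
          8 * u * D3 * t * y := by
        calc _ ≤ 2 * (VV z * (D3 * t)) * (b - a : ℕ) := by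
              gcongr
              exact VV_split.trans (mul_le_mul_of_nonneg_left (hD3 t t1) V0.le)
          _ = 2 * (D3 * t) * (VV z * (b - a : ℕ)) := by ring
          _ ≤ 2 * (D3 * t) * (4 * u * y) := by gcongr
          _ = _ := by ring
      have ty : y ≤ t * y := le_mul_of_one_le_left y0 t0
      have a7 := a2.trans (mul_le_mul (show _ ≤ (8 * u * D3 + 5) * (t * y) by linarith) a5
        (sum_nonneg fun _ _ => sq_nonneg _) (by positivity))
      have a8 : 8 * VV z ^ 2 * (b - a : ℕ) ^ 2 * ∏ p ∈ Nat.primesLE T, (1 + exp 176 / p) ≤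
          128 * u ^ 2 * D2 * (t * y ^ 2) := by
        calc _ = 8 * (VV z * (b - a : ℕ)) ^ 2 * ∏ p ∈ Nat.primesLE T, (1 + exp 176 / p) := by ring
          _ ≤ 8 * (4 * u * y) ^ 2 * (D2 * t) := by gcongr; exact hD2 t t1
          _ = _ := by ring
      have ty2 : y ^ 2 ≤ t * y ^ 2 := le_mul_of_one_le_left (sq_nonneg _) t0
      calc _ ≤ ∑ x ∈ Far T, (2 * ‖ft (Ico a b) (cx (nu lam (Nat.primesLE z))) x‖ ^ 2 +
            2 * ‖ft (Ico a b) (cx (bb z (4 * N))) x‖ ^ 2) := sum_le_sum fun x _ => by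
            rw [ft_sub]
            refine (pow_le_pow_left₀ (norm_nonneg _) (norm_sub_le _ _) 2).trans ?_
            nlinarith [sq_nonneg (‖ft (Ico a b) (cx (nu lam (Nat.primesLE z))) x‖ -
              ‖ft (Ico a b) (cx (bb z (4 * N))) x‖)]
        _ ≤ _ := by
            rw [sum_add_distrib, ← mul_sum, ← mul_sum, hW]
            nlinarith
    · have : (Y : ℝ) ≤ N := by exact_mod_cast Y3
      calc _ ≤ 4 * (8 * N : ℕ) / Y ^ 2 * ((5 * N) * (W * t * y ^ 2)) := by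
            gcongr; push_cast; linarith
        _ = 20 * W * t * (8 * N * N / L ^ 2) := by rw [hy]; push_cast; field_simp; ring
        _ ≤ _ := by gcongr; linarith

end Pool.Agent.Lib.MP_488d93_nt
end

-- part Pool.Agent.Lib.MP_488d93_nt.ASet
section

/-! The set of shifts and its large Fourier coefficients. -/

set_option autoImplicit false

namespace Pool.Agent.Lib.MP_488d93_nt

open Finset Real Filter Topology

/-- The shift attached to a prime. -/
def aa (p : ℕ) : ℕ := p - Nat.primeCounting p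

/-- Primes in the upper half. -/
def PP (N : ℕ) : Finset ℕ := (Nat.primesLE N).filter (N < 2 * ·)

theorem mem_PP {N p : ℕ} : p ∈ PP N ↔ p.Prime ∧ N < 2 * p ∧ p ≤ N := by
  simp only [PP, mem_filter, Nat.mem_primesLE]; tauto

theorem pi_le (p : ℕ) : Nat.primeCounting p ≤ p := by
  rw [← Nat.primesLE_card_eq_primeCounting]
  exact (card_le_card fun q hq => mem_Icc.2 ⟨(Nat.mem_primesLE.1 hq).2.pos,
    (Nat.mem_primesLE.1 hq).1⟩).trans (by simp)

theorem pi_sub {p q : ℕ} (h : p ≤ q) : Nat.primeCounting q =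
    Nat.primeCounting p + ((Nat.primesLE q).filter (p < ·)).card := by
  rw [← Nat.primesLE_card_eq_primeCounting, ← Nat.primesLE_card_eq_primeCounting,
    ← card_filter_add_card_filter_not (s := Nat.primesLE q) (p < ·), add_comm]
  congr 2
  ext r
  simp only [mem_filter, Nat.mem_primesLE, not_lt]
  exact ⟨fun a => ⟨a.2, a.1.2⟩, fun a => ⟨⟨a.1.trans h, a.2⟩, a.1⟩⟩

theorem aa_lt {p q : ℕ} (hp : p.Prime) (h2 : 2 < p) (h : p ≤ q) : q + 2 * aa p ≤ p + 2 * aa q := by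
  have h1 : ((Nat.primesLE q).filter (p < ·)).card ≤ (Icc 1 ((q - p) / 2)).card := by
    have := hp.eq_two_or_odd
    refine card_le_card_of_injOn (fun r => (r - p) / 2) (fun r hr => ?_) fun r hr r' hr' e => ?_
    · obtain ⟨a, b⟩ := mem_filter.1 hr
      obtain ⟨c, d⟩ := Nat.mem_primesLE.1 a
      have := d.eq_two_or_odd
      simp only [coe_Icc, Set.mem_Icc]; omega
    · obtain ⟨a, b⟩ := mem_filter.1 hr
      obtain ⟨a', b'⟩ := mem_filter.1 hr'
      have := (Nat.mem_primesLE.1 a).2.eq_two_or_odd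
      have := (Nat.mem_primesLE.1 a').2.eq_two_or_odd
      simp only at e; omega
  have := pi_sub h
  have := pi_le p
  have := pi_le q
  rw [Nat.card_Icc] at h1
  unfold aa; omega

theorem aa_inj {N : ℕ} (hN : 4 ≤ N) : Set.InjOn aa (PP N) := fun p hp q hq e => by
  obtain ⟨a, b, -⟩ := mem_PP.1 hp
  obtain ⟨c, d, -⟩ := mem_PP.1 hq
  rcases le_total p q with h | h
  · have := aa_lt a (by omega) h; omega
  · have := aa_lt c (by omega) h; omega

theorem card_PP : ∀ᶠ N : ℕ in atTop,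
    N / log N / 4 ≤ (PP N).card ∧ (PP N).card ≤ 2 * (N / log N) := by
  obtain ⟨x, hx⟩ := eventually_atTop.1 (pi_bounds (show (0 : ℝ) < 1 / 10 by norm_num))
  filter_upwards [eventually_ge_atTop (2 * x + 2), ev_log_ge 20] with N h1 h2
  have e : Nat.primeCounting N = Nat.primeCounting (N / 2) + (PP N).card := by
    rw [pi_sub (Nat.div_le_self N 2), PP]
    congr 2
    exact filter_congr fun p _ => by omega
  obtain ⟨a1, a2⟩ := hx N (by omega)
  obtain ⟨-, a3⟩ := hx (N / 2) (by omega)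
  have N0 : (0 : ℝ) < N := by exact_mod_cast (by omega : 0 < N)
  have a4 : log N ≤ log (N / 2 : ℕ) + 2 := by
    have := log_le_log N0 (show (N : ℝ) ≤ 2 ^ 2 * (N / 2 : ℕ) by
      exact_mod_cast (by omega : N ≤ 2 ^ 2 * (N / 2)))
    rw [log_mul (by norm_num) (by exact_mod_cast (by omega : N / 2 ≠ 0)), log_pow] at this
    push_cast at this
    linarith [log_two_lt_d9]
  have a5 : (1 + 1 / 10) * (N / 2 : ℕ) / log (N / 2 : ℕ) ≤ 13 / 20 * (N / log N) := by
    have : ((N / 2 : ℕ) : ℝ) ≤ N / 2 := Nat.cast_div_le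
    rw [mul_div_assoc', div_le_div_iff₀ (by linarith) (by linarith)]
    nlinarith [mul_le_mul_of_nonneg_right this (show 0 ≤ log N by linarith)]
  rw [e] at a1 a2
  rw [mul_div_assoc] at a1 a2
  have : 0 ≤ N / log N := by positivity
  push_cast at a1 a2
  constructor <;> linarith [Nat.cast_nonneg (α := ℝ) (Nat.primeCounting (N / 2))]

/-- Pairs in one block with a given difference. -/
def wd (S : Finset ℕ) (Y d : ℕ) : ℕ :=
  (((S ×ˢ S).filter fun x => x.1 / Y = x.2 / Y ∧ x.1 < x.2).filter fun x => x.2 - x.1 = d).card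

theorem block_cs {S : Finset ℕ} {N Y : ℕ} (hS : ∀ a ∈ S, a ≤ N) (hY : 0 < Y) (θ : ℝ) :
    ‖ft S 1 θ‖ ^ 2 ≤ (N / Y + 1 : ℕ) *
      (S.card + 2 * ‖ft (Ico 1 Y) (cx fun d => wd S Y d) θ‖) := by
  set Z := ft (Ico 1 Y) (cx fun d => wd S Y d) θ
  let U := (S ×ˢ S).filter fun x => x.1 / Y = x.2 / Y ∧ x.1 < x.2
  have e1 : ∑ x ∈ U, ee (x.2 * θ) * star (ee (x.1 * θ)) = Z := by
    rw [← sum_fiberwise_of_maps_to (g := fun x => x.2 - x.1) (t := Ico 1 Y) fun x hx => ?_]
    · refine sum_congr rfl fun d _ => ?_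
      rw [sum_congr rfl (g := fun _ => ee (d * θ)) fun x hx => ?_]
      · simp [cx, wd, U]
      · obtain ⟨h1, h2⟩ := mem_filter.1 hx
        rw [star_ee, ← ee_add, ← h2, Nat.cast_sub (mem_filter.1 h1).2.2.le]
        congr 1; ring
    · obtain ⟨-, h1, h2⟩ := mem_filter.1 hx
      have a1 := Nat.div_add_mod x.1 Y
      have a2 := Nat.div_add_mod x.2 Y
      have a3 := Nat.mod_lt x.2 hY
      rw [h1] at a1
      exact mem_Ico.2 (by omega)
  have e2 : ((∑ b ∈ range (N / Y + 1), ‖∑ a ∈ S with a / Y = b, ee (a * θ)‖ ^ 2 : ℝ) : ℂ) =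
      S.card + Z + star Z := by
    have m : ∀ a ∈ S, a / Y ∈ range (N / Y + 1) := fun a ha =>
      mem_range.2 (Nat.lt_succ_of_le (Nat.div_le_div_right (hS a ha)))
    have e3 : ∀ x ∈ S ×ˢ S, (if x.2 / Y = x.1 / Y then ee (x.1 * θ) * star (ee (x.2 * θ)) else 0) =
        (if x.2 = x.1 then 1 else 0) +
        (if x.2 / Y = x.1 / Y ∧ x.2 < x.1 then ee (x.1 * θ) * star (ee (x.2 * θ)) else 0) +
        (if x.1 / Y = x.2 / Y ∧ x.1 < x.2 then ee (x.1 * θ) * star (ee (x.2 * θ)) else 0) := by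
      rintro ⟨a, a'⟩ _
      rcases lt_trichotomy a a' with h | rfl | h
      · simp [h, h.ne', h.not_gt, eq_comm]
      · simp [star_ee, ← ee_add, ee_zero]
      · simp [h, h.ne, h.not_gt]
    calc _ = ∑ b ∈ range (N / Y + 1), ∑ a ∈ S with a / Y = b, ∑ a' ∈ S with a' / Y = a / Y,
          ee (a * θ) * star (ee (a' * θ)) := by
          simp only [Complex.ofReal_sum, normSq_sum]
          exact sum_congr rfl fun b _ => sum_congr rfl fun a ha => by rw [(mem_filter.1 ha).2]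
      _ = ∑ x ∈ S ×ˢ S, if x.2 / Y = x.1 / Y then ee (x.1 * θ) * star (ee (x.2 * θ)) else 0 := by
          rw [sum_fiberwise_of_maps_to m, sum_product]
          simp only [sum_filter]
      _ = _ := by
          rw [sum_congr rfl e3, sum_add_distrib, sum_add_distrib, ← e1, star_sum]
          refine congrArg₂ _ (congrArg₂ _ ?_ ?_) ?_
          · rw [sum_product]
            simp only [sum_ite_eq']
            rw [sum_congr rfl fun a ha => if_pos ha]; simp
          · rw [sum_filter, sum_product, sum_product, sum_comm]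
          · rw [sum_filter]
            refine sum_congr rfl fun x _ => ?_
            split_ifs
            · rw [star_mul', star_star, mul_comm]
            · rfl
  have e4 : ft S 1 θ = ∑ b ∈ range (N / Y + 1), ∑ a ∈ S with a / Y = b, ee (a * θ) := by
    rw [sum_fiberwise_of_maps_to fun a ha =>
      mem_range.2 (Nat.lt_succ_of_le (Nat.div_le_div_right (hS a ha)))]
    simp [ft]
  rw [e4]
  refine (pow_le_pow_left₀ (norm_nonneg _) (norm_sum_le _ _) 2).trans
    (sq_sum_le_card_mul_sum_sq.trans ?_)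
  rw [card_range]
  refine mul_le_mul_of_nonneg_left ((le_abs_self _).trans ?_) (Nat.cast_nonneg _)
  rw [← Real.norm_eq_abs, ← Complex.norm_real, e2]
  refine (norm_add_le _ _).trans ((add_le_add (norm_add_le _ _) le_rfl).trans (le_of_eq ?_))
  rw [norm_star, Complex.norm_natCast]; ring

theorem close_pairs {E : ℝ} {N : ℕ} (hE : 0 ≤ E)
    (h : ∀ h, 1 ≤ h → (tw N h : ℝ) ≤ E * sg h * N / log N ^ 2) (H : ℕ) :
    (((PP N ×ˢ PP N).filter fun x => x.1 < x.2 ∧ x.2 - x.1 ∈ Icc 1 H).card : ℝ) ≤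
      exp 6 * E * H * (N / log N ^ 2) := by
  have h1 := pairs_le (B := PP N) (H := Icc 1 H) (Y := N) fun p hp =>
    ⟨(mem_PP.1 hp).1, (mem_PP.1 hp).2.2⟩
  have h2 := sum_sg_le (H := Icc 1 H) Subset.rfl zero_le_one (by simp)
  refine (Nat.cast_le.2 h1).trans ?_
  rw [Nat.cast_sum]
  calc _ ≤ ∑ h ∈ Icc 1 H, E * (N / log N ^ 2) * sg h := sum_le_sum fun k hk =>
        (h k (mem_Icc.1 hk).1).trans (le_of_eq (by ring))
    _ ≤ E * (N / log N ^ 2) * (exp 6 * 1 * H) := by rw [← mul_sum]; gcongr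
    _ = _ := by ring

theorem ft_one_sub {S T : Finset ℕ} (h : T ⊆ S) (θ : ℝ) :
    ‖ft S 1 θ‖ ≤ ‖ft T 1 θ‖ + (S \ T).card := by
  rw [ft, ← sum_sdiff h, add_comm]
  refine (norm_add_le _ _).trans (add_le_add le_rfl ?_)
  simpa using norm_sum_ee_le (S \ T) fun m => m * θ

theorem large_count : ∃ C : ℝ, 1 ≤ C ∧ ∀ᶠ N : ℕ in atTop, ∀ s : ℝ, 1 ≤ s → s ≤ log N → ∀ Y : ℕ,
    64 * log N * s ^ 2 ≤ Y → Y ≤ 65 * log N * s ^ 2 → ∀ (S : Finset ℕ) (α : ℕ → ℝ),
    (∀ r ∈ S, ∀ r' ∈ S, r ≠ r' → 1 / (14 * (Y : ℝ)) ≤ nd (α r - α r')) →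
    (∀ r ∈ S, (PP N).card / s ≤ ‖ft ((PP N).image aa) 1 (α r)‖) → S.card ≤ C * s ^ 10 := by
  obtain ⟨E, E1, hE⟩ := twin
  set c := 16 * exp 6 * E with hc
  have c1 : 1 ≤ c := by nlinarith [one_le_exp (show (0 : ℝ) ≤ 6 by norm_num)]
  refine ⟨1 + 2 ^ 28 * (65 * c + 1) ^ 2 * E ^ 2 * exp 12 * (c + 2), le_add_of_nonneg_right
    (by positivity), ?_⟩
  filter_upwards [hE, card_PP, ev_log_ge 1, ev_log_pow 3 65, eventually_ge_atTop 4] with N htw
    ⟨K1, K2⟩ L1 L3 N4 s s1 sL Y Y1 Y2 S α hsep hS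
  set L := log N with hL
  set K : ℝ := ((PP N).card : ℝ) with hK
  have N0 : (0 : ℝ) < N := by positivity
  have L0 : 0 < L := by linarith
  have s0 : 0 < s := by linarith
  have K0 : 0 < K := lt_of_lt_of_le (by positivity) K1
  have Y0 : (1 : ℝ) ≤ Y := le_trans (by nlinarith [one_le_pow₀ s1 (n := 2)]) Y1
  have Y3 : 0 < Y := by exact_mod_cast (zero_lt_one.trans_le Y0)
  have YN : (Y : ℝ) ≤ N := by
    refine Y2.trans (le_trans ?_ L3)
    calc 65 * L * s ^ 2 ≤ 65 * L * L ^ 2 := by gcongr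
      _ = _ := by ring
  set J := ⌈c * Y * s / L⌉₊ with hJ
  have J1 : c * Y * s / L ≤ J := Nat.le_ceil _
  have J2 : (J : ℝ) ≤ c * Y * s / L + 1 := (Nat.ceil_lt_add_one (by positivity)).le
  have J3 : (J : ℝ) ≤ (65 * c + 1) * s ^ 3 := by
    have : c * Y * s / L ≤ 65 * c * s ^ 3 := by
      rw [div_le_iff₀ L0]
      calc _ ≤ c * (65 * L * s ^ 2) * s := by gcongr
        _ = _ := by ring
    nlinarith [one_le_pow₀ s1 (n := 3)]
  have J4 : (J : ℝ) ≤ (c + 1) * Y := by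
    have : c * Y * s / L ≤ c * Y := by rw [div_le_iff₀ L0]; gcongr
    linarith
  let nb : ℕ → ℕ := fun p => ((PP N).filter fun q => p < q ∧ q - p ∈ Icc 1 (2 * Y)).card
  let G := (PP N).filter (nb · ≤ J)
  have hG : G ⊆ PP N := filter_subset _ _
  have b1 : (((PP N).image aa \ G.image aa).card : ℝ) ≤ K / s / 2 := by
    have a1 := close_pairs (by linarith) htw (2 * Y)
    have a2 : ((PP N).filter (¬ nb · ≤ J)).card * J ≤
        ((PP N ×ˢ PP N).filter fun x => x.1 < x.2 ∧ x.2 - x.1 ∈ Icc 1 (2 * Y)).card := by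
      rw [card_filter _ (PP N ×ˢ PP N), sum_product]
      simp only [← card_filter]
      exact (card_nsmul_le_sum _ nb J fun p hp => (not_le.1 (mem_filter.1 hp).2).le).trans
        (sum_le_sum_of_subset (filter_subset _ _))
    have a3 : ((PP N).image aa \ G.image aa).card ≤ ((PP N).filter (¬ nb · ≤ J)).card :=
      (card_le_card fun a ha => by
        obtain ⟨h1, h2⟩ := mem_sdiff.1 ha
        obtain ⟨p, h3, rfl⟩ := mem_image.1 h1
        exact mem_image_of_mem aa (mem_filter.2 ⟨h3, fun h4 =>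
          h2 (mem_image_of_mem _ (mem_filter.2 ⟨h3, h4⟩))⟩)).trans card_image_le
    refine (Nat.cast_le.2 a3).trans (le_of_mul_le_mul_right (a := c * Y * s / L) ?_ (by positivity))
    have a4 : (((PP N).filter (¬ nb · ≤ J)).card : ℝ) * J ≤ _ := (Nat.cast_le.2 a2).trans' (by
      rw [Nat.cast_mul])
    calc _ ≤ (((PP N).filter (¬ nb · ≤ J)).card : ℝ) * J := by gcongr
      _ ≤ _ := a4.trans a1
      _ = N / L / 4 / s / 2 * (c * Y * s / L) := by rw [hc, ← hL]; push_cast; field_simp; ring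
      _ ≤ _ := by gcongr
  have b2 : ∀ r ∈ S, K ^ 2 * Y / (32 * N * s ^ 2) ≤
      ‖ft (Ico 1 Y) (cx fun d => wd (G.image aa) Y d) (α r)‖ := fun r hr => by
    have a1 := (hS r hr).trans (ft_one_sub (image_subset_image hG) _)
    have a2 := block_cs (S := G.image aa) (N := N) (fun a ha => by
      obtain ⟨p, h1, rfl⟩ := mem_image.1 ha
      exact (Nat.sub_le _ _).trans (mem_PP.1 (hG h1)).2.2) Y3 (α r)
    have a3 : ((N / Y + 1 : ℕ) : ℝ) ≤ 2 * N / Y := by
      have : ((N / Y : ℕ) : ℝ) ≤ N / Y := Nat.cast_div_le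
      have : 1 ≤ (N : ℝ) / Y := (one_le_div (by linarith)).2 YN
      push_cast; rw [mul_div_assoc]; linarith
    have a4 : ((G.image aa).card : ℝ) ≤ K := Nat.cast_le.2 (card_image_le.trans (card_le_card hG))
    have a5 := pow_le_pow_left₀ (by positivity) (show K / s / 2 ≤ ‖ft (G.image aa) 1 (α r)‖ by
      linarith) 2
    have a6 := a5.trans (a2.trans (mul_le_mul a3 (add_le_add a4 le_rfl) (by positivity)
      (by positivity)))
    have a7 : K ≤ K ^ 2 * Y / (16 * N * s ^ 2) := by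
      rw [le_div_iff₀ (by positivity), sq K, mul_assoc K]
      refine mul_le_mul_of_nonneg_left ?_ K0.le
      calc _ = N / L / 4 * (64 * L * s ^ 2) := by field_simp; ring
        _ ≤ _ := by gcongr
    rw [div_mul_eq_mul_div, le_div_iff₀ (by linarith)] at a6
    have e : (K / s / 2) ^ 2 * Y = 2 * N * (2 * (K ^ 2 * Y / (16 * N * s ^ 2))) := by
      field_simp; ring
    have e2 : K ^ 2 * Y / (16 * N * s ^ 2) = 2 * (K ^ 2 * Y / (32 * N * s ^ 2)) := by
      field_simp; ring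
    rw [e] at a6
    have := le_of_mul_le_mul_left a6 (by positivity)
    linarith
  have b3 : ∀ d ∈ Ico 1 Y, (wd (G.image aa) Y d : ℝ) ≤
      ∑ i ∈ Icc 1 J, E * (N / L ^ 2) * sg (d + i) := fun d hd => by
    have d1 := mem_Ico.1 hd
    have a1 : wd (G.image aa) Y d ≤ ((PP N ×ˢ PP N).filter fun x => x.1 < x.2 ∧
        x.2 - x.1 ∈ (Icc 1 J).image (d + ·)).card := by
      refine (card_le_card fun x hx => ?_).trans (card_image_le (f := Prod.map aa aa))
      obtain ⟨h1, h2⟩ := mem_filter.1 hx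
      obtain ⟨h3, -, h4⟩ := mem_filter.1 h1
      obtain ⟨h5, h6⟩ := mem_product.1 h3
      obtain ⟨p, p1, p2⟩ := mem_image.1 h5
      obtain ⟨q, q1, q2⟩ := mem_image.1 h6
      obtain ⟨p3, p4, p5⟩ := mem_PP.1 (hG p1)
      obtain ⟨q3, q4, q5⟩ := mem_PP.1 (hG q1)
      have pq : p < q := not_le.1 fun h => by have := aa_lt q3 (by omega) h; omega
      have c1 := aa_lt p3 (by omega) pq.le
      have c2 := pi_sub pq.le
      have c3 : ((Nat.primesLE q).filter (p < ·)).card ≤ nb p := card_le_card fun r hr => by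
        obtain ⟨r1, r2⟩ := mem_filter.1 hr
        obtain ⟨r3, r4⟩ := Nat.mem_primesLE.1 r1
        exact mem_filter.2 ⟨mem_PP.2 ⟨r4, by omega, by omega⟩, r2, mem_Icc.2 (by omega)⟩
      have c4 : 0 < ((Nat.primesLE q).filter (p < ·)).card :=
        card_pos.2 ⟨q, mem_filter.2 ⟨Nat.mem_primesLE.2 ⟨le_rfl, q3⟩, pq⟩⟩
      have c5 := (mem_filter.1 p1).2
      have c6 := pi_le p
      have c7 := pi_le q
      refine mem_image.2 ⟨(p, q), mem_filter.2 ⟨mem_product.2 ⟨hG p1, hG q1⟩, pq, mem_image.2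
        ⟨((Nat.primesLE q).filter (p < ·)).card, mem_Icc.2 ⟨c4, c3.trans c5⟩, ?_⟩⟩,
        Prod.ext p2 q2⟩
      unfold aa at p2 q2
      simp only; omega
    have a2 := a1.trans (pairs_le (Y := N) fun p hp => ⟨(mem_PP.1 hp).1, (mem_PP.1 hp).2.2⟩)
    rw [sum_image fun i _ j _ h => by simpa using h] at a2
    refine (Nat.cast_le.2 a2).trans ?_
    rw [Nat.cast_sum]
    exact sum_le_sum fun i _ => (htw _ (by omega)).trans (le_of_eq (by ring))
  have b4 : ∑ d ∈ Ico 1 Y, ‖cx (fun d => wd (G.image aa) Y d) d‖ ^ 2 ≤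
      J ^ 2 * (E * (N / L ^ 2)) ^ 2 * (exp 12 * ((c + 2) * Y)) := by
    calc _ ≤ ∑ d ∈ Ico 1 Y, J * ∑ i ∈ Icc 1 J, (E * (N / L ^ 2) * sg (d + i)) ^ 2 :=
          sum_le_sum fun d hd => by
            rw [cx, Complex.norm_real, Real.norm_of_nonneg (Nat.cast_nonneg _)]
            refine (pow_le_pow_left₀ (Nat.cast_nonneg _) (b3 d hd) 2).trans
              (sq_sum_le_card_mul_sum_sq.trans (le_of_eq ?_))
            simp
      _ = J * ((E * (N / L ^ 2)) ^ 2 * ∑ i ∈ Icc 1 J, ∑ d ∈ Ico 1 Y, sg (d + i) ^ 2) := by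
          rw [← mul_sum, sum_comm]
          simp only [mul_pow, mul_sum]
      _ ≤ J * ((E * (N / L ^ 2)) ^ 2 * ∑ i ∈ Icc 1 J, exp 12 * ((c + 2) * Y)) := by
          gcongr with i hi
          refine (sum_le_sum_inj (· + i) (fun _ _ _ _ h => by simpa using h) (t := Icc 1 (Y + J))
            (fun d hd => ?_) (fun _ _ => le_rfl) fun _ _ => sq_nonneg _).trans
            ((sum_sg_sq _).trans ?_)
          · have := mem_Ico.1 hd
            have := mem_Icc.1 hi
            exact mem_Icc.2 (by omega)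
          · push_cast; gcongr; linarith
      _ = _ := by simp only [sum_const, Nat.card_Icc, add_tsub_cancel_right, nsmul_eq_mul]; ring
  have b5 := ls_win S α (Q := 14 * Y) (by positivity) hsep (c := 1) (Y := Y) (Ico 1 Y)
    (fun m hm => by have := mem_Ico.1 hm; omega) (cx fun d => wd (G.image aa) Y d)
  have b6 := (card_nsmul_le_sum S _ ((K ^ 2 * Y / (32 * N * s ^ 2)) ^ 2) fun r hr =>
    pow_le_pow_left₀ (by positivity) (b2 r hr) 2).trans
    (b5.trans (mul_le_mul_of_nonneg_left b4 (by positivity)))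
  rw [nsmul_eq_mul] at b6
  refine le_of_mul_le_mul_right (a := ((N / L / 4) ^ 2 * Y / (32 * N * s ^ 2)) ^ 2) ?_
    (by positivity)
  calc _ ≤ S.card * (K ^ 2 * Y / (32 * N * s ^ 2)) ^ 2 := by gcongr
    _ ≤ _ := b6
    _ ≤ 1024 * Y * (((65 * c + 1) * s ^ 3) ^ 2 * (E * (N / L ^ 2)) ^ 2 *
        (exp 12 * ((c + 2) * Y))) := by
        refine mul_le_mul (by linarith) ?_ (by positivity) (by positivity)
        gcongr
    _ = 2 ^ 28 * (65 * c + 1) ^ 2 * E ^ 2 * exp 12 * (c + 2) * s ^ 10 *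
        ((N / L / 4) ^ 2 * Y / (32 * N * s ^ 2)) ^ 2 := by field_simp; ring
    _ ≤ _ := by gcongr; linarith

end Pool.Agent.Lib.MP_488d93_nt
end

-- part Pool.Agent.Lib.MP_488d93_nt.AMass
section

/-! Mass of the large spectrum of the shifts, and collisions modulo small numbers. -/

set_option autoImplicit false

namespace Pool.Agent.Lib.MP_488d93_nt

open Finset Real Filter Topology

theorem exists_sep (U : Finset ℕ) (α : ℕ → ℝ) {δ : ℝ} (hδ : 0 ≤ δ) : ∃ S ⊆ U,
    (∀ r ∈ S, ∀ r' ∈ S, r ≠ r' → δ ≤ nd (α r - α r')) ∧ ∀ u ∈ U, ∃ r ∈ S, nd (α u - α r) ≤ δ := by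
  induction U using Finset.induction_on with
  | empty => exact ⟨∅, Subset.rfl, by simp, by simp⟩
  | insert a U _ ih =>
    obtain ⟨S, h1, h2, h3⟩ := ih
    by_cases h : ∃ r ∈ S, nd (α a - α r) ≤ δ
    · exact ⟨S, h1.trans (subset_insert _ _), h2, fun u hu =>
        (mem_insert.1 hu).elim (fun e => e ▸ h) (h3 u)⟩
    push Not at h
    refine ⟨insert a S, insert_subset_insert _ h1, fun r hr r' hr' e => ?_, fun u hu => ?_⟩
    · rcases mem_insert.1 hr with e1 | h4 <;> rcases mem_insert.1 hr' with e2 | h5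
      · exact absurd (e1.trans e2.symm) e
      · rw [e1]; exact (h _ h5).le
      · rw [e2, nd_sub_comm]; exact (h _ h4).le
      · exact h2 r h4 r' h5 e
    · rcases mem_insert.1 hu with rfl | hu
      · exact ⟨u, mem_insert_self _ _, by simpa [nd] using hδ⟩
      · obtain ⟨r, a1, a2⟩ := h3 u hu
        exact ⟨r, mem_insert_of_mem a1, a2⟩

theorem norm_ft_one (S : Finset ℕ) (θ : ℝ) : ‖ft S 1 θ‖ ≤ S.card := by
  simpa [ft] using norm_sum_ee_le S fun m => m * θ

theorem win_sq {S : Finset ℕ} {K : ℕ} (hS : ∀ m ∈ S, m < K) (Y : ℕ) (θ : ℝ) :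
    ∑ x ∈ range (K + Y), ‖ft (win S Y x) 1 θ‖ ^ 2 ≤
      Y * (S.card + 2 * ((S ×ˢ S).filter fun x => x.1 < x.2 ∧ x.2 < x.1 + Y).card) := by
  set U := (S ×ˢ S).filter fun x => x.1 < x.2 ∧ x.2 < x.1 + Y
  have h1 : ((S ×ˢ S).filter fun x => x.1 < x.2 + Y ∧ x.2 < x.1 + Y).card ≤
      S.card + 2 * U.card := by
    calc _ ≤ (S.diag ∪ U ∪ U.image Prod.swap).card := card_le_card fun x hx => by
          obtain ⟨a, b, c⟩ := mem_filter.1 hx
          simp only [mem_union]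
          rcases lt_trichotomy x.1 x.2 with h | h | h
          · exact Or.inl (Or.inr (mem_filter.2 ⟨a, h, c⟩))
          · exact Or.inl (Or.inl (mem_diag.2 ⟨(mem_product.1 a).1, h⟩))
          · exact Or.inr (mem_image.2 ⟨x.swap, mem_filter.2
              ⟨mem_product.2 (mem_product.1 a).symm, h, b⟩, rfl⟩)
      _ ≤ _ := by
          have a1 := card_union_le (S.diag ∪ U) (U.image Prod.swap)
          have a2 := card_union_le S.diag U
          have a3 : (U.image Prod.swap).card ≤ U.card := card_image_le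
          rw [diag_card] at a2
          omega
  calc _ ≤ ∑ x ∈ range (K + Y), ∑ _m ∈ win S Y x, ((win S Y x).card : ℝ) := sum_le_sum fun x _ => by
        rw [sum_const, nsmul_eq_mul, ← sq]
        exact pow_le_pow_left₀ (norm_nonneg _) (norm_ft_one _ _) 2
    _ ≤ ∑ m ∈ S, ∑ _j ∈ range Y, ((S.filter fun a => m < a + Y ∧ a < m + Y).card : ℝ) := by
        rw [sum_win hS Y fun x _ => ((win S Y x).card : ℝ)]
        refine sum_le_sum fun m _ => sum_le_sum fun j hj => Nat.cast_le.2 (card_le_card fun a ha => ?_)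
        have := mem_range.1 hj
        simp only [win, mem_filter] at ha ⊢
        exact ⟨ha.1, by omega⟩
    _ = Y * (((S ×ˢ S).filter fun x => x.1 < x.2 + Y ∧ x.2 < x.1 + Y).card : ℕ) := by
        rw [card_filter _ (S ×ˢ S), sum_product]
        simp only [← card_filter, sum_const, card_range, nsmul_eq_mul, Nat.cast_sum, mul_sum]
    _ ≤ _ := by gcongr; exact_mod_cast h1

theorem aa_le {N a : ℕ} (h : a ∈ (PP N).image aa) : a ≤ N := by
  obtain ⟨p, h1, rfl⟩ := mem_image.1 h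
  exact (Nat.sub_le _ _).trans (mem_PP.1 h1).2.2

theorem exists_Y {L s : ℝ} (hL : 1 ≤ L) (hs : 1 ≤ s) :
    ∃ Y : ℕ, 64 * L * s ^ 2 ≤ Y ∧ Y ≤ 65 * L * s ^ 2 ∧ L ≤ Y := by
  have h1 : L ≤ L * s ^ 2 := le_mul_of_one_le_right (by linarith) (one_le_pow₀ hs)
  have h2 := Nat.le_ceil (64 * L * s ^ 2)
  have h3 := (Nat.ceil_lt_add_one (show 0 ≤ 64 * L * s ^ 2 by positivity)).le
  exact ⟨_, h2, by linarith, by linarith⟩

open Classical in
theorem large_mass : ∃ C : ℝ, 1 ≤ C ∧ ∀ᶠ N : ℕ in atTop, ∀ s : ℝ, 1 ≤ s → s ≤ log N →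
    ∑ ξ ∈ range (8 * N) with (PP N).card / s ≤ ‖ft ((PP N).image aa) 1 (gp (8 * N) ξ)‖,
      ‖ft ((PP N).image aa) 1 (gp (8 * N) ξ)‖ ^ 2 ≤ C * s ^ 10 * (8 * N * N / log N ^ 2) := by
  obtain ⟨E, E1, hE⟩ := twin
  obtain ⟨C, C1, hC⟩ := large_count
  have e6 := one_le_exp (show (0 : ℝ) ≤ 6 by norm_num)
  refine ⟨C * (4 * (2 + 4 * exp 6 * E)), by nlinarith [mul_pos (exp_pos 6) (zero_lt_one.trans_le E1)],
    ?_⟩
  filter_upwards [hE, hC, card_PP, ev_log_ge 1, ev_log_pow 3 65, eventually_ge_atTop 4] with N htw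
    hc ⟨_, K2⟩ L1 L3 N4 s s1 sL
  obtain ⟨Y, Y1, Y2, Y3⟩ := exists_Y L1 s1
  set L := log N with hL
  set A := (PP N).image aa
  have L0 : 0 < L := by linarith
  have Y0 : (0 : ℝ) < Y := by linarith
  have YN : (Y : ℝ) ≤ N := by
    refine Y2.trans (le_trans ?_ L3)
    calc 65 * L * s ^ 2 ≤ 65 * L * L ^ 2 := by gcongr
      _ = _ := by ring
  have YN' : Y ≤ N := by exact_mod_cast YN
  obtain ⟨S, h1, h2, h3⟩ := exists_sep ((range (8 * N)).filter fun ξ =>
    (PP N).card / s ≤ ‖ft A 1 (gp (8 * N) ξ)‖) (gp (8 * N)) (δ := 1 / (14 * Y)) (by positivity)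
  have h4 := hc s s1 sL Y Y1 Y2 S _ h2 fun r hr => (mem_filter.1 (h1 hr)).2
  have hA : ∀ m ∈ A, m < N + 1 := fun m hm => Nat.lt_succ_of_le (aa_le hm)
  have h5 : ((A ×ˢ A).filter fun x => x.1 < x.2 ∧ x.2 < x.1 + Y).card ≤
      ((PP N ×ˢ PP N).filter fun x => x.1 < x.2 ∧ x.2 - x.1 ∈ Icc 1 (2 * Y)).card := by
    refine (card_le_card fun x hx => ?_).trans (card_image_le (f := Prod.map aa aa))
    obtain ⟨a1, a2, a3⟩ := mem_filter.1 hx
    obtain ⟨p, p1, p2⟩ := mem_image.1 (mem_product.1 a1).1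
    obtain ⟨q, q1, q2⟩ := mem_image.1 (mem_product.1 a1).2
    obtain ⟨p3, p4, p5⟩ := mem_PP.1 p1
    obtain ⟨q3, q4, q5⟩ := mem_PP.1 q1
    have pq : p < q := not_le.1 fun h => by have := aa_lt q3 (by omega) h; omega
    have c1 := aa_lt p3 (by omega) pq.le
    exact mem_image.2 ⟨(p, q), mem_filter.2 ⟨mem_product.2 ⟨p1, q1⟩, pq,
      mem_Icc.2 (by simp only; omega)⟩, Prod.ext p2 q2⟩
  have h6 := (Nat.cast_le.2 h5).trans (close_pairs (by linarith) htw (2 * Y))
  have h7 : (A.card : ℝ) ≤ 2 * Y * (N / L ^ 2) := by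
    refine (Nat.cast_le.2 card_image_le).trans (K2.trans ?_)
    calc 2 * (N / L) = 2 * L * (N / L ^ 2) := by field_simp
      _ ≤ _ := by gcongr
  refine (sum_le_cover S (fun r ξ => nd (gp (8 * N) ξ - gp (8 * N) r) ≤ 1 / (14 * Y)) _
    (fun _ => sq_nonneg _) (filter_subset _ _) h3).trans ((sum_le_card_nsmul _ _
      (4 * (2 + 4 * exp 6 * E) * (8 * N * N / L ^ 2)) fun r _ => ?_).trans ?_)
  · refine (window (by exact_mod_cast Y0) (by omega) A hA 1 _).trans ?_
    calc _ ≤ 4 * (8 * N : ℕ) / Y ^ 2 * (Y * (2 * Y * (N / L ^ 2) +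
          2 * (exp 6 * E * (2 * Y : ℕ) * (N / L ^ 2)))) := by
          gcongr
          exact (win_sq hA Y _).trans (by gcongr)
      _ = _ := by push_cast; field_simp; ring
  · rw [nsmul_eq_mul]
    calc _ ≤ C * s ^ 10 * (4 * (2 + 4 * exp 6 * E) * (8 * N * N / L ^ 2)) := by gcongr
      _ = _ := by ring

theorem sum_mod_sq {ι : Type*} (S : Finset ι) (a : ι → ℕ) (d : ℕ) :
    ∑ b ∈ range d, ‖∑ p ∈ S, ee (a p * gp d b)‖ ^ 2 =
      d * ((S ×ˢ S).filter fun x => a x.1 ≡ a x.2 [MOD d]).card := by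
  apply Complex.ofReal_injective
  push_cast [-Complex.ofReal_pow]
  simp only [normSq_sum]
  rw [sum_comm, card_filter, sum_product, Nat.cast_sum, mul_sum]
  refine sum_congr rfl fun p _ => ?_
  rw [sum_comm, Nat.cast_sum, mul_sum]
  refine sum_congr rfl fun q _ => ?_
  have := orth (M := d) ((a p : ℤ) - a q)
  calc _ = ∑ ξ ∈ range d, ee (((a p : ℤ) - a q : ℤ) * (ξ / d)) := sum_congr rfl fun ξ _ => by
        rw [star_ee, ← ee_add, gp]
        congr 1; push_cast; ring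
    _ = _ := by
        rw [this]
        simp only [Nat.modEq_iff_dvd, dvd_sub_comm (b := (a p : ℤ))]
        split_ifs <;> simp

theorem collision : ∃ C : ℝ, 1 ≤ C ∧ ∀ᶠ N : ℕ in atTop, ∀ d : ℕ, 1 ≤ d → d ≤ log N →
    (((PP N ×ˢ PP N).filter fun x => aa x.1 ≡ aa x.2 [MOD d]).card : ℝ) ≤
      C * (PP N).card ^ 2 * (d : ℝ) ^ (-(1 / 6) : ℝ) := by
  obtain ⟨C, C1, hC⟩ := large_count
  refine ⟨1 + C, by linarith, ?_⟩
  filter_upwards [hC, eventually_ge_atTop 4] with N hc N4 d d1 dL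
  have d0 : (1 : ℝ) ≤ d := by exact_mod_cast d1
  set s := (d : ℝ) ^ (1 / 12 : ℝ) with hs
  have s1 : 1 ≤ s := one_le_rpow d0 (by norm_num)
  have s2 : s ^ 12 = d := by rw [hs, ← rpow_natCast, ← rpow_mul (by linarith)]; norm_num
  have s3 : (d : ℝ) ^ (-(1 / 6) : ℝ) = 1 / s ^ 2 := by
    rw [rpow_neg (by linarith), hs, ← rpow_natCast, ← rpow_mul (by linarith)]; norm_num
  have s4 : s ≤ d := by rw [← s2]; exact le_self_pow₀ s1 (by norm_num)
  obtain ⟨Y, Y1, Y2, Y3⟩ := exists_Y (d0.trans dL) s1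
  set K : ℝ := ((PP N).card : ℝ)
  let S := (range d).filter fun b => K / s ≤ ‖ft ((PP N).image aa) 1 (gp d b)‖
  have h1 := hc s s1 (s4.trans dL) Y Y1 Y2 S (gp d) (fun r hr r' hr' e => by
    have a1 := mem_range.1 (mem_filter.1 hr).1
    have a2 := mem_range.1 (mem_filter.1 hr').1
    have a3 := nd_int_div (n := (r : ℤ) - r') d1 fun h =>
      e (by have := Int.eq_zero_of_abs_lt_dvd h (by rw [abs_lt]; omega); omega)
    push_cast at a3
    rw [gp, gp, ← sub_div]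
    exact (one_div_le_one_div_of_le (by linarith) (by linarith)).trans a3)
    fun r hr => (mem_filter.1 hr).2
  have h2 : ∀ θ, ft ((PP N).image aa) 1 θ = ∑ p ∈ PP N, ee (aa p * θ) := fun θ => by
    rw [ft, sum_image (aa_inj N4)]; simp
  have h3 := sum_mod_sq (PP N) aa d
  simp only [← h2] at h3
  have h4 : ∑ b ∈ range d, ‖ft ((PP N).image aa) 1 (gp d b)‖ ^ 2 ≤
      d * (K / s) ^ 2 + S.card * K ^ 2 := by
    calc _ ≤ ∑ b ∈ range d, ((K / s) ^ 2 + if b ∈ S then K ^ 2 else 0) := sum_le_sum fun b hb => by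
          split_ifs with h
          · exact le_add_of_nonneg_of_le (sq_nonneg _) (pow_le_pow_left₀ (norm_nonneg _)
              ((norm_ft_one _ _).trans (Nat.cast_le.2 card_image_le)) 2)
          · rw [add_zero]
            exact pow_le_pow_left₀ (norm_nonneg _)
              (not_le.1 fun h' => h (mem_filter.2 ⟨hb, h'⟩)).le 2
      _ = _ := by
          rw [sum_add_distrib, sum_ite_mem, inter_eq_right.2 (show S ⊆ range d from filter_subset _ _)]
          simp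
  refine le_of_mul_le_mul_left (a := (d : ℝ)) ?_ (by linarith)
  rw [← h3, s3]
  calc _ ≤ d * (K / s) ^ 2 + C * s ^ 10 * K ^ 2 := h4.trans (by gcongr)
    _ = _ := by rw [← s2]; field_simp

end Pool.Agent.Lib.MP_488d93_nt
end

-- part Pool.Agent.Lib.MP_488d93_nt.Rec
section

/-! Smoothing the majorant along progressions changes the count very little. -/

set_option autoImplicit false

namespace Pool.Agent.Lib.MP_488d93_nt

open Finset Real Filter Topology

open Classical in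
theorem recursion {U : Finset ℕ} {f g : ℕ → ℝ} {m : ℕ → ℕ → Prop} {C w K L : ℝ} (hC : 1 ≤ C)
    (hw : 0 ≤ w) (hK : K ≤ 2 * w) (f0 : ∀ ξ, 0 ≤ f ξ) (g0 : ∀ ξ, 0 ≤ g ξ)
    (h1 : ∀ t : ℕ, 1 ≤ t → t ≤ L → ∀ ξ, ¬ m (t ^ 120) ξ → f ξ ≤ C * w / t ^ 6)
    (h2 : ∀ t : ℕ, 1 ≤ t → t ≤ L → ∑ ξ ∈ U with m (t ^ 240) ξ, f ξ ^ 2 ≤ C * t * (8 * w ^ 2))
    (h3 : ∀ t : ℕ, 1 ≤ t → t ≤ L → ∑ ξ ∈ U with K / t ≤ g ξ, g ξ ^ 2 ≤ C * t ^ 10 * (8 * w ^ 2))
    (h4 : ∑ ξ ∈ U, g ξ ^ 2 ≤ 16 * L * w ^ 2) (n : ℕ) : ∀ t : ℕ, 2 ≤ t → t ≤ L → L < t + n →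
    ∑ ξ ∈ U with ¬ m (t ^ 120) ξ, f ξ ^ 2 * g ξ ^ 2 ≤ 80 * C ^ 3 * w ^ 4 / t := by
  induction n with
  | zero => intro t _ a b; simp only [Nat.cast_zero, add_zero] at b; linarith
  | succ n ih =>
    intro t t2 tL hn
    have t0 : (2 : ℝ) ≤ t := by exact_mod_cast t2
    have C2 : C ^ 2 ≤ C ^ 3 := pow_le_pow_right₀ hC (by norm_num)
    have C3 : C ≤ C ^ 3 := le_self_pow₀ hC (by norm_num)
    have a1 : ∀ ξ, ¬ m (t ^ 120) ξ → f ξ ^ 2 * g ξ ^ 2 ≤ (C * w / t ^ 6) ^ 2 * g ξ ^ 2 :=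
      fun ξ h => mul_le_mul_of_nonneg_right (pow_le_pow_left₀ (f0 ξ) (h1 t (by omega) tL ξ h) 2)
        (sq_nonneg _)
    rcases lt_or_ge L (t ^ 2 : ℕ) with h | h
    · push_cast at h
      calc _ ≤ ∑ ξ ∈ U, (C * w / t ^ 6) ^ 2 * g ξ ^ 2 :=
            (sum_le_sum fun ξ hξ => a1 ξ (mem_filter.1 hξ).2).trans
              (sum_le_sum_of_subset_of_nonneg (filter_subset _ _) fun _ _ _ => by positivity)
        _ ≤ (C * w / t ^ 6) ^ 2 * (16 * t ^ 2 * w ^ 2) := by
            rw [← mul_sum]; gcongr; exact h4.trans (by gcongr)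
        _ = 16 * C ^ 2 * w ^ 4 / t ^ 10 := by field_simp
        _ ≤ _ := by
            gcongr
            · norm_num
            · exact le_self_pow₀ (by linarith) (by norm_num)
    have a2 := ih (t ^ 2) (by nlinarith) h (by push_cast at hn ⊢; nlinarith)
    rw [← pow_mul] at a2
    have a3 := h2 t (by omega) tL
    have a4 := h3 t (by omega) tL
    calc _ ≤ ∑ ξ ∈ U, ((if ¬ m (t ^ 240) ξ then f ξ ^ 2 * g ξ ^ 2 else 0) +
          (2 * w / t) ^ 2 * (if m (t ^ 240) ξ then f ξ ^ 2 else 0) +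
          (C * w / t ^ 6) ^ 2 * if K / t ≤ g ξ then g ξ ^ 2 else 0) := by
          rw [sum_filter]
          refine sum_le_sum fun ξ _ => ?_
          have b1 : 0 ≤ (2 * w / t) ^ 2 * f ξ ^ 2 := by positivity
          have b2 : 0 ≤ (C * w / t ^ 6) ^ 2 * g ξ ^ 2 := by positivity
          have b3 : 0 ≤ f ξ ^ 2 * g ξ ^ 2 := by positivity
          have b4 := a1 ξ
          have b5 : ¬ K / t ≤ g ξ → f ξ ^ 2 * g ξ ^ 2 ≤ (2 * w / t) ^ 2 * f ξ ^ 2 := fun h => by
            rw [mul_comm]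
            have : g ξ ≤ 2 * w / t := (not_le.1 h).le.trans (by gcongr)
            have := g0 ξ
            gcongr
          by_cases c1 : m (t ^ 120) ξ <;> by_cases c2 : m (t ^ 240) ξ <;>
            by_cases c3 : K / t ≤ g ξ <;>
            simp only [c1, c2, c3, not_true, not_false_iff, if_true, if_false, forall_const,
              mul_zero] at b4 b5 ⊢ <;> linarith
      _ ≤ 80 * C ^ 3 * w ^ 4 / (t ^ 2 : ℕ) + (2 * w / t) ^ 2 * (C * t * (8 * w ^ 2)) +
          (C * w / t ^ 6) ^ 2 * (C * t ^ 10 * (8 * w ^ 2)) := by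
          simp only [sum_add_distrib, ← mul_sum, ← sum_filter]
          gcongr
      _ = (80 * C ^ 3 / t + 32 * C + 8 * C ^ 3 / t) * w ^ 4 / t := by push_cast; field_simp; ring
      _ ≤ _ := by
          have : C ^ 3 / t ≤ C ^ 3 / 2 := by gcongr
          gcongr
          rw [mul_div_assoc, mul_div_assoc]
          linarith

theorem inversion {M K s : ℕ} (hK : K ≤ M) (hs : s < K) (u : ℕ → ℂ) :
    M * u s = ∑ ξ ∈ range M, ft (range K) u (gp M ξ) * ee (-(s * gp M ξ)) := by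
  simp only [ft, sum_mul]
  rw [sum_comm, sum_eq_single s (fun m hm h => ?_) fun h => absurd (mem_range.2 hs) h]
  · simp only [mul_assoc, ← ee_add, add_neg_cancel, ee_zero, mul_one, sum_const, card_range,
      nsmul_eq_mul]
  · have h1 := mem_range.1 hm
    have := orth' (M := M) (h := (m : ℤ) - s) (by rw [abs_lt]; omega)
    rw [if_neg (by omega)] at this
    simp only [mul_assoc, ← mul_sum, ← ee_add]
    rw [← mul_zero (u m), ← this]
    congr 1
    refine sum_congr rfl fun ξ _ => ?_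
    congr 1; rw [gp]; push_cast; ring

/-- One minus the transform of the averaging kernel. -/
noncomputable def ker (W J : ℕ) (θ : ℝ) : ℂ :=
  (1 / J : ℝ) * ∑ j ∈ range J, (1 - ee (-((j * W : ℕ) * θ)))

theorem norm_ker_le {W J : ℕ} {θ b : ℝ} (hb : 0 ≤ b)
    (h : ∀ j < J, ‖1 - ee (-((j * W : ℕ) * θ))‖ ≤ b) : ‖ker W J θ‖ ≤ b := by
  rcases Nat.eq_zero_or_pos J with rfl | hJ
  · simpa [ker] using hb
  have J0 : (0 : ℝ) < J := by exact_mod_cast hJ
  rw [ker, norm_mul, Complex.norm_real, Real.norm_of_nonneg (by positivity), one_div,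
    inv_mul_le_iff₀ J0]
  exact (norm_sum_le _ _).trans ((sum_le_card_nsmul _ _ b fun j hj => h j (mem_range.1 hj)).trans
    (by simp))

theorem err_sq {M K W J : ℕ} (hK : K ≤ M) (hJ : 0 < J) (F : ℕ → ℝ) {E A : Finset ℕ}
    (h : ∀ n ∈ E, ∀ a ∈ A, ∀ j < J, n + a + j * W < K) (hE : ∀ n ∈ E, n < M) :
    M * (∑ n ∈ E, ∑ a ∈ A, (F (n + a) - 1 / J * ∑ j ∈ range J, F (n + a + j * W))) ^ 2 ≤
      E.card * ∑ ξ ∈ range M, ‖ft (range K) (cx F) (gp M ξ)‖ ^ 2 * ‖ft A 1 (gp M ξ)‖ ^ 2 *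
        ‖ker W J (gp M ξ)‖ ^ 2 := by
  set S := ∑ n ∈ E, ∑ a ∈ A, (F (n + a) - 1 / J * ∑ j ∈ range J, F (n + a + j * W)) with hS
  have J0 : (J : ℂ) ≠ 0 := by exact_mod_cast hJ.ne'
  have e : (M : ℂ) * (S : ℝ) = ∑ ξ ∈ range M, star (ft E 1 (gp M ξ)) *
      (ft (range K) (cx F) (gp M ξ) * star (ft A 1 (gp M ξ)) * ker W J (gp M ξ)) := by
    have e1 : ∀ n ∈ E, ∀ a ∈ A, (M : ℂ) * (F (n + a) - 1 / J * ∑ j ∈ range J,
        F (n + a + j * W) : ℝ) = ∑ ξ ∈ range M, ee (-(n * gp M ξ)) *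
          (ft (range K) (cx F) (gp M ξ) * ee (-(a * gp M ξ)) * ker W J (gp M ξ)) := by
      intro n hn a ha
      have e2 : ((F (n + a) - 1 / J * ∑ j ∈ range J, F (n + a + j * W) : ℝ) : ℂ) =
          (1 / J : ℝ) * ∑ j ∈ range J, (cx F (n + a) - cx F (n + a + j * W)) := by
        simp only [cx, sum_sub_distrib, sum_const, card_range, nsmul_eq_mul]
        push_cast; field_simp
      have e3 := inversion hK (by simpa using h n hn a ha 0 hJ) (cx F)
      rw [e2, mul_left_comm, mul_sum]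
      simp only [ker, mul_sum]
      rw [sum_comm]
      refine sum_congr rfl fun j hj => ?_
      rw [mul_sub, e3, inversion hK (h n hn a ha j (mem_range.1 hj)), ← sum_sub_distrib, mul_sum]
      refine sum_congr rfl fun ξ _ => ?_
      rw [show -(((n + a + j * W : ℕ) : ℝ) * gp M ξ) = -(n * gp M ξ) + -(a * gp M ξ) +
        -((j * W : ℕ) * gp M ξ) by push_cast; ring,
        show -(((n + a : ℕ) : ℝ) * gp M ξ) = -(n * gp M ξ) + -(a * gp M ξ) by push_cast; ring,
        ee_add, ee_add, ee_add]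
      ring
    rw [hS, Complex.ofReal_sum, mul_sum, sum_congr rfl fun n hn => by
      rw [Complex.ofReal_sum, mul_sum, sum_congr rfl fun a ha => e1 n hn a ha]]
    have e4 : ∀ (X : Finset ℕ) (θ : ℝ), star (ft X 1 θ) = ∑ n ∈ X, ee (-(n * θ)) := fun X θ => by
      simp only [ft, star_sum, Pi.one_apply, one_mul, star_ee]
    simp only [e4, sum_mul, mul_sum]
    rw [sum_congr rfl fun n _ => sum_comm, sum_comm]
    exact sum_congr rfl fun ξ _ => sum_comm
  have h1 : M * |S| ≤ ∑ ξ ∈ range M, ‖ft E 1 (gp M ξ)‖ *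
      (‖ft (range K) (cx F) (gp M ξ)‖ * ‖ft A 1 (gp M ξ)‖ * ‖ker W J (gp M ξ)‖) := by
    have := congrArg norm e
    rw [norm_mul, Complex.norm_natCast, Complex.norm_real, Real.norm_eq_abs] at this
    rw [this]
    refine (norm_sum_le _ _).trans (le_of_eq ?_)
    simp only [norm_mul, norm_star]
  have h2 := (pow_le_pow_left₀ (by positivity) h1 2).trans (sum_mul_sq_le_sq_mul_sq _ _ _)
  rw [parseval E hE 1, mul_pow, sq_abs] at h2
  simp only [Pi.one_apply, norm_one, one_pow, sum_const, nsmul_eq_mul, mul_one, mul_pow] at h2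
  rcases Nat.eq_zero_or_pos M with rfl | hM
  · simp
  have M0 : (0 : ℝ) < M := by exact_mod_cast hM
  refine le_of_mul_le_mul_left ?_ M0
  linarith

theorem smooth {ε : ℝ} (hε : 0 < ε) : ∃ C : ℝ, 1 ≤ C ∧ ∀ᶠ N : ℕ in atTop, ∃ F : ℕ → ℝ,
    (∀ m, 0 ≤ F m) ∧ (∀ m, m.Prime → N ≤ m → 1 ≤ F m) ∧
    ∑ m ∈ Ico N (4 * N) with ¬ m.Prime, F m ≤ ε * N / log N ∧ ∀ t : ℕ, 2 ≤ t → t ≤ log N →
      ∀ W J : ℕ, 0 < W → (∀ q, 1 ≤ q → q ≤ t ^ 120 → q ∣ W) → 0 < J → J * W * t ^ 121 ≤ N →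
      ∀ E ⊆ Ioc N (2 * N), (∑ n ∈ E, ∑ p ∈ PP N, (F (n + aa p) -
        1 / J * ∑ j ∈ range J, F (n + aa p + j * W))) ^ 2 ≤ C * (N / log N) ^ 4 / t := by
  classical
  obtain ⟨C1, C11, hC1⟩ := F_main hε
  obtain ⟨C2, C21, hC2⟩ := large_mass
  set C := C1 + C2 with hC
  have C0 : 1 ≤ C := by linarith
  have C3 : C ≤ C ^ 3 := le_self_pow₀ C0 (by norm_num)
  refine ⟨2000 * C ^ 3, by linarith, ?_⟩
  filter_upwards [hC1, hC2, card_PP, ev_log_ge 1, eventually_ge_atTop 4] with N ⟨F, F0, F1, F2, F3⟩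
    hA ⟨_, K2⟩ L1 N4
  refine ⟨F, F0, F1, F2, fun t t2 tL W J W0 hW J0 hJ E hE => ?_⟩
  set L := log N with hL
  set w := N / L with hw
  set A := (PP N).image aa
  have N0 : (0 : ℝ) < N := by positivity
  have L0 : 0 < L := by linarith
  have w0 : 0 ≤ w := by positivity
  have t0 : (2 : ℝ) ≤ t := by exact_mod_cast t2
  have ew : 8 * N * N / L ^ 2 = 8 * w ^ 2 := by rw [hw]; ring
  let f : ℕ → ℝ := fun ξ => ‖ft (range (4 * N)) (cx F) (gp (8 * N) ξ)‖
  let g : ℕ → ℝ := fun ξ => ‖ft A 1 (gp (8 * N) ξ)‖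
  have gK : ∀ ξ, g ξ ≤ 2 * w := fun ξ =>
    ((norm_ft_one _ _).trans (Nat.cast_le.2 card_image_le)).trans K2
  have a2 : ∀ t : ℕ, 1 ≤ t → t ≤ L → ∑ ξ ∈ range (8 * N) with Maj (t ^ 240) N (gp (8 * N) ξ),
      f ξ ^ 2 ≤ C * t * (8 * w ^ 2) := fun t a b =>
    (F3 t a b).2.trans (by rw [ew]; gcongr; linarith)
  obtain ⟨n, hn⟩ := exists_nat_gt L
  have a1 := recursion (U := range (8 * N)) (f := f) (g := g)
    (m := fun T ξ => Maj T N (gp (8 * N) ξ)) (K := (PP N).card) (L := L) C0 w0 K2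
    (fun _ => norm_nonneg _) (fun _ => norm_nonneg _)
    (fun t a b ξ h => ((F3 t a b).1 _ h).trans (by rw [mul_div_assoc C1]; gcongr; linarith)) a2
    (fun t a b => (hA t (by exact_mod_cast a) b).trans (by rw [ew]; gcongr; linarith)) (by
      rw [parseval A (fun m hm => by have := aa_le hm; omega) 1]
      simp only [Pi.one_apply, norm_one, one_pow, sum_const, nsmul_eq_mul, mul_one]
      calc _ ≤ (8 * N : ℕ) * (2 * w) := by gcongr; exact (Nat.cast_le.2 card_image_le).trans K2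
        _ = _ := by rw [hw]; push_cast; field_simp; ring) n t t2 tL (by linarith)
  have JW : J * W ≤ N := (Nat.le_mul_of_pos_right _ (by positivity)).trans hJ
  have a3 := err_sq (M := 8 * N) (K := 4 * N) (W := W) (by omega) J0 F (E := E) (A := A)
    (fun n hn a ha j hj => by
      have := (mem_Ioc.1 (hE hn)).2
      have := aa_le ha
      have := Nat.mul_lt_mul_of_pos_right hj W0
      omega) fun n hn => by have := (mem_Ioc.1 (hE hn)).2; omega
  simp only [A, sum_image (aa_inj N4)] at a3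
  have a4 : ∑ ξ ∈ range (8 * N), f ξ ^ 2 * g ξ ^ 2 * ‖ker W J (gp (8 * N) ξ)‖ ^ 2 ≤
      2000 * C ^ 3 * w ^ 4 / t := by
    calc _ ≤ ∑ ξ ∈ range (8 * N), (4 * (if ¬ Maj (t ^ 120) N (gp (8 * N) ξ) then
          f ξ ^ 2 * g ξ ^ 2 else 0) + (2 * w) ^ 2 * (7 / t) ^ 2 *
          if Maj (t ^ 240) N (gp (8 * N) ξ) then f ξ ^ 2 else 0) := by
          refine sum_le_sum fun ξ _ => ?_
          by_cases c : Maj (t ^ 120) N (gp (8 * N) ξ)
          · rw [if_neg (not_not.2 c), if_pos (c.mono (Nat.pow_le_pow_right (by omega)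
              (by norm_num)) N0 le_rfl), mul_zero, zero_add, mul_comm _ (f ξ ^ 2), mul_assoc]
            obtain ⟨q, q1, q2, q3⟩ := c
            obtain ⟨k, hk⟩ := hW q q1 q2
            have b1 : ‖ker W J (gp (8 * N) ξ)‖ ≤ 7 / t := norm_ker_le (by positivity) fun j hj => by
              rw [norm_sub_rev]
              refine (norm_ee_sub_one _).trans ?_
              have b2 := nd_nat_mul (j * k) (q * gp (8 * N) ξ)
              have b3 : j * k * t ^ 121 ≤ N := le_trans (Nat.mul_le_mul_right _ (Nat.mul_le_mul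
                hj.le (hk ▸ Nat.le_mul_of_pos_left _ q1))) hJ
              have b4 : ((j * k : ℕ) : ℝ) * ((t ^ 120 : ℕ) / N) ≤ 1 / t := by
                rw [mul_div_assoc', div_le_div_iff₀ N0 (by linarith), one_mul, mul_assoc]
                exact_mod_cast b3
              rw [nd_neg, show ((j * W : ℕ) : ℝ) * gp (8 * N) ξ = (j * k : ℕ) *
                (q * gp (8 * N) ξ) by rw [hk]; push_cast; ring, div_eq_mul_one_div 7]
              have := mul_le_mul_of_nonneg_left q3 (Nat.cast_nonneg (α := ℝ) (j * k))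
              linarith
            have := gK ξ
            gcongr
          · have b1 : ‖ker W J (gp (8 * N) ξ)‖ ≤ 2 := norm_ker_le zero_le_two fun j _ =>
              (norm_sub_le _ _).trans (by rw [norm_ee]; norm_num)
            rw [if_pos c]
            refine le_add_of_le_of_nonneg ?_ (by positivity)
            rw [mul_comm 4]
            exact mul_le_mul_of_nonneg_left ((pow_le_pow_left₀ (norm_nonneg _) b1 2).trans
              (by norm_num)) (by positivity)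
      _ ≤ 4 * (80 * C ^ 3 * w ^ 4 / t) + (2 * w) ^ 2 * (7 / t) ^ 2 * (C * t * (8 * w ^ 2)) := by
          simp only [sum_add_distrib, ← mul_sum, ← sum_filter]
          gcongr
          exact a2 t (by omega) tL
      _ = (320 * C ^ 3 + 1568 * C) * w ^ 4 / t := by field_simp; ring
      _ ≤ _ := by gcongr; linarith
  have a5 : (E.card : ℝ) ≤ (8 * N : ℕ) := by
    have := card_le_card hE
    rw [Nat.card_Ioc] at this
    exact_mod_cast (by omega : E.card ≤ 8 * N)
  refine le_of_mul_le_mul_left (a3.trans (mul_le_mul a5 a4 (by positivity) (by positivity)))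
    (by positivity)

end Pool.Agent.Lib.MP_488d93_nt
end
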